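import Mathlib

/-!
# Blocks in dense graphs

`f x y z` is the colour of the triple `x, y, z`.

* `seq`: a sequence `x 1, ..., x r` with colours `t i` and a large set `W'` with
  `f (x i) (x j) w = t i` for `i < j` and `w ∈ W'`, chosen inside given sets `X w`.
* `block_in_graph`: a `k`-set `A` and a large set `W'` such that `A × W'` is contained in a given
  dense graph and all triples `a, a', w` have one colour.
-/

set_option autoImplicit false

namespace Pool.Agent.FanCross

variable {S : Type*} [DecidableEq S]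

theorem block_popular (U W : Finset S) (X : S → Finset S) (e : ℕ) (hU : 0 < U.card)
    (hX : ∀ w ∈ W, X w ⊆ U) (hc : ∀ w ∈ W, U.card ≤ 2 ^ e * (X w).card) :
    ∃ x ∈ U, W.card ≤ 2 ^ e * (W.filter fun w => x ∈ X w).card := by
  by_contra hcon
  push Not at hcon
  have h1 : ∑ x ∈ U, (W.filter fun w => x ∈ X w).card = ∑ w ∈ W, (X w).card := by
    simp only [Finset.card_filter]
    rw [Finset.sum_comm]
    refine Finset.sum_congr rfl fun w hw => ?_
    rw [← Finset.card_filter]
    congr 1
    ext x
    simp only [Finset.mem_filter]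
    exact ⟨fun h => h.2, fun h => ⟨hX w hw h, h⟩⟩
  have h2 : ∑ x ∈ U, 2 ^ e * (W.filter fun w => x ∈ X w).card < ∑ _x ∈ U, W.card :=
    Finset.sum_lt_sum_of_nonempty (Finset.card_pos.mp hU) fun x hx => hcon x hx
  rw [← Finset.mul_sum, h1, Finset.mul_sum, Finset.sum_const, smul_eq_mul] at h2
  have h3 : ∑ _w ∈ W, U.card ≤ ∑ w ∈ W, 2 ^ e * (X w).card := Finset.sum_le_sum hc
  rw [Finset.sum_const, smul_eq_mul] at h3
  have h4 := Nat.mul_comm W.card U.card
  omega

/-- Sequences which are homogeneous in the links of many points. -/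
theorem seq (f : S → S → S → Bool) (U : Finset S) : ∀ (r e : ℕ) (W : Finset S)
    (X : S → Finset S), (∀ w ∈ W, X w ⊆ U) → (∀ w ∈ W, U.card ≤ 2 ^ e * (X w).card) →
    2 ^ (e + 2 * r) ≤ U.card → ∃ (l : List (S × Bool)) (W' : Finset S), W' ⊆ W ∧ l.length = r ∧
      W.card ≤ 2 ^ (r * (e + r)) * W'.card ∧ ∀ w ∈ W', (∀ q ∈ l, q.1 ∈ X w) ∧
        l.Pairwise fun a b => a.1 ≠ b.1 ∧ f a.1 b.1 w = a.2 := by
  intro r
  induction r with
  | zero =>
    intro e W X hX hc hU
    refine ⟨[], W, Finset.Subset.refl _, rfl, by simp, fun w hw => ⟨by simp, by simp⟩⟩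
  | succ r ih =>
    intro e W X hX hc hU
    have hU0 : 0 < U.card := lt_of_lt_of_le (by positivity) hU
    obtain ⟨x, hxU, hx⟩ := block_popular U W X e hU0 hX hc
    set W1 := W.filter fun w => x ∈ X w with hW1
    -- the halves
    let Y : Bool → S → Finset S := fun t w => (X w).filter fun y => y ≠ x ∧ f x y w = t
    have hY : ∀ w ∈ W1, (X w).card = (Y true w).card + (Y false w).card + 1 := by
      intro w hw
      have hxw : x ∈ X w := (Finset.mem_filter.mp hw).2
      have h1 : X w = insert x (Y true w ∪ Y false w) := by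
        ext y
        simp only [Y, Finset.mem_insert, Finset.mem_union, Finset.mem_filter]
        constructor
        · intro hy
          by_cases hyx : y = x
          · exact Or.inl hyx
          · right
            cases hf : f x y w
            · exact Or.inr ⟨hy, hyx, rfl⟩
            · exact Or.inl ⟨hy, hyx, rfl⟩
        · rintro (rfl | ⟨hy, -⟩ | ⟨hy, -⟩)
          · exact hxw
          · exact hy
          · exact hy
      have h2 : x ∉ Y true w ∪ Y false w := by
        simp [Y]
      have h3 : Disjoint (Y true w) (Y false w) := by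
        rw [Finset.disjoint_left]
        intro y hy hy'
        simp only [Y, Finset.mem_filter] at hy hy'
        rw [hy.2.2] at hy'
        exact absurd hy'.2.2 (by simp)
      conv_lhs => rw [h1]
      rw [Finset.card_insert_of_notMem h2, Finset.card_union_of_disjoint h3]
    have hbig : ∀ w ∈ W1, 2 ≤ (X w).card := by
      intro w hw
      have h1 := hc w (Finset.mem_filter.mp hw).1
      by_contra h2
      have h3 : (X w).card ≤ 1 := by omega
      have h4 : 2 ^ e * (X w).card ≤ 2 ^ e * 1 := Nat.mul_le_mul_left _ h3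
      have h5 : 2 ^ e < 2 ^ (e + 2 * (r + 1)) := Nat.pow_lt_pow_right (by norm_num) (by omega)
      omega
    have hhalf : ∀ w ∈ W1, ∃ t, U.card ≤ 2 ^ (e + 2) * (Y t w).card := by
      intro w hw
      have h1 := hc w (Finset.mem_filter.mp hw).1
      have h2 := hY w hw
      have h3 := hbig w hw
      have h4 : ∃ t, (X w).card ≤ 4 * (Y t w).card := by
        by_cases h5 : (Y false w).card ≤ (Y true w).card
        · exact ⟨true, by omega⟩
        · exact ⟨false, by omega⟩
      obtain ⟨t, ht⟩ := h4
      refine ⟨t, ?_⟩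
      calc U.card ≤ 2 ^ e * (X w).card := h1
        _ ≤ 2 ^ e * (4 * (Y t w).card) := Nat.mul_le_mul_left _ ht
        _ = 2 ^ (e + 2) * (Y t w).card := by ring
    -- the popular colour
    have hpig : ∃ t, W1.card ≤ 2 * (W1.filter fun w => U.card ≤ 2 ^ (e + 2) * (Y t w).card).card := by
      set F : Bool → Finset S := fun t => W1.filter fun w => U.card ≤ 2 ^ (e + 2) * (Y t w).card
      have h1 : W1 ⊆ F true ∪ F false := by
        intro w hw
        obtain ⟨t, ht⟩ := hhalf w hw
        cases t
        · exact Finset.mem_union_right _ (Finset.mem_filter.mpr ⟨hw, ht⟩)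
        · exact Finset.mem_union_left _ (Finset.mem_filter.mpr ⟨hw, ht⟩)
      have h2 := (Finset.card_le_card h1).trans (Finset.card_union_le _ _)
      by_cases h3 : (F false).card ≤ (F true).card
      · exact ⟨true, by change W1.card ≤ 2 * (F true).card; omega⟩
      · exact ⟨false, by change W1.card ≤ 2 * (F false).card; omega⟩
    obtain ⟨t, ht⟩ := hpig
    set W2 := W1.filter fun w => U.card ≤ 2 ^ (e + 2) * (Y t w).card with hW2
    have hW21 : ∀ w ∈ W2, w ∈ W1 := fun w hw => (Finset.mem_filter.mp hw).1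
    obtain ⟨l, W', hW', hl, hcard, hprop⟩ := ih (e + 2) W2 (Y t)
      (fun w hw y hy => hX w (Finset.mem_filter.mp (hW21 w hw)).1 (Finset.mem_filter.mp hy).1)
      (fun w hw => (Finset.mem_filter.mp hw).2)
      (by rw [show e + 2 + 2 * r = e + 2 * (r + 1) by ring]; exact hU)
    refine ⟨(x, t) :: l, W', ?_, by simp [hl], ?_, ?_⟩
    · exact fun w hw => (Finset.mem_filter.mp (hW21 w (hW' hw))).1
    · calc W.card ≤ 2 ^ e * W1.card := hx
        _ ≤ 2 ^ e * (2 * W2.card) := Nat.mul_le_mul_left _ ht
        _ ≤ 2 ^ e * (2 * (2 ^ (r * (e + 2 + r)) * W'.card)) := by gcongr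
        _ = 2 ^ ((r + 1) * (e + (r + 1))) * W'.card := by
            have h1 : (r + 1) * (e + (r + 1)) = e + 1 + r * (e + 2 + r) := by ring
            rw [h1, pow_add, pow_add]
            ring
    · intro w hw
      obtain ⟨h1, h2⟩ := hprop w hw
      have hxw : x ∈ X w := (Finset.mem_filter.mp (hW21 w (hW' hw))).2
      refine ⟨?_, ?_⟩
      · intro q hq
        rcases List.mem_cons.mp hq with rfl | hq
        · exact hxw
        · exact (Finset.mem_filter.mp (h1 q hq)).1
      · rw [List.pairwise_cons]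
        refine ⟨fun q hq => ?_, h2⟩
        have h3 := (Finset.mem_filter.mp (h1 q hq)).2
        exact ⟨fun h => h3.1 h.symm, h3.2⟩

/-- Many points of a dense graph have large degree. -/
theorem block_degree (W : Finset S) (G : S → S → Prop) [DecidableRel G] (p : ℕ)
    (hG : W.card ^ 2 ≤ 2 ^ p * ((W ×ˢ W).filter fun q => G q.1 q.2).card) (hW : 0 < W.card) :
    W.card ≤ 2 ^ (p + 1) *
      (W.filter fun w => W.card ≤ 2 ^ (p + 1) * (W.filter fun y => G y w).card).card := by
  set W0 := W.filter fun w => W.card ≤ 2 ^ (p + 1) * (W.filter fun y => G y w).card with hW0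
  have h1 : ((W ×ˢ W).filter fun q => G q.1 q.2).card =
      ∑ w ∈ W, (W.filter fun y => G y w).card := by
    rw [Finset.card_filter, Finset.sum_product_right]
    refine Finset.sum_congr rfl fun w _ => ?_
    rw [Finset.card_filter]
  have h2 : ∑ w ∈ W, 2 ^ (p + 1) * (W.filter fun y => G y w).card ≤
      ∑ w ∈ W, ((if w ∈ W0 then 2 ^ (p + 1) * W.card else 0) + W.card) := by
    refine Finset.sum_le_sum fun w hw => ?_
    by_cases h3 : w ∈ W0
    · rw [if_pos h3]
      have h4 : (W.filter fun y => G y w).card ≤ W.card := Finset.card_filter_le _ _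
      have h5 := Nat.mul_le_mul_left (2 ^ (p + 1)) h4
      omega
    · rw [if_neg h3]
      have h4 : ¬ W.card ≤ 2 ^ (p + 1) * (W.filter fun y => G y w).card := fun h5 =>
        h3 (Finset.mem_filter.mpr ⟨hw, h5⟩)
      omega
  rw [← Finset.mul_sum, ← h1, Finset.sum_add_distrib, Finset.sum_const, smul_eq_mul] at h2
  have h3 : ∑ w ∈ W, (if w ∈ W0 then 2 ^ (p + 1) * W.card else 0) =
      W0.card * (2 ^ (p + 1) * W.card) := by
    rw [← Finset.sum_filter]
    have h4 : (W.filter fun w => w ∈ W0) = W0 := by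
      ext w
      simp only [Finset.mem_filter]
      exact ⟨fun h => h.2, fun h => ⟨(Finset.mem_filter.mp h).1, h⟩⟩
    rw [h4, Finset.sum_const, smul_eq_mul]
  rw [h3] at h2
  have h5 : W.card * W.card ≤ W.card * (2 ^ (p + 1) * W0.card) := by
    have h6 : 2 * W.card ^ 2 ≤ 2 ^ (p + 1) * ((W ×ˢ W).filter fun q => G q.1 q.2).card := by
      rw [pow_succ 2 p]
      have h7 := Nat.mul_le_mul_left 2 hG
      calc 2 * W.card ^ 2 ≤ 2 * (2 ^ p * ((W ×ˢ W).filter fun q => G q.1 q.2).card) := h7
        _ = _ := by ring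
    have h8 : 2 * W.card ^ 2 ≤ W0.card * (2 ^ (p + 1) * W.card) + W.card * W.card := h6.trans h2
    have h9 : W0.card * (2 ^ (p + 1) * W.card) = W.card * (2 ^ (p + 1) * W0.card) := by ring
    rw [h9, pow_two] at h8
    omega
  exact Nat.le_of_mul_le_mul_left h5 hW

/-- A monochromatic block inside a dense graph. -/
theorem block_in_graph (f : S → S → S → Bool) (hs : ∀ x y z, f x y z = f y x z) (W : Finset S)
    (G : S → S → Prop) [DecidableRel G] (p k : ℕ)
    (hG : W.card ^ 2 ≤ 2 ^ p * ((W ×ˢ W).filter fun q => G q.1 q.2).card)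
    (hW : 2 ^ (p + 1 + 4 * k) ≤ W.card) :
    ∃ (A W' : Finset S) (c : Bool), A ⊆ W ∧ W' ⊆ W ∧ A.card = k ∧
      W.card ≤ 2 ^ (p + 1 + 2 * k * (p + 1 + 2 * k)) * W'.card ∧
      (∀ a ∈ A, ∀ w ∈ W', G a w) ∧ ∀ a ∈ A, ∀ a' ∈ A, a ≠ a' → ∀ w ∈ W', f a a' w = c := by
  have hW0 : 0 < W.card := lt_of_lt_of_le (by positivity) hW
  have hdeg := block_degree W G p hG hW0
  set W0 := W.filter fun w => W.card ≤ 2 ^ (p + 1) * (W.filter fun y => G y w).card with hW0def
  obtain ⟨l, W', hW', hl, hcard, hprop⟩ := seq f W (2 * k) (p + 1) W0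
    (fun w => W.filter fun y => G y w) (fun w _ => Finset.filter_subset _ _)
    (fun w hw => (Finset.mem_filter.mp hw).2)
    (by rw [show p + 1 + 2 * (2 * k) = p + 1 + 4 * k by ring]; exact hW)
  have hcost : W.card ≤ 2 ^ (p + 1 + 2 * k * (p + 1 + 2 * k)) * W'.card := by
    calc W.card ≤ 2 ^ (p + 1) * W0.card := hdeg
      _ ≤ 2 ^ (p + 1) * (2 ^ (2 * k * (p + 1 + 2 * k)) * W'.card) :=
          Nat.mul_le_mul_left _ hcard
      _ = _ := by rw [← mul_assoc, ← pow_add]
  have hW'0 : 0 < W'.card := by
    rcases Nat.eq_zero_or_pos W'.card with h | h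
    · rw [h, mul_zero] at hcost
      omega
    · exact h
  obtain ⟨w0, hw0⟩ := Finset.card_pos.mp hW'0
  -- the popular colour
  obtain ⟨c, hc⟩ : ∃ c : Bool, k ≤ (l.filter fun q => q.2 = c).length := by
    have h1 : (l.filter fun q => q.2 = true).length + (l.filter fun q => q.2 = false).length =
        2 * k := by
      rw [← hl]
      clear hl hcard hprop hcost
      induction l with
      | nil => simp
      | cons a l ih =>
        rcases a with ⟨x, _ | _⟩
        · simp only [List.filter_cons, List.length_cons]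
          simp only [decide_true, decide_false, Bool.false_eq_true, if_true, if_false,
            List.length_cons]
          omega
        · simp only [List.filter_cons, List.length_cons]
          simp only [decide_true, decide_false, Bool.true_eq_false, Bool.false_eq_true, if_true,
            if_false, List.length_cons]
          omega
    by_cases h2 : k ≤ (l.filter fun q => q.2 = true).length
    · exact ⟨true, h2⟩
    · exact ⟨false, by omega⟩
  set l' := l.filter fun q => q.2 = c with hl'
  have hsub : ∀ q ∈ l', q ∈ l ∧ q.2 = c := by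
    intro q hq
    have h1 := List.mem_filter.mp hq
    exact ⟨h1.1, by simpa using h1.2⟩
  have hpw : ∀ w ∈ W', l'.Pairwise fun a b => a.1 ≠ b.1 ∧ f a.1 b.1 w = a.2 := fun w hw =>
    (hprop w hw).2.sublist List.filter_sublist
  have hnd : (l'.map Prod.fst).Nodup := by
    rw [List.Nodup, List.pairwise_map]
    exact (hpw w0 hw0).imp fun h => h.1
  have hcardA : k ≤ (l'.map Prod.fst).toFinset.card := by
    rw [List.toFinset_card_of_nodup hnd, List.length_map]
    exact hc
  obtain ⟨A, hA, hAk⟩ := Finset.exists_subset_card_eq hcardA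
  have hmem : ∀ a ∈ A, ∃ q ∈ l', q.1 = a := by
    intro a ha
    have h1 := hA ha
    rw [List.mem_toFinset, List.mem_map] at h1
    exact h1
  refine ⟨A, W', c, ?_, fun w hw => (Finset.mem_filter.mp (hW' hw)).1, hAk, hcost, ?_, ?_⟩
  · intro a ha
    obtain ⟨q, hq, rfl⟩ := hmem a ha
    exact (Finset.mem_filter.mp ((hprop w0 hw0).1 q (hsub q hq).1)).1
  · intro a ha w hw
    obtain ⟨q, hq, rfl⟩ := hmem a ha
    exact (Finset.mem_filter.mp ((hprop w hw).1 q (hsub q hq).1)).2
  · intro a ha a' ha' hne w hw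
    obtain ⟨q, hq, rfl⟩ := hmem a ha
    obtain ⟨q', hq', rfl⟩ := hmem a' ha'
    have h1 : l'.Pairwise fun a b => a.1 = b.1 ∨ f a.1 b.1 w = c := by
      refine List.Pairwise.imp_of_mem (fun {a b} ha _ h => ?_) (hpw w hw)
      rw [← (hsub a ha).2]
      exact Or.inr h.2
    have hsym : Std.Symm fun a b : S × Bool => a.1 = b.1 ∨ f a.1 b.1 w = c := by
      refine ⟨fun a b h => ?_⟩
      rcases h with h | h
      · exact Or.inl h.symm
      · exact Or.inr (by rw [hs]; exact h)
    have h2 : ∀ x ∈ l', x.1 = x.1 ∨ f x.1 x.1 w = c := fun x _ => Or.inl rfl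
    exact (h1.forall_of_forall h2 hq hq').resolve_left hne

end Pool.Agent.FanCross
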