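import Pool.Agent.FanCross.Grid

/-!
# Blocks or grids in dense graphs

`G` is a graph on `W` of density at least `2 ^ (-p)`. There is a large set `W' ⊆ W` and either a set
`A` of size `N` such that `A × W' ⊆ G` and all triples `a, a', w` have one colour, or a grid which
is complete to `W'` in `G` and is a grid in the links of all `w ∈ W'`.

PROOF. `X₀`, the set of the `x ∈ W` with at least `2 ^ (-p-1) |W|` neighbours `w`, has at least
`2 ^ (-p-1) |W|` elements (`block_degree` for the transposed graph). Take `U ⊆ X₀` with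
`|U| = 2 ^ e0`. By double counting the set `W₁` of the `w` with `|U| ≤ 2 ^ (p+2) |{x ∈ U : G x w}|`
has at least `2 ^ (-p-2) |W|` elements. For `w ∈ W₁` use `grid_or` for `f · · w` and
`{x ∈ U : G x w}`, whose size is at least `2 ^ (2 * ℓ * lam t ℓ)`; the clique is cut down to `N`
elements. Pigeonhole: at most `2 |U| ^ N` pairs `(A, c)`, at most `|U| ^ (t * t)` grids.
-/

set_option autoImplicit false
set_option linter.unusedSectionVars false

namespace Pool.Agent.FanCross

variable {S : Type*} [DecidableEq S]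

/-- The logarithm of the size of the set `U`. -/
def eU (p t ℓ : ℕ) : ℕ := p + 2 + 2 * ℓ * lam t ℓ

private theorem pigeon_Block2 {β : Type*} [DecidableEq β] (W : Finset S) (T : Finset β)
    (o : S → β) (ho : ∀ w ∈ W, o w ∈ T) (hW : 0 < W.card) :
    ∃ b ∈ T, W.card ≤ T.card * (W.filter fun w => o w = b).card := by
  by_contra hcon
  push Not at hcon
  have h1 : W.card = ∑ b ∈ T, (W.filter fun w => o w = b).card :=
    Finset.card_eq_sum_card_fiberwise ho
  have hT : T.Nonempty := by
    obtain ⟨w, hw⟩ := Finset.card_pos.mp hW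
    exact ⟨o w, ho w hw⟩
  have h2 : ∑ b ∈ T, T.card * (W.filter fun w => o w = b).card < ∑ _b ∈ T, W.card :=
    Finset.sum_lt_sum_of_nonempty hT fun b hb => hcon b hb
  rw [← Finset.mul_sum, ← h1, Finset.sum_const, smul_eq_mul] at h2
  exact lt_irrefl _ h2

/-- A set `U` such that many `w` have many neighbours in `U`. -/
private theorem sample_Block2 (W : Finset S) (G : S → S → Prop) [DecidableRel G] (p e : ℕ)
    (hG : W.card ^ 2 ≤ 2 ^ p * ((W ×ˢ W).filter fun q => G q.1 q.2).card)
    (hW : 2 ^ (p + 1 + e) ≤ W.card) :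
    ∃ U ⊆ W, U.card = 2 ^ e ∧ W.card ≤ 2 ^ (p + 2) *
      (W.filter fun w => 2 ^ e ≤ 2 ^ (p + 2) * (U.filter fun x => G x w).card).card := by
  have hW0 : 0 < W.card := lt_of_lt_of_le (by positivity) hW
  have hG' : W.card ^ 2 ≤ 2 ^ p *
      ((W ×ˢ W).filter fun q => (fun y w => G w y) q.1 q.2).card := by
    refine hG.trans (Nat.mul_le_mul_left _ (le_of_eq ?_))
    refine Finset.card_nbij' Prod.swap Prod.swap ?_ ?_ (fun _ _ => rfl) (fun _ _ => rfl)
    · intro q hq
      simp only [Finset.coe_filter, Finset.mem_product, Set.mem_ofPred_eq] at hq ⊢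
      exact ⟨⟨hq.1.2, hq.1.1⟩, hq.2⟩
    · intro q hq
      simp only [Finset.coe_filter, Finset.mem_product, Set.mem_ofPred_eq] at hq ⊢
      exact ⟨⟨hq.1.2, hq.1.1⟩, hq.2⟩
  have hdeg := block_degree W (fun y w => G w y) p hG' hW0
  set X0 := W.filter fun w => W.card ≤ 2 ^ (p + 1) *
    (W.filter fun y => (fun y w => G w y) y w).card with hX0
  have hX0c : 2 ^ e ≤ X0.card := by
    have h1 : 2 ^ (p + 1) * 2 ^ e ≤ 2 ^ (p + 1) * X0.card := by
      rw [← pow_add]
      exact hW.trans hdeg
    exact Nat.le_of_mul_le_mul_left h1 (by positivity)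
  obtain ⟨U, hU, hUc⟩ := Finset.exists_subset_card_eq hX0c
  refine ⟨U, hU.trans (Finset.filter_subset _ _), hUc, ?_⟩
  set W1 := W.filter fun w => 2 ^ e ≤ 2 ^ (p + 2) * (U.filter fun x => G x w).card with hW1
  have h1 : ∑ w ∈ W, (U.filter fun x => G x w).card =
      ∑ x ∈ U, (W.filter fun w => G x w).card := by
    simp only [Finset.card_filter]
    exact Finset.sum_comm
  have h2 : U.card * W.card ≤ 2 ^ (p + 1) * ∑ w ∈ W, (U.filter fun x => G x w).card := by
    rw [h1, Finset.mul_sum]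
    calc U.card * W.card = ∑ _x ∈ U, W.card := by rw [Finset.sum_const, smul_eq_mul]
      _ ≤ _ := Finset.sum_le_sum fun x hx => (Finset.mem_filter.mp (hU hx)).2
  have h3 : ∑ w ∈ W, 2 ^ (p + 2) * (U.filter fun x => G x w).card ≤
      ∑ w ∈ W, ((if w ∈ W1 then 2 ^ (p + 2) * U.card else 0) + U.card) := by
    refine Finset.sum_le_sum fun w hw => ?_
    by_cases h4 : w ∈ W1
    · rw [if_pos h4]
      have h5 : (U.filter fun x => G x w).card ≤ U.card := Finset.card_filter_le _ _
      have h6 := Nat.mul_le_mul_left (2 ^ (p + 2)) h5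
      omega
    · rw [if_neg h4]
      have h5 : ¬ 2 ^ e ≤ 2 ^ (p + 2) * (U.filter fun x => G x w).card := fun h6 =>
        h4 (Finset.mem_filter.mpr ⟨hw, h6⟩)
      rw [hUc]
      omega
  rw [← Finset.mul_sum, Finset.sum_add_distrib, Finset.sum_const, smul_eq_mul] at h3
  have h4 : ∑ w ∈ W, (if w ∈ W1 then 2 ^ (p + 2) * U.card else 0) =
      W1.card * (2 ^ (p + 2) * U.card) := by
    rw [← Finset.sum_filter]
    have h5 : (W.filter fun w => w ∈ W1) = W1 := by
      ext w
      simp only [Finset.mem_filter]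
      exact ⟨fun h => h.2, fun h => ⟨(Finset.mem_filter.mp h).1, h⟩⟩
    rw [h5, Finset.sum_const, smul_eq_mul]
  rw [h4] at h3
  have h5 : 2 * (U.card * W.card) ≤ 2 ^ (p + 2) *
      ∑ w ∈ W, (U.filter fun x => G x w).card := by
    calc 2 * (U.card * W.card)
        ≤ 2 * (2 ^ (p + 1) * ∑ w ∈ W, (U.filter fun x => G x w).card) :=
          Nat.mul_le_mul_left _ h2
      _ = _ := by rw [show p + 2 = (p + 1) + 1 by ring, pow_succ 2 (p + 1)]; ring
  have h6 : 2 * (U.card * W.card) ≤ W1.card * (2 ^ (p + 2) * U.card) + W.card * U.card :=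
    h5.trans h3
  have h7 : W1.card * (2 ^ (p + 2) * U.card) = U.card * (2 ^ (p + 2) * W1.card) := by ring
  have h8 : W.card * U.card = U.card * W.card := Nat.mul_comm _ _
  rw [h7, h8] at h6
  have h9 : U.card * W.card ≤ U.card * (2 ^ (p + 2) * W1.card) := by omega
  exact Nat.le_of_mul_le_mul_left h9 (by rw [hUc]; positivity)

theorem block_or_grid (f : S → S → S → Bool) (hs : ∀ x y z, f x y z = f y x z) (W : Finset S)
    (G : S → S → Prop) [DecidableRel G] (p N t ℓ : ℕ) (hN : N ≤ 2 ^ ℓ)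
    (hG : W.card ^ 2 ≤ 2 ^ p * ((W ×ˢ W).filter fun q => G q.1 q.2).card)
    (hW : 2 ^ (p + 1 + eU p t ℓ) ≤ W.card) :
    (∃ (A W' : Finset S) (c : Bool), A ⊆ W ∧ W' ⊆ W ∧ A.card = N ∧
      W.card ≤ 2 ^ (p + 4 + N * eU p t ℓ) * W'.card ∧
      (∀ a ∈ A, ∀ w ∈ W', G a w) ∧ ∀ a ∈ A, ∀ a' ∈ A, a ≠ a' → ∀ w ∈ W', f a a' w = c) ∨
    ∃ (x : Fin t × Fin t → S) (W' : Finset S), (∀ i, x i ∈ W) ∧ W' ⊆ W ∧
      W.card ≤ 2 ^ (p + 4 + t * t * eU p t ℓ) * W'.card ∧ (∀ i, ∀ w ∈ W', G (x i) w) ∧
      ∀ w ∈ W', IsGrid (fun a b => f a b w) t x := by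
  have hW0 : 0 < W.card := lt_of_lt_of_le (by positivity) hW
  obtain ⟨U, hU, hUc, hW1c⟩ := sample_Block2 W G p (eU p t ℓ) hG hW
  set W1 := W.filter fun w => 2 ^ eU p t ℓ ≤ 2 ^ (p + 2) * (U.filter fun x => G x w).card
    with hW1
  have hbig : ∀ w ∈ W1, 2 ^ (2 * ℓ * lam t ℓ) ≤ (U.filter fun x => G x w).card := by
    intro w hw
    have h1 := (Finset.mem_filter.mp hw).2
    rw [eU, pow_add] at h1
    exact Nat.le_of_mul_le_mul_left h1 (by positivity)
  classical
  set Wc := W1.filter fun w => ∃ o : Finset S × Bool,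
    o.1 ∈ (U.filter fun x => G x w).powersetCard N ∧ IsCl (fun a b => f a b w) o.2 o.1 with hWc
  set Wg := W1.filter fun w => ∃ x : Fin t × Fin t → S, (∀ i, x i ∈ U.filter fun x => G x w) ∧
    IsGrid (fun a b => f a b w) t x with hWg
  have hcover : W1.card ≤ Wc.card + Wg.card := by
    refine (Finset.card_le_card ?_).trans (Finset.card_union_le _ _)
    intro w hw
    rcases grid_or (fun a b => f a b w) (fun a b => hs a b w) t ℓ _ (hbig w hw) with
      ⟨x, hx, hgx⟩ | ⟨K, hK, c, hKc, hcl⟩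
    · exact Finset.mem_union_right _ (Finset.mem_filter.mpr ⟨hw, x, hx, hgx⟩)
    · obtain ⟨A, hA, hAc⟩ := Finset.exists_subset_card_eq (hN.trans_eq hKc.symm)
      exact Finset.mem_union_left _ (Finset.mem_filter.mpr ⟨hw, (A, c),
        Finset.mem_powersetCard.mpr ⟨hA.trans hK, hAc⟩,
        fun a ha b hb hab => hcl a (hA ha) b (hA hb) hab⟩)
  have hW1pos : 0 < W1.card := by
    rcases Nat.eq_zero_or_pos W1.card with h | h
    · rw [h, mul_zero] at hW1c
      omega
    · exact h
  by_cases hcase : W1.card ≤ 2 * Wc.card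
  · left
    have hex : ∀ w, ∃ o : Finset S × Bool, w ∈ Wc →
        o.1 ∈ (U.filter fun x => G x w).powersetCard N ∧ IsCl (fun a b => f a b w) o.2 o.1 := by
      intro w
      by_cases hw : w ∈ Wc
      · obtain ⟨o, ho⟩ := (Finset.mem_filter.mp hw).2
        exact ⟨o, fun _ => ho⟩
      · exact ⟨(∅, true), fun h => absurd h hw⟩
    choose o ho using hex
    obtain ⟨⟨A, c⟩, hAc, hpop⟩ := pigeon_Block2 Wc
      ((U.powersetCard N) ×ˢ (Finset.univ : Finset Bool)) o (by
        intro w hw
        obtain ⟨h1, -⟩ := ho w hw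
        rw [Finset.mem_powersetCard] at h1
        exact Finset.mem_product.mpr ⟨Finset.mem_powersetCard.mpr
          ⟨h1.1.trans (Finset.filter_subset _ _), h1.2⟩, Finset.mem_univ _⟩) (by omega)
    obtain ⟨hAU, hAN⟩ := Finset.mem_powersetCard.mp (Finset.mem_product.mp hAc).1
    have hval : ∀ w ∈ Wc.filter (fun w => o w = (A, c)),
        A ⊆ (U.filter fun x => G x w) ∧ IsCl (fun a b => f a b w) c A := by
      intro w hw
      obtain ⟨h1, h2⟩ := Finset.mem_filter.mp hw
      have h3 := ho w h1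
      rw [h2] at h3
      exact ⟨(Finset.mem_powersetCard.mp h3.1).1, h3.2⟩
    refine ⟨A, Wc.filter fun w => o w = (A, c), c, hAU.trans hU, ?_, hAN, ?_, ?_, ?_⟩
    · exact (Finset.filter_subset _ _).trans
        ((Finset.filter_subset _ _).trans (Finset.filter_subset _ _))
    · have h1 : ((U.powersetCard N) ×ˢ (Finset.univ : Finset Bool)).card ≤
          2 ^ (N * eU p t ℓ + 1) := by
        rw [Finset.card_product, Finset.card_powersetCard, Finset.card_univ, Fintype.card_bool,
          hUc, pow_succ]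
        refine Nat.mul_le_mul_right _ ?_
        refine (Nat.choose_le_pow _ _).trans (le_of_eq ?_)
        rw [← pow_mul, Nat.mul_comm]
      calc W.card ≤ 2 ^ (p + 2) * W1.card := hW1c
        _ ≤ 2 ^ (p + 2) * (2 * Wc.card) := Nat.mul_le_mul_left _ hcase
        _ ≤ 2 ^ (p + 2) * (2 * (2 ^ (N * eU p t ℓ + 1) *
              (Wc.filter fun w => o w = (A, c)).card)) := by
            refine Nat.mul_le_mul_left _ (Nat.mul_le_mul_left _ (hpop.trans ?_))
            exact Nat.mul_le_mul_right _ h1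
        _ = _ := by
            rw [show p + 4 + N * eU p t ℓ = (p + 2) + 1 + (N * eU p t ℓ + 1) by ring,
              pow_add 2 (p + 2 + 1), pow_succ 2 (p + 2)]
            ring
    · intro a ha w hw
      exact (Finset.mem_filter.mp ((hval w hw).1 ha)).2
    · intro a ha a' ha' hne w hw
      exact (hval w hw).2 a ha a' ha' hne
  · right
    have hcase' : W1.card ≤ 2 * Wg.card := by omega
    have hWgpos : 0 < Wg.card := by omega
    obtain ⟨w0, hw0⟩ := Finset.card_pos.mp hWgpos
    obtain ⟨x0, -⟩ := (Finset.mem_filter.mp hw0).2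
    have hex : ∀ w, ∃ x : Fin t × Fin t → S, w ∈ Wg →
        (∀ i, x i ∈ U.filter fun x => G x w) ∧ IsGrid (fun a b => f a b w) t x := by
      intro w
      by_cases hw : w ∈ Wg
      · obtain ⟨x, hx⟩ := (Finset.mem_filter.mp hw).2
        exact ⟨x, fun _ => hx⟩
      · exact ⟨x0, fun h => absurd h hw⟩
    choose o ho using hex
    obtain ⟨x, hx, hpop⟩ := pigeon_Block2 Wg
      (Fintype.piFinset fun _ : Fin t × Fin t => U) o (by
        intro w hw
        rw [Fintype.mem_piFinset]
        exact fun i => (Finset.mem_filter.mp ((ho w hw).1 i)).1) hWgpos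
    rw [Fintype.mem_piFinset] at hx
    have hval : ∀ w ∈ Wg.filter (fun w => o w = x),
        (∀ i, x i ∈ U.filter fun x => G x w) ∧ IsGrid (fun a b => f a b w) t x := by
      intro w hw
      obtain ⟨h1, h2⟩ := Finset.mem_filter.mp hw
      have h3 := ho w h1
      rw [h2] at h3
      exact h3
    refine ⟨x, Wg.filter fun w => o w = x, fun i => hU (hx i), ?_, ?_, ?_, ?_⟩
    · exact (Finset.filter_subset _ _).trans
        ((Finset.filter_subset _ _).trans (Finset.filter_subset _ _))
    · have h1 : (Fintype.piFinset fun _ : Fin t × Fin t => U).card = 2 ^ (t * t * eU p t ℓ) := by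
        rw [Fintype.card_piFinset, Finset.prod_const, Finset.card_univ, Fintype.card_prod,
          Fintype.card_fin, hUc, ← pow_mul, Nat.mul_comm]
      rw [h1] at hpop
      calc W.card ≤ 2 ^ (p + 2) * W1.card := hW1c
        _ ≤ 2 ^ (p + 2) * (2 * Wg.card) := Nat.mul_le_mul_left _ hcase'
        _ ≤ 2 ^ (p + 2) * (2 * (2 ^ (t * t * eU p t ℓ) *
              (Wg.filter fun w => o w = x).card)) :=
            Nat.mul_le_mul_left _ (Nat.mul_le_mul_left _ hpop)
        _ = 2 ^ (p + 3 + t * t * eU p t ℓ) * (Wg.filter fun w => o w = x).card := by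
            rw [show p + 3 + t * t * eU p t ℓ = (p + 2) + 1 + t * t * eU p t ℓ by ring,
              pow_add 2 (p + 2 + 1), pow_succ 2 (p + 2)]
            ring
        _ ≤ _ := Nat.mul_le_mul_right _ (Nat.pow_le_pow_right (by norm_num) (by omega))
    · intro i w hw
      exact (Finset.mem_filter.mp ((hval w hw).1 i)).2
    · intro w hw
      exact (hval w hw).2

end Pool.Agent.FanCross
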