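import Pool.Agent.FanCross.Kst

/-!
# Greedy embedding

`g` is a symmetric 2-colouring of the pairs of `S`, `κ i j` prescribes the colour of the pair of the
positions `i, j` (or nothing). `embed`: if the candidate set of the position `j` has at least
`θ q ^ r` elements, `r` the number of prescribed pairs at `j`, then the points can be chosen, or
there are large sets `P`, `Q` in two candidate sets such that one colour is rare between them.

PROOF. Induction on the set `J` of positions, `J = insert i J'`. For `j` in `J'`
with `κ i j = some c` let `Bad j` be the set of the `x ∈ C i` with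
`q * |{y ∈ C j : g x y = c}| < |C j|`. If `|C i| ≤ (Δ + 1) |Bad j|` for one `j`, then `P = Bad j`,
`Q = C j` is the second alternative. Otherwise the union of the at most `Δ` sets `Bad j` is not
`C i`; take `x₀ ∈ C i` outside, `C' j = {y ∈ C j : g x₀ y = c}` if `κ i j = some c` and `C' j = C j`
if `κ i j = none`, and use the induction hypothesis for `J'` and `C'`.
-/

set_option autoImplicit false
set_option linter.unusedSectionVars false

namespace Pool.Agent.FanCross

variable {S : Type*} [DecidableEq S]

theorem embed {ι : Type*} [DecidableEq ι] [Nonempty S] (g : S → S → Bool)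
    (hg : ∀ x y, g x y = g y x)
    (κ : ι → ι → Option Bool) (hκ : ∀ i j, κ i j = κ j i) (hκ0 : ∀ i, κ i i = none)
    (Δ q θ : ℕ) (hq : 1 ≤ q) (hθ : 1 ≤ θ) :
    ∀ (J : Finset ι) (C : ι → Finset S), (∀ j, (J.filter fun i => κ i j ≠ none).card ≤ Δ) →
      (∀ j ∈ J, θ * q ^ (J.filter fun i => κ i j ≠ none).card ≤ (C j).card) →
      (∃ x : ι → S, (∀ j ∈ J, x j ∈ C j) ∧
        ∀ i ∈ J, ∀ j ∈ J, ∀ c, κ i j = some c → g (x i) (x j) = c) ∨
      ∃ (i j : ι) (c : Bool) (P Q : Finset S), i ∈ J ∧ j ∈ J ∧ i ≠ j ∧ P ⊆ C i ∧ Q ⊆ C j ∧
        θ ≤ (Δ + 1) * P.card ∧ θ ≤ Q.card ∧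
        ∀ p ∈ P, q * (Q.filter fun y => g p y = c).card < Q.card := by
  classical
  intro J
  induction J using Finset.induction_on with
  | empty =>
    intro C _ _
    exact Or.inl ⟨fun _ => Classical.arbitrary S, by simp, by simp⟩
  | insert i J' hi ih =>
    intro C hΔ hC
    have hθC : ∀ j ∈ insert i J', θ ≤ (C j).card := fun j hj =>
      le_trans (Nat.le_mul_of_pos_right _ (Nat.pow_pos hq)) (hC j hj)
    by_cases hbig : ∃ j ∈ J', ∃ c, κ i j = some c ∧ (C i).card ≤ (Δ + 1) *
        ((C i).filter fun x => q * ((C j).filter fun y => g x y = c).card < (C j).card).card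
    · obtain ⟨j, hj, c, hc, hcard⟩ := hbig
      refine Or.inr ⟨i, j, c, _, C j, Finset.mem_insert_self _ _, Finset.mem_insert_of_mem hj, ?_,
        Finset.filter_subset _ _, Finset.Subset.refl _,
        le_trans (hθC i (Finset.mem_insert_self _ _)) hcard,
        hθC j (Finset.mem_insert_of_mem hj), fun p hp => (Finset.mem_filter.1 hp).2⟩
      rintro rfl
      exact hi hj
    · push Not at hbig
      obtain ⟨x₀, hx₀, hx₀'⟩ : ∃ x₀ ∈ C i, ∀ j ∈ J', ∀ c, κ i j = some c →
          (C j).card ≤ q * ((C j).filter fun y => g x₀ y = c).card := by
        by_contra hcon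
        push Not at hcon
        obtain ⟨F, hF⟩ : ∃ F, F = J'.filter fun j => κ i j ≠ none := ⟨_, rfl⟩
        obtain ⟨B, hB⟩ : ∃ B : ι → Finset S, ∀ j, B j = (C i).filter fun x =>
            ∃ c, κ i j = some c ∧ q * ((C j).filter fun y => g x y = c).card < (C j).card :=
          ⟨_, fun _ => rfl⟩
        have hcov : C i ⊆ F.biUnion B := by
          intro x hx
          obtain ⟨j, hj, c, hc, h⟩ := hcon x hx
          rw [Finset.mem_biUnion]
          refine ⟨j, ?_, ?_⟩
          · rw [hF, Finset.mem_filter, hc]
            exact ⟨hj, Option.some_ne_none _⟩
          · rw [hB, Finset.mem_filter]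
            exact ⟨hx, c, hc, h⟩
        have h1 := (Finset.card_le_card hcov).trans Finset.card_biUnion_le
        have h2 : ∀ j ∈ F, (Δ + 1) * (B j).card ≤ (C i).card := by
          intro j hj
          rw [hF, Finset.mem_filter] at hj
          obtain ⟨c, hc⟩ := Option.ne_none_iff_exists'.1 hj.2
          have h3 := hbig j hj.1 c hc
          have h4 : B j = (C i).filter fun x =>
              q * ((C j).filter fun y => g x y = c).card < (C j).card := by
            rw [hB]
            refine Finset.filter_congr fun x _ => ?_
            constructor
            · rintro ⟨c', hc', h⟩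
              rw [hc] at hc'
              rwa [Option.some.inj hc']
            · exact fun h => ⟨c, hc, h⟩
          rw [h4]
          exact h3.le
        have h3 : F.card ≤ Δ := by
          refine (Finset.card_le_card ?_).trans (hΔ i)
          intro j hj
          rw [hF, Finset.mem_filter] at hj
          rw [Finset.mem_filter, hκ j i]
          exact ⟨Finset.mem_insert_of_mem hj.1, hj.2⟩
        have h4 : (Δ + 1) * (C i).card ≤ Δ * (C i).card := by
          calc (Δ + 1) * (C i).card ≤ (Δ + 1) * ∑ j ∈ F, (B j).card :=
                Nat.mul_le_mul_left _ h1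
            _ = ∑ j ∈ F, (Δ + 1) * (B j).card := Finset.mul_sum _ _ _
            _ ≤ ∑ _j ∈ F, (C i).card := Finset.sum_le_sum h2
            _ = F.card * (C i).card := by rw [Finset.sum_const, smul_eq_mul]
            _ ≤ Δ * (C i).card := Nat.mul_le_mul_right _ h3
        have h5 := hθC i (Finset.mem_insert_self _ _)
        rw [Nat.add_mul, Nat.one_mul] at h4
        omega
      obtain ⟨C', hC'⟩ : ∃ C' : ι → Finset S, ∀ j, C' j = (C j).filter fun y =>
          ∀ c, κ i j = some c → g x₀ y = c := ⟨_, fun _ => rfl⟩
      have hsub : ∀ j, C' j ⊆ C j := by
        intro j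
        rw [hC']
        exact Finset.filter_subset _ _
      have hfsub : ∀ j, (J'.filter fun i' => κ i' j ≠ none) ⊆
          (insert i J').filter fun i' => κ i' j ≠ none := fun j =>
        Finset.filter_subset_filter _ (Finset.subset_insert _ _)
      rcases ih C' (fun j => (Finset.card_le_card (hfsub j)).trans (hΔ j)) (by
        intro j hj
        have h1 := hC j (Finset.mem_insert_of_mem hj)
        rcases hκj : κ i j with _ | c
        · have h2 : C' j = C j := by
            rw [hC', Finset.filter_true_of_mem]
            intro y _ c hc
            rw [hκj] at hc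
            exact absurd hc (by simp)
          rw [h2]
          refine le_trans (Nat.mul_le_mul_left _ (Nat.pow_le_pow_right hq ?_)) h1
          exact Finset.card_le_card (hfsub j)
        · have h2 : C' j = (C j).filter fun y => g x₀ y = c := by
            rw [hC']
            refine Finset.filter_congr fun y _ => ?_
            constructor
            · exact fun h => h c hκj
            · intro h c' hc'
              rw [hκj] at hc'
              rw [h]
              exact Option.some.inj hc'
          have h3 := hx₀' j hj c hκj
          rw [← h2] at h3
          have h4 : (insert i J').filter (fun i' => κ i' j ≠ none) =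
              insert i (J'.filter fun i' => κ i' j ≠ none) := by
            rw [Finset.filter_insert, if_pos]
            rw [hκj]
            exact Option.some_ne_none _
          rw [h4, Finset.card_insert_of_notMem, pow_succ] at h1
          · have h5 : q * (θ * q ^ (J'.filter fun i' => κ i' j ≠ none).card) ≤
                q * (C' j).card := by
              refine le_trans (le_of_eq ?_) (h1.trans h3)
              ring
            exact Nat.le_of_mul_le_mul_left h5 hq
          · intro h
            exact hi (Finset.mem_filter.1 h).1) with
          ⟨x, hx1, hx2⟩ | ⟨i', j', c, P, Q, h1, h2, h3, h4,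
              h5, h6, h7, h8⟩
      · left
        have hne : ∀ j ∈ J', j ≠ i := by
          rintro j hj rfl
          exact hi hj
        have hcol : ∀ j ∈ J', ∀ c, κ i j = some c → g x₀ (x j) = c := by
          intro j hj c hc
          have h := hx1 j hj
          rw [hC', Finset.mem_filter] at h
          exact h.2 c hc
        refine ⟨Function.update x i x₀, ?_, ?_⟩
        · intro j hj
          rcases Finset.mem_insert.1 hj with rfl | hj
          · rw [Function.update_self]
            exact hx₀
          · rw [Function.update_of_ne (hne j hj)]
            exact hsub j (hx1 j hj)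
        · intro a ha b hb c hc
          rcases Finset.mem_insert.1 ha with ha' | ha'
          · rcases Finset.mem_insert.1 hb with hb' | hb'
            · rw [ha', hb', hκ0] at hc
              exact absurd hc (by simp)
            · rw [ha'] at hc ⊢
              rw [Function.update_self, Function.update_of_ne (hne b hb')]
              exact hcol b hb' c hc
          · rcases Finset.mem_insert.1 hb with hb' | hb'
            · rw [hb'] at hc ⊢
              rw [Function.update_self, Function.update_of_ne (hne a ha'), hg]
              exact hcol a ha' c (by rw [hκ]; exact hc)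
            · rw [Function.update_of_ne (hne a ha'), Function.update_of_ne (hne b hb')]
              exact hx2 a ha' b hb' c hc
      · exact Or.inr ⟨i', j', c, P, Q, Finset.mem_insert_of_mem h1, Finset.mem_insert_of_mem h2, h3,
          h4.trans (hsub _), h5.trans (hsub _), h6, h7, h8⟩

end Pool.Agent.FanCross
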