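import Pool.Agent.FanCross.Trials

/-!
# The exponents

`Th d m k u s`: the logarithm of the loss in the remaining part of the proof, if `2 d - 1 - s`
blocks have been found. `expo`: for fixed `d ≥ 2` it is `O ((m ^ (d - 2) * (m ^ 2 + k)) ^ 2)`.
-/

set_option autoImplicit false

namespace Pool.Agent.FanCross

/-- Size of a block before the trials. -/
def K0 (d m k u : ℕ) : ℕ := (m * 2 ^ (u + 1) + 2 * k) * (2 ^ (u + 1)) ^ (d - 2)

/-- Logarithm of the density of the graph of the good pairs. -/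
def PP (d m k u : ℕ) : ℕ := 1 + (2 * d - 1) * K0 d m k u

/-- Cost of a new block. -/
def c1 (d m k u : ℕ) : ℕ :=
  PP d m k u + 1 + 2 * K0 d m k u * (PP d m k u + 1 + 2 * K0 d m k u)

/-- Cost of the remaining part of the proof. -/
def Th (d m k u : ℕ) : ℕ → ℕ
  | 0 => m * (3 * PP d m k u + 7)
  | s + 1 => c1 d m k u + (d - 1) * (Th d m k u s + cost u k (K0 d m k u))

/-- The scale. -/
def XX (d m k : ℕ) : ℕ := m ^ (d - 2) * (m ^ 2 + k)

/-- `g m k = O (XX d m k ^ e)`. -/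
private def ExpoPB (d e : ℕ) (g : ℕ → ℕ → ℕ) : Prop :=
  ∃ C, ∀ m k, 1 ≤ m → 1 ≤ k → g m k ≤ C * XX d m k ^ e

private theorem expo_le_XX {d m k : ℕ} (hm : 1 ≤ m) : m ^ 2 + k ≤ XX d m k :=
  Nat.le_mul_of_pos_left _ (Nat.pow_pos hm)

private theorem expo_pos {d m k : ℕ} (hm : 1 ≤ m) : 1 ≤ XX d m k := by
  have h1 := expo_le_XX (d := d) (k := k) hm
  have h2 : 1 ≤ m ^ 2 := Nat.one_le_pow _ _ hm
  omega

private theorem expo_mono {d e e' : ℕ} (h : e ≤ e') {g : ℕ → ℕ → ℕ} (hg : ExpoPB d e g) :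
    ExpoPB d e' g := by
  obtain ⟨C, hC⟩ := hg
  exact ⟨C, fun m k hm hk => (hC m k hm hk).trans
    (Nat.mul_le_mul_left _ (Nat.pow_le_pow_right (expo_pos hm) h))⟩

private theorem expo_const (d e c : ℕ) : ExpoPB d e fun _ _ => c :=
  ⟨c, fun _ _ hm _ => Nat.le_mul_of_pos_right _ (Nat.pow_pos (expo_pos hm))⟩

private theorem expo_add {d e : ℕ} {g h : ℕ → ℕ → ℕ} (hg : ExpoPB d e g) (hh : ExpoPB d e h) :
    ExpoPB d e fun m k => g m k + h m k := by
  obtain ⟨C, hC⟩ := hg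
  obtain ⟨C', hC'⟩ := hh
  refine ⟨C + C', fun m k hm hk => ?_⟩
  rw [add_mul]
  exact add_le_add (hC m k hm hk) (hC' m k hm hk)

private theorem expo_mul {d e e' : ℕ} {g h : ℕ → ℕ → ℕ} (hg : ExpoPB d e g)
    (hh : ExpoPB d e' h) : ExpoPB d (e + e') fun m k => g m k * h m k := by
  obtain ⟨C, hC⟩ := hg
  obtain ⟨C', hC'⟩ := hh
  refine ⟨C * C', fun m k hm hk => ?_⟩
  calc g m k * h m k ≤ (C * XX d m k ^ e) * (C' * XX d m k ^ e') :=
        Nat.mul_le_mul (hC m k hm hk) (hC' m k hm hk)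
    _ = _ := by ring

private theorem expo_smul {d e : ℕ} (c : ℕ) {g : ℕ → ℕ → ℕ} (hg : ExpoPB d e g) :
    ExpoPB d e fun m k => c * g m k := by
  have h := expo_mul (expo_const d 0 c) hg
  rw [Nat.zero_add] at h
  exact h

private theorem expo_m (d : ℕ) : ExpoPB d 1 fun m _ => m :=
  ⟨1, fun m k hm _ => by
    have h1 := expo_le_XX (d := d) (k := k) hm
    have h2 : m ≤ m ^ 2 := Nat.le_self_pow (by norm_num) m
    change m ≤ 1 * XX d m k ^ 1
    rw [pow_one, one_mul]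
    omega⟩

private theorem expo_k (d : ℕ) : ExpoPB d 1 fun _ k => k :=
  ⟨1, fun m k hm _ => by
    have h1 := expo_le_XX (d := d) (k := k) hm
    change k ≤ 1 * XX d m k ^ 1
    rw [pow_one, one_mul]
    omega⟩

/-- The exponent `u`. -/
private def expoU (d m : ℕ) : ℕ := Nat.clog 2 (16 * d * (2 * d + m))

private theorem expo_le (d m : ℕ) : 16 * d * (2 * d + m) ≤ 2 ^ expoU d m :=
  Nat.le_pow_clog (by norm_num) _

private theorem expo_pu (d : ℕ) (hd : 2 ≤ d) : ∃ C, ∀ m, 1 ≤ m → 2 ^ (expoU d m + 1) ≤ C * m := by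
  refine ⟨2 * (2 * (16 * d * (2 * d + 1))), fun m hm => ?_⟩
  have h1 : 1 < 16 * d * (2 * d + m) := by nlinarith
  have h2 := Nat.pow_pred_clog_lt_self (b := 2) (by norm_num) h1
  have h3 : 0 < Nat.clog 2 (16 * d * (2 * d + m)) := Nat.clog_pos (by norm_num) h1
  have h4 : 2 ^ expoU d m = 2 * 2 ^ (Nat.clog 2 (16 * d * (2 * d + m))).pred := by
    unfold expoU
    rw [← pow_succ']
    congr 1
    exact (Nat.succ_pred_eq_of_pos h3).symm
  have h5 : 2 * d + m ≤ (2 * d + 1) * m := by nlinarith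
  calc 2 ^ (expoU d m + 1) = 2 * 2 ^ expoU d m := pow_succ' _ _
    _ = 2 * (2 * 2 ^ (Nat.clog 2 (16 * d * (2 * d + m))).pred) := by rw [h4]
    _ ≤ 2 * (2 * (16 * d * (2 * d + m))) := by gcongr
    _ ≤ 2 * (2 * (16 * d * ((2 * d + 1) * m))) := by gcongr
    _ = _ := by ring

private theorem expo_u (d : ℕ) (hd : 2 ≤ d) : ExpoPB d 1 fun m _ => expoU d m := by
  obtain ⟨C, hC⟩ := expo_pu d hd
  obtain ⟨C', hC'⟩ := expo_m d
  refine ⟨C * C', fun m k hm hk => ?_⟩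
  have h1 : expoU d m ≤ C * m := by
    have h2 := hC m hm
    have h3 : expoU d m + 1 < 2 ^ (expoU d m + 1) := Nat.lt_two_pow_self
    omega
  exact h1.trans ((Nat.mul_le_mul_left _ (hC' m k hm hk)).trans (le_of_eq (by ring)))

private theorem expo_K0 (d : ℕ) (hd : 2 ≤ d) : ExpoPB d 1 fun m k => K0 d m k (expoU d m) := by
  obtain ⟨C, hC⟩ := expo_pu d hd
  refine ⟨(C + 2) * C ^ (d - 2), fun m k hm hk => ?_⟩
  have h1 := hC m hm
  calc K0 d m k (expoU d m)
      = (m * 2 ^ (expoU d m + 1) + 2 * k) * (2 ^ (expoU d m + 1)) ^ (d - 2) := rfl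
    _ ≤ (m * (C * m) + 2 * k) * (C * m) ^ (d - 2) := by gcongr
    _ ≤ ((C + 2) * (m ^ 2 + k)) * (C * m) ^ (d - 2) := by
        refine Nat.mul_le_mul_right _ ?_
        have h2 : (C + 2) * (m ^ 2 + k) = m * (C * m) + 2 * k + (2 * m ^ 2 + C * k) := by ring
        omega
    _ = _ := by
        rw [pow_one, XX, mul_pow]
        ring

private theorem expo_PP (d : ℕ) (hd : 2 ≤ d) : ExpoPB d 1 fun m k => PP d m k (expoU d m) :=
  expo_add (expo_const d 1 1) (expo_smul (2 * d - 1) (expo_K0 d hd))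

private theorem expo_c1 (d : ℕ) (hd : 2 ≤ d) : ExpoPB d 2 fun m k => c1 d m k (expoU d m) := by
  have h1 := expo_smul 2 (expo_K0 d hd)
  have h2 : ExpoPB d 1 fun m k => PP d m k (expoU d m) + 1 :=
    expo_add (expo_PP d hd) (expo_const d 1 1)
  exact expo_add (expo_mono (by norm_num) h2) (expo_mul h1 (expo_add h2 h1))

private theorem expo_cost (d : ℕ) (hd : 2 ≤ d) :
    ExpoPB d 2 fun m k => cost (expoU d m) k (K0 d m k (expoU d m)) := by
  have h1 : ExpoPB d 1 fun m k => expoU d m + 2 + K0 d m k (expoU d m) :=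
    expo_add (expo_add (expo_u d hd) (expo_const d 1 2)) (expo_K0 d hd)
  have h2 := expo_smul 2 (expo_k d)
  exact expo_add (expo_mono (by norm_num) h1) (expo_mul h2 (expo_add h1 h2))

private theorem expo_Th (d : ℕ) (hd : 2 ≤ d) (s : ℕ) :
    ExpoPB d 2 fun m k => Th d m k (expoU d m) s := by
  induction s with
  | zero =>
    exact expo_mul (expo_m d) (expo_add (expo_smul 3 (expo_PP d hd)) (expo_const d 1 7))
  | succ s ih =>
    exact expo_add (expo_c1 d hd) (expo_smul (d - 1) (expo_add ih (expo_cost d hd)))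

/-- The bound for the exponent. -/
theorem expo (d : ℕ) (hd : 2 ≤ d) : ∃ C, ∀ m k, 1 ≤ m → 1 ≤ k →
    ∃ u, 16 * d * (2 * d + m) ≤ 2 ^ u ∧
      Th d m k u (2 * d - 1) + k ≤ C * (m ^ (d - 2) * (m ^ 2 + k)) ^ 2 := by
  obtain ⟨C, hC⟩ := expo_add (expo_Th d hd (2 * d - 1)) (expo_mono (by norm_num) (expo_k d))
  exact ⟨C, fun m k hm hk => ⟨expoU d m, expo_le d m, hC m k hm hk⟩⟩

end Pool.Agent.FanCross
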