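import Pool.Agent.FanCross.Main2

/-!
# The exponents, the sharper form

`expo2`: for fixed `d ≥ 2` there are parameters as in `fan_exists2` with an exponent which is
`O (X0 * X1 * ℓ ^ 2)`, `ℓ = log (m * k) + 1`; `X0 = m ^ (d - 2) * (m ^ 2 + k)` is the size of the
blocks, `X1` the size of the sets kept in a trial, `X1 = m` if `d = 2` and
`X1 = m ^ (d - 3) * (m ^ 2 + k)` if `d ≥ 3`.
-/

set_option autoImplicit false

namespace Pool.Agent.FanCross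

/-- The scale of the blocks. -/
def X0 (d m k : ℕ) : ℕ := m ^ (d - 2) * (m ^ 2 + k)

/-- The scale of the sets which are kept in a trial. -/
def X1 (d m k : ℕ) : ℕ := if d = 2 then m else m ^ (d - 3) * (m ^ 2 + k)

/-- The logarithm. -/
def LL (m k : ℕ) : ℕ := Nat.log 2 (m * k) + 1

/-- `g m k = O (X0 ^ a * X1 ^ b * LL ^ c)`. -/
private def EB (d a b c : ℕ) (g : ℕ → ℕ → ℕ) : Prop :=
  ∃ C, ∀ m k, 1 ≤ m → 1 ≤ k → g m k ≤ C * (X0 d m k ^ a * X1 d m k ^ b * LL m k ^ c)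

private theorem m_le_E2 {d m k : ℕ} (hm : 1 ≤ m) : m ≤ X1 d m k := by
  unfold X1
  by_cases hd : d = 2
  · rw [if_pos hd]
  · rw [if_neg hd]
    have h1 : 1 ≤ m ^ (d - 3) := Nat.one_le_pow _ _ hm
    nlinarith [Nat.zero_le (m ^ (d - 3) * k), Nat.mul_le_mul_right (m ^ 2) h1]

private theorem mX_le_E2 {d m k : ℕ} (hd : 2 ≤ d) : m * X1 d m k ≤ X0 d m k := by
  unfold X1 X0
  by_cases hd2 : d = 2
  · rw [if_pos hd2, hd2]
    simp only [Nat.sub_self, pow_zero, one_mul]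
    nlinarith
  · rw [if_neg hd2, ← mul_assoc, ← pow_succ', show d - 3 + 1 = d - 2 by omega]

private theorem X1_pos_E2 {d m k : ℕ} (hm : 1 ≤ m) : 1 ≤ X1 d m k := hm.trans (m_le_E2 hm)

private theorem X_le_E2 {d m k : ℕ} (hd : 2 ≤ d) (hm : 1 ≤ m) : X1 d m k ≤ X0 d m k :=
  (Nat.le_mul_of_pos_left _ hm).trans (mX_le_E2 hd)

private theorem X0_pos_E2 {d m k : ℕ} (hm : 1 ≤ m) : 1 ≤ X0 d m k := by
  unfold X0
  exact Nat.mul_pos (Nat.pow_pos hm) (Nat.add_pos_left (Nat.pow_pos hm) _)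

private theorem k_le_E2 {d m k : ℕ} (hm : 1 ≤ m) : k ≤ X0 d m k := by
  unfold X0
  exact (Nat.le_add_left k (m ^ 2)).trans (Nat.le_mul_of_pos_left _ (Nat.pow_pos hm))

private theorem LL_pos_E2 (m k : ℕ) : 1 ≤ LL m k := Nat.le_add_left _ _

private theorem mul_le_E2 (m k : ℕ) : m * k ≤ 2 ^ LL m k :=
  (Nat.lt_pow_succ_log_self (by norm_num) _).le

private theorem mono_E2 {d a b c a' b' c' : ℕ} (ha : a ≤ a') (hb : b ≤ b') (hc : c ≤ c')
    {g : ℕ → ℕ → ℕ} (hg : EB d a b c g) : EB d a' b' c' g := by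
  obtain ⟨C, hC⟩ := hg
  refine ⟨C, fun m k hm hk => (hC m k hm hk).trans (Nat.mul_le_mul_left _ ?_)⟩
  exact Nat.mul_le_mul (Nat.mul_le_mul (Nat.pow_le_pow_right (X0_pos_E2 hm) ha)
    (Nat.pow_le_pow_right (X1_pos_E2 hm) hb)) (Nat.pow_le_pow_right (LL_pos_E2 m k) hc)

private theorem shift_E2 {d a b c : ℕ} (hd : 2 ≤ d) {g : ℕ → ℕ → ℕ}
    (hg : EB d a (b + 1) c g) : EB d (a + 1) b c g := by
  obtain ⟨C, hC⟩ := hg
  refine ⟨C, fun m k hm hk => (hC m k hm hk).trans (Nat.mul_le_mul_left _ ?_)⟩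
  have h1 := X_le_E2 (d := d) (k := k) hd hm
  calc X0 d m k ^ a * X1 d m k ^ (b + 1) * LL m k ^ c
      = X0 d m k ^ a * X1 d m k * X1 d m k ^ b * LL m k ^ c := by ring
    _ ≤ X0 d m k ^ a * X0 d m k * X1 d m k ^ b * LL m k ^ c := by gcongr
    _ = _ := by ring

private theorem const_E2 (d c : ℕ) : EB d 0 0 0 fun _ _ => c :=
  ⟨c, fun _ _ _ _ => by simp⟩

private theorem add_E2 {d a b c : ℕ} {g h : ℕ → ℕ → ℕ} (hg : EB d a b c g) (hh : EB d a b c h) :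
    EB d a b c fun m k => g m k + h m k := by
  obtain ⟨C, hC⟩ := hg
  obtain ⟨C', hC'⟩ := hh
  refine ⟨C + C', fun m k hm hk => ?_⟩
  rw [add_mul]
  exact add_le_add (hC m k hm hk) (hC' m k hm hk)

private theorem mul_E2 {d a b c a' b' c' : ℕ} {g h : ℕ → ℕ → ℕ} (hg : EB d a b c g)
    (hh : EB d a' b' c' h) : EB d (a + a') (b + b') (c + c') fun m k => g m k * h m k := by
  obtain ⟨C, hC⟩ := hg
  obtain ⟨C', hC'⟩ := hh
  refine ⟨C * C', fun m k hm hk => ?_⟩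
  calc g m k * h m k ≤ (C * (X0 d m k ^ a * X1 d m k ^ b * LL m k ^ c)) *
        (C' * (X0 d m k ^ a' * X1 d m k ^ b' * LL m k ^ c')) :=
        Nat.mul_le_mul (hC m k hm hk) (hC' m k hm hk)
    _ = _ := by ring

private theorem addc_E2 {d a b c : ℕ} {g : ℕ → ℕ → ℕ} (hg : EB d a b c g) (e : ℕ) :
    EB d a b c fun m k => g m k + e :=
  add_E2 hg (mono_E2 (Nat.zero_le _) (Nat.zero_le _) (Nat.zero_le _) (const_E2 d e))

private theorem smul_E2 {d a b c : ℕ} (e : ℕ) {g : ℕ → ℕ → ℕ} (hg : EB d a b c g) :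
    EB d a b c fun m k => e * g m k := by
  have h := mul_E2 (const_E2 d e) hg
  rw [Nat.zero_add, Nat.zero_add, Nat.zero_add] at h
  exact h

private theorem m_E2 (d : ℕ) : EB d 0 1 0 fun m _ => m :=
  ⟨1, fun m k hm _ => by
    change m ≤ 1 * (X0 d m k ^ 0 * X1 d m k ^ 1 * LL m k ^ 0)
    rw [pow_zero, pow_one, pow_zero, one_mul, one_mul, mul_one]
    exact m_le_E2 hm⟩

private theorem mm_E2 (d : ℕ) (hd : 2 ≤ d) : EB d 1 0 0 fun m _ => m * m :=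
  ⟨1, fun m k hm _ => by
    change m * m ≤ 1 * (X0 d m k ^ 1 * X1 d m k ^ 0 * LL m k ^ 0)
    rw [pow_zero, pow_one, pow_zero, mul_one, mul_one, one_mul]
    exact (Nat.mul_le_mul_left _ (m_le_E2 hm)).trans (mX_le_E2 hd)⟩

private theorem mX_E2 (d : ℕ) (hd : 2 ≤ d) : EB d 1 0 0 fun m k => m * X1 d m k :=
  ⟨1, fun m k _ _ => by
    change m * X1 d m k ≤ 1 * (X0 d m k ^ 1 * X1 d m k ^ 0 * LL m k ^ 0)
    rw [pow_zero, pow_one, pow_zero, mul_one, mul_one, one_mul]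
    exact mX_le_E2 hd⟩

private theorem k_E2 (d : ℕ) : EB d 1 0 0 fun _ k => k :=
  ⟨1, fun m k hm _ => by
    change k ≤ 1 * (X0 d m k ^ 1 * X1 d m k ^ 0 * LL m k ^ 0)
    rw [pow_zero, pow_one, pow_zero, mul_one, mul_one, one_mul]
    exact k_le_E2 hm⟩

private theorem L_E2 (d : ℕ) : EB d 0 0 1 fun m k => LL m k :=
  ⟨1, fun m k _ _ => by simp⟩

private theorem mm3_E2 (d : ℕ) (hd : 3 ≤ d) : EB d 0 1 0 fun m _ => m * m :=
  ⟨1, fun m k hm _ => by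
    change m * m ≤ 1 * (X0 d m k ^ 0 * X1 d m k ^ 1 * LL m k ^ 0)
    rw [pow_zero, pow_one, pow_zero, one_mul, one_mul, mul_one, X1, if_neg (by omega)]
    have h1 : 1 ≤ m ^ (d - 3) := Nat.one_le_pow _ _ hm
    nlinarith [Nat.zero_le (m ^ (d - 3) * k), Nat.mul_le_mul_right (m ^ 2) h1]⟩

private theorem clog_E2 (e : ℕ) (he : 1 < e) : 2 ^ (Nat.clog 2 e + 1) ≤ 4 * e := by
  have h2 := Nat.pow_pred_clog_lt_self (b := 2) (by norm_num) he
  have h3 : 0 < Nat.clog 2 e := Nat.clog_pos (by norm_num) he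
  have h4 : 2 ^ Nat.clog 2 e = 2 * 2 ^ (Nat.clog 2 e).pred := by
    rw [← pow_succ']
    congr 1
    exact (Nat.succ_pred_eq_of_pos h3).symm
  calc 2 ^ (Nat.clog 2 e + 1) = 2 * 2 ^ Nat.clog 2 e := pow_succ' _ _
    _ = 2 * (2 * 2 ^ (Nat.clog 2 e).pred) := by rw [h4]
    _ ≤ 2 * (2 * e) := by gcongr
    _ = _ := by ring

/-- The exponent `u` and the size `s`. -/
private theorem params_E2 (d : ℕ) (hd : 2 ≤ d) : ∃ C, ∀ m k, 1 ≤ m → 1 ≤ k →
    ∃ u s, 16 * d * (2 * d + m) ≤ 2 ^ u ∧ (2 ^ (u + 1)) ^ (d - 2) * m ≤ s ∧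
      (2 ^ (u + 1)) ^ (d - 2) * (2 * k) ≤ 2 ^ (u + 1) * s ∧
      2 ^ (u + 1) * s ≤ C * X0 d m k ∧ s ≤ C * X1 d m k := by
  rcases Nat.lt_or_ge 2 d with hd3 | hd2
  · obtain ⟨c, hc⟩ : ∃ c, c = 64 * d * (2 * d + 1) := ⟨_, rfl⟩
    have hc1 : 1 ≤ c := by
      rw [hc]
      nlinarith
    refine ⟨c * (c ^ (d - 2) + 2 * c ^ (d - 3)), fun m k hm hk => ?_⟩
    obtain ⟨u, hu⟩ : ∃ u, u = Nat.clog 2 (16 * d * (2 * d + m)) := ⟨_, rfl⟩
    have hu1 : 16 * d * (2 * d + m) ≤ 2 ^ u := by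
      rw [hu]
      exact Nat.le_pow_clog (by norm_num) _
    have hu2 : 2 ^ (u + 1) ≤ c * m := by
      rw [hu]
      refine (clog_E2 _ (by nlinarith)).trans ?_
      have h5 : 2 * d + m ≤ (2 * d + 1) * m := by nlinarith
      calc 4 * (16 * d * (2 * d + m)) ≤ 4 * (16 * d * ((2 * d + 1) * m)) := by gcongr
        _ = _ := by rw [hc]; ring
    obtain ⟨v, hv⟩ : ∃ v, v = 2 ^ (u + 1) := ⟨_, rfl⟩
    rw [← hv] at hu2
    have hs : v ^ (d - 2) * m + v ^ (d - 3) * (2 * k) ≤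
        (c ^ (d - 2) + 2 * c ^ (d - 3)) * X1 d m k := by
      have h1 : v ^ (d - 2) * m ≤ c ^ (d - 2) * (m ^ (d - 3) * m ^ 2) := by
        calc v ^ (d - 2) * m ≤ (c * m) ^ (d - 2) * m := by gcongr
          _ = c ^ (d - 2) * (m ^ (d - 2) * m) := by rw [mul_pow]; ring
          _ = c ^ (d - 2) * (m ^ (d - 3) * m ^ 2) := by
              rw [← pow_succ, ← pow_add, show d - 2 + 1 = d - 3 + 2 by omega]
      have h2 : v ^ (d - 3) * (2 * k) ≤ 2 * c ^ (d - 3) * (m ^ (d - 3) * k) := by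
        calc v ^ (d - 3) * (2 * k) ≤ (c * m) ^ (d - 3) * (2 * k) := by gcongr
          _ = _ := by rw [mul_pow]; ring
      rw [X1, if_neg (by omega)]
      nlinarith [Nat.zero_le (c ^ (d - 2) * (m ^ (d - 3) * k)),
        Nat.zero_le (2 * c ^ (d - 3) * (m ^ (d - 3) * m ^ 2))]
    refine ⟨u, v ^ (d - 2) * m + v ^ (d - 3) * (2 * k), hu1, ?_, ?_, ?_, ?_⟩
    · rw [← hv]
      exact Nat.le_add_right _ _
    · rw [← hv]
      calc v ^ (d - 2) * (2 * k) = v * (v ^ (d - 3) * (2 * k)) := by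
            rw [show d - 2 = d - 3 + 1 by omega, pow_succ]
            ring
        _ ≤ _ := Nat.mul_le_mul_left _ (Nat.le_add_left _ _)
    · rw [← hv]
      calc v * (v ^ (d - 2) * m + v ^ (d - 3) * (2 * k))
          ≤ (c * m) * ((c ^ (d - 2) + 2 * c ^ (d - 3)) * X1 d m k) := Nat.mul_le_mul hu2 hs
        _ = c * (c ^ (d - 2) + 2 * c ^ (d - 3)) * (m * X1 d m k) := by ring
        _ ≤ _ := Nat.mul_le_mul_left _ (mX_le_E2 hd)
    · refine hs.trans (Nat.mul_le_mul_right _ ?_)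
      exact Nat.le_mul_of_pos_left _ hc1
  · have hd' : d = 2 := by omega
    subst hd'
    refine ⟨644, fun m k hm hk => ?_⟩
    obtain ⟨g, hg⟩ : ∃ g, g = k / m := ⟨_, rfl⟩
    have h3 : m * g ≤ k := by
      rw [hg]
      exact Nat.mul_div_le k m
    have h4 : k < m * (g + 1) := by
      rw [hg]
      exact Nat.lt_mul_div_succ k (show 0 < m by omega)
    obtain ⟨e, he⟩ : ∃ e, e = 16 * 2 * (2 * 2 + m) + (g + 1) := ⟨_, rfl⟩
    have h1 : e ≤ 2 ^ Nat.clog 2 e := Nat.le_pow_clog (by norm_num) _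
    have h2 := clog_E2 e (by omega)
    refine ⟨Nat.clog 2 e, m, by omega, by simp, ?_, ?_, ?_⟩
    · rw [Nat.sub_self, pow_zero, one_mul]
      calc 2 * k ≤ 2 * (m * (g + 1)) := Nat.mul_le_mul_left _ h4.le
        _ ≤ 2 * (m * 2 ^ Nat.clog 2 e) := by
            refine Nat.mul_le_mul_left _ (Nat.mul_le_mul_left _ ?_)
            omega
        _ = _ := by rw [pow_succ]; ring
    · calc 2 ^ (Nat.clog 2 e + 1) * m ≤ (4 * e) * m := Nat.mul_le_mul_right _ h2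
        _ ≤ 644 * (m ^ 2 + k) := by
            rw [he]
            nlinarith
        _ = 644 * X0 2 m k := by simp [X0]
    · rw [X1, if_pos rfl]
      omega

/-- The logarithm of the size of a block. -/
private theorem ell_E2 (d : ℕ) (hd : 2 ≤ d) (C1 : ℕ) : ∃ C0, ∀ m k, 1 ≤ m → 1 ≤ k →
    C1 * X0 d m k + 1 ≤ 2 ^ (C0 * LL m k) := by
  refine ⟨2 * (C1 + 1) + d, fun m k hm hk => ?_⟩
  have h2 : X0 d m k ≤ 2 * (m * k) ^ d := by
    have h3 : m ^ 2 + k ≤ 2 * (m ^ 2 * k) := by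
      have h4 : 1 ≤ m ^ 2 := Nat.one_le_pow _ _ hm
      nlinarith
    calc X0 d m k ≤ m ^ (d - 2) * (2 * (m ^ 2 * k)) := Nat.mul_le_mul_left _ h3
      _ = 2 * (m ^ (d - 2) * m ^ 2 * k) := by ring
      _ = 2 * (m ^ d * k) := by rw [← pow_add, show d - 2 + 2 = d by omega]
      _ ≤ 2 * (m ^ d * k ^ d) := by
          gcongr
          exact Nat.le_self_pow (by omega) k
      _ = _ := by rw [mul_pow]
  have h5 : (m * k) ^ d ≤ 2 ^ (d * LL m k) := by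
    calc (m * k) ^ d ≤ (2 ^ LL m k) ^ d := Nat.pow_le_pow_left (mul_le_E2 m k) _
      _ = _ := by rw [← pow_mul, Nat.mul_comm]
  have h6 : 1 ≤ X0 d m k := X0_pos_E2 hm
  have h7 : 2 * (C1 + 1) ≤ 2 ^ (2 * (C1 + 1) * LL m k) :=
    Nat.lt_two_pow_self.le.trans (Nat.pow_le_pow_right (by norm_num)
      (Nat.le_mul_of_pos_right _ (LL_pos_E2 m k)))
  calc C1 * X0 d m k + 1 ≤ C1 * X0 d m k + X0 d m k := Nat.add_le_add_left h6 _
    _ = (C1 + 1) * X0 d m k := by ring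
    _ ≤ (C1 + 1) * (2 * (m * k) ^ d) := Nat.mul_le_mul_left _ h2
    _ = (2 * (C1 + 1)) * (m * k) ^ d := by ring
    _ ≤ 2 ^ (2 * (C1 + 1) * LL m k) * 2 ^ (d * LL m k) := Nat.mul_le_mul h7 h5
    _ = _ := by rw [← pow_add, ← add_mul]

/-- The size of the grid. -/
private def Tf (d m : ℕ) : ℕ := m * 8 ^ (2 * d - 3)

/-- The logarithm of the size of the grid. -/
private def tf (d m k : ℕ) : ℕ := (1 + 3 * (2 * d - 3)) * LL m k

private theorem T_le_E2 (d m k : ℕ) (hk : 1 ≤ k) : Tf d m ≤ 2 ^ tf d m k := by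
  have h1 : m ≤ 2 ^ LL m k := (Nat.le_mul_of_pos_right _ hk).trans (mul_le_E2 m k)
  calc Tf d m = m * 2 ^ (3 * (2 * d - 3)) := by rw [Tf, pow_mul]; norm_num
    _ ≤ 2 ^ LL m k * 2 ^ (3 * (2 * d - 3) * LL m k) :=
        Nat.mul_le_mul h1 (Nat.pow_le_pow_right (by norm_num)
          (Nat.le_mul_of_pos_right _ (LL_pos_E2 m k)))
    _ = _ := by
        rw [← pow_add, tf]
        congr 1
        ring

private theorem T_E2 (d : ℕ) : EB d 0 1 0 fun m _ => Tf d m := by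
  obtain ⟨C, hC⟩ := smul_E2 (8 ^ (2 * d - 3)) (m_E2 d)
  exact ⟨C, fun m k hm hk => by
    have := hC m k hm hk
    beta_reduce at this ⊢
    rw [Tf, Nat.mul_comm]
    exact this⟩

private theorem TT_of_E2 {d a b c : ℕ} (h : EB d a b c fun m _ => m * m) :
    EB d a b c fun m _ => Tf d m * Tf d m := by
  obtain ⟨C, hC⟩ := smul_E2 (8 ^ (2 * d - 3) * 8 ^ (2 * d - 3)) h
  exact ⟨C, fun m k hm hk => by
    have := hC m k hm hk
    beta_reduce at this ⊢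
    rw [Tf]
    refine le_trans (le_of_eq ?_) this
    ring⟩

section

variable (d C0 : ℕ) (u s : ℕ → ℕ → ℕ)

private theorem P2_E2 (hs : EB d 0 1 0 s) : EB d 0 1 1 fun m k => P2 d (s m k) (C0 * LL m k) := by
  have h1 : EB d 0 1 1 fun m k => (C0 * LL m k) * (32 * d * s m k) :=
    mul_E2 (smul_E2 C0 (L_E2 d)) (smul_E2 (32 * d) hs)
  exact add_E2 (mono_E2 (Nat.zero_le _) (Nat.zero_le _) (Nat.zero_le _) (const_E2 d 1))
    (smul_E2 (2 * d - 1) h1)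

private theorem lam_E2 : EB d 0 1 1 fun m k => lam (Tf d m) (C0 * LL m k) := by
  have h1 : EB d 0 1 1 fun m k => 2 * Tf d m * (C0 * LL m k) :=
    mul_E2 (smul_E2 2 (T_E2 d)) (smul_E2 C0 (L_E2 d))
  have h2 : EB d 0 1 1 fun m _ => 5 * Tf d m :=
    mono_E2 le_rfl le_rfl (Nat.zero_le _) (smul_E2 5 (T_E2 d))
  exact addc_E2 (add_E2 h1 h2) 3

private theorem eU_E2 (hs : EB d 0 1 0 s) :
    EB d 0 1 2 fun m k => eU (P2 d (s m k) (C0 * LL m k)) (Tf d m) (C0 * LL m k) := by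
  have h1 : EB d 0 1 2 fun m k => P2 d (s m k) (C0 * LL m k) + 2 :=
    addc_E2 (mono_E2 le_rfl le_rfl (by norm_num) (P2_E2 d C0 s hs)) 2
  have h2 : EB d 0 1 2 fun m k => 2 * (C0 * LL m k) * lam (Tf d m) (C0 * LL m k) :=
    mono_E2 (by norm_num) (by norm_num) (by norm_num)
      (mul_E2 (smul_E2 2 (smul_E2 C0 (L_E2 d))) (lam_E2 d C0))
  exact add_E2 h1 h2

private theorem cost_E2 (hs : EB d 0 1 0 s) (hu : EB d 0 0 1 u) :
    EB d 1 1 2 fun m k => cost3 (u m k) k (C0 * LL m k) (s m k) := by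
  have h1 : EB d 0 1 1 fun m k => (C0 * LL m k) * s m k := mul_E2 (smul_E2 C0 (L_E2 d)) hs
  have h2 : EB d 0 1 1 fun m k => u m k + 4 :=
    addc_E2 (mono_E2 le_rfl (Nat.zero_le _) le_rfl hu) 4
  exact mono_E2 (by norm_num) (by norm_num) (by norm_num)
    (mul_E2 (addc_E2 (k_E2 d) 1) (add_E2 h2 h1))

private theorem cR_E2 : EB d 1 1 2 fun m k => cR m k (tf d m k) := by
  have h1 : EB d 0 1 1 fun m k => 2 * tf d m k * m + 5 := by
    refine addc_E2 ?_ 5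
    exact mono_E2 (by norm_num) (by norm_num) (by norm_num)
      (mul_E2 (smul_E2 2 (smul_E2 (1 + 3 * (2 * d - 3)) (L_E2 d))) (m_E2 d))
  exact mono_E2 (by norm_num) (by norm_num) (by norm_num) (mul_E2 (addc_E2 (k_E2 d) 1) h1)

private theorem gc_E2 (hd : 2 ≤ d) :
    EB d 1 1 2 fun m k => gc m k (Tf d m) (tf d m k) (2 * d - 3) := by
  rcases Nat.lt_or_ge 2 d with h3 | h3
  · have hG : EB d 1 1 2 fun m k => cG k (Tf d m) := by
      have h4 : EB d 0 1 0 fun m _ => 7 + Tf d m * Tf d m :=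
        add_E2 (mono_E2 (Nat.zero_le _) (Nat.zero_le _) (Nat.zero_le _) (const_E2 d 7))
          (TT_of_E2 (mm3_E2 d h3))
      exact mono_E2 (by norm_num) (by norm_num) (by norm_num)
        (mul_E2 (addc_E2 (k_E2 d) 1) h4)
    have hn : ∀ n, EB d 1 1 2 fun m k => gc m k (Tf d m) (tf d m k) (n + 1) := by
      intro n
      induction n with
      | zero => exact cR_E2 d
      | succ n ih => exact add_E2 hG ih
    obtain ⟨n, hn'⟩ : ∃ n, 2 * d - 3 = n + 1 := ⟨2 * d - 4, by omega⟩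
    have h4 := hn n
    rw [← hn'] at h4
    exact h4
  · have h4 : d = 2 := by omega
    subst h4
    exact cR_E2 2

private theorem Th_E2 (hd : 2 ≤ d) (hs : EB d 0 1 0 s) (hu : EB d 0 0 1 u)
    (hK : EB d 1 0 0 fun m k => 2 ^ (u m k + 1) * s m k)
    (hms : EB d 1 0 0 fun m k => m * s m k) (n : ℕ) : EB d 1 1 2 fun m k =>
      Th2 d m k (u m k) (s m k) (C0 * LL m k) (Tf d m) (tf d m k) n := by
  induction n with
  | zero =>
    have h1 : EB d 1 0 1 fun m k => m * P2 d (s m k) (C0 * LL m k) := by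
      have h2 : EB d 1 0 1 fun m k => (2 * d - 1) * (C0 * LL m k * (32 * d * (m * s m k))) :=
        smul_E2 _ (mono_E2 (by norm_num) (by norm_num) (by norm_num)
          (mul_E2 (smul_E2 C0 (L_E2 d)) (smul_E2 (32 * d) hms)))
      have h3 : EB d 1 0 1 fun m _ => m :=
        mono_E2 le_rfl (Nat.zero_le _) (Nat.zero_le _) (shift_E2 hd (m_E2 d))
      obtain ⟨C, hC⟩ := add_E2 h3 h2
      refine ⟨C, fun m k hm hk => le_trans (le_of_eq ?_) (hC m k hm hk)⟩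
      unfold P2
      ring
    have h4 : EB d 1 0 1 fun m k => 3 * (m * P2 d (s m k) (C0 * LL m k)) + 7 * m :=
      add_E2 (smul_E2 3 h1) (smul_E2 7
        (mono_E2 le_rfl (Nat.zero_le _) (Nat.zero_le _) (shift_E2 hd (m_E2 d))))
    obtain ⟨C, hC⟩ := mono_E2 (d := d) (a' := 1) (b' := 1) (c' := 2) le_rfl (by norm_num)
      (by norm_num) h4
    refine ⟨C, fun m k hm hk => le_trans (le_of_eq ?_) (hC m k hm hk)⟩
    change m * (3 * P2 d (s m k) (C0 * LL m k) + 7) =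
      3 * (m * P2 d (s m k) (C0 * LL m k)) + 7 * m
    ring
  | succ n ih =>
    have h1 : EB d 1 1 2 fun m k => P2 d (s m k) (C0 * LL m k) + 4 :=
      addc_E2 (mono_E2 (by norm_num) (by norm_num) (by norm_num) (P2_E2 d C0 s hs)) 4
    have h2 : EB d 1 1 2 fun m k => (2 ^ (u m k + 1) * s m k + Tf d m * Tf d m) *
        eU (P2 d (s m k) (C0 * LL m k)) (Tf d m) (C0 * LL m k) :=
      mono_E2 (by norm_num) (by norm_num) (by norm_num)
        (mul_E2 (add_E2 hK (TT_of_E2 (mm_E2 d hd))) (eU_E2 d C0 s hs))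
    exact add_E2 (add_E2 h1 h2)
      (add_E2 (smul_E2 (d - 1) (add_E2 ih (cost_E2 d C0 u s hs hu))) (gc_E2 d hd))

end

/-- The bound for the exponent. -/
theorem expo2 (d : ℕ) (hd : 2 ≤ d) : ∃ C, ∀ m k, 1 ≤ m → 1 ≤ k →
    ∃ u q s ℓ T τ, 2 * (2 * d + m) ≤ q ∧ 8 * d * q ≤ 2 ^ u ∧ 2 ^ (u + 1) ≤ 32 * d * q ∧
      (2 ^ (u + 1)) ^ (d - 2) * m ≤ s ∧
      (2 ^ (u + 1)) ^ (d - 2) * (2 * k) ≤ 2 ^ (u + 1) * s ∧ 2 ^ (u + 1) * s + 1 ≤ 2 ^ ℓ ∧
      T ≤ 2 ^ τ ∧ m * 8 ^ (2 * d - 3) ≤ T ∧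
      Th2 d m k u s ℓ T τ (2 * d - 1) + k ≤ C * (m ^ (d - 2) * (m ^ 2 + k) *
        (if d = 2 then m else m ^ (d - 3) * (m ^ 2 + k)) * (Nat.log 2 (m * k) + 1) ^ 2) := by
  obtain ⟨C1, hC1⟩ := params_E2 d hd
  obtain ⟨C0, hC0⟩ := ell_E2 d hd C1
  have hex : ∀ m k, ∃ p : ℕ × ℕ, 1 ≤ m → 1 ≤ k → 16 * d * (2 * d + m) ≤ 2 ^ p.1 ∧
      (2 ^ (p.1 + 1)) ^ (d - 2) * m ≤ p.2 ∧
      (2 ^ (p.1 + 1)) ^ (d - 2) * (2 * k) ≤ 2 ^ (p.1 + 1) * p.2 ∧
      2 ^ (p.1 + 1) * p.2 ≤ C1 * X0 d m k ∧ p.2 ≤ C1 * X1 d m k := by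
    intro m k
    by_cases hm : 1 ≤ m
    · by_cases hk : 1 ≤ k
      · obtain ⟨u, s, h⟩ := hC1 m k hm hk
        exact ⟨(u, s), fun _ _ => h⟩
      · exact ⟨(0, 0), fun _ h => absurd h hk⟩
    · exact ⟨(0, 0), fun h => absurd h hm⟩
  choose p hp using hex
  have hs : EB d 0 1 0 fun m k => (p m k).2 :=
    ⟨C1, fun m k hm hk => by
      have h1 := (hp m k hm hk).2.2.2.2
      change (p m k).2 ≤ C1 * (X0 d m k ^ 0 * X1 d m k ^ 1 * LL m k ^ 0)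
      rw [pow_zero, pow_one, pow_zero, one_mul, mul_one]
      exact h1⟩
  have hK : EB d 1 0 0 fun m k => 2 ^ ((p m k).1 + 1) * (p m k).2 :=
    ⟨C1, fun m k hm hk => by
      have h1 := (hp m k hm hk).2.2.2.1
      change 2 ^ ((p m k).1 + 1) * (p m k).2 ≤ C1 * (X0 d m k ^ 1 * X1 d m k ^ 0 * LL m k ^ 0)
      rw [pow_zero, pow_one, pow_zero, mul_one, mul_one]
      exact h1⟩
  have hms : EB d 1 0 0 fun m k => m * (p m k).2 := by
    obtain ⟨C, hC⟩ := smul_E2 C1 (mX_E2 d hd)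
    refine ⟨C, fun m k hm hk => le_trans ?_ (hC m k hm hk)⟩
    have h1 := Nat.mul_le_mul_left m (hp m k hm hk).2.2.2.2
    refine h1.trans (le_of_eq ?_)
    ring
  have hl : ∀ m k, 1 ≤ m → 1 ≤ k → 2 ^ ((p m k).1 + 1) * (p m k).2 + 1 ≤ 2 ^ (C0 * LL m k) :=
    fun m k hm hk => le_trans (Nat.add_le_add_right (hp m k hm hk).2.2.2.1 1) (hC0 m k hm hk)
  have hspos : ∀ m k, 1 ≤ m → 1 ≤ k → 1 ≤ (p m k).2 := fun m k hm hk =>
    lt_of_lt_of_le (Nat.mul_pos (by positivity) hm) (hp m k hm hk).2.1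
  have hu : EB d 0 0 1 fun m k => (p m k).1 := by
    obtain ⟨C, hC⟩ := smul_E2 C0 (L_E2 d)
    refine ⟨C, fun m k hm hk => le_trans ?_ (hC m k hm hk)⟩
    have h1 : 2 ^ ((p m k).1 + 1) ≤ 2 ^ (C0 * LL m k) :=
      le_trans (Nat.le_mul_of_pos_right _ (hspos m k hm hk))
        ((Nat.le_succ _).trans (hl m k hm hk))
    have h2 := (Nat.pow_le_pow_iff_right (by norm_num)).mp h1
    change (p m k).1 ≤ C0 * LL m k
    omega
  obtain ⟨C, hC⟩ := add_E2 (Th_E2 d C0 (fun m k => (p m k).1) (fun m k => (p m k).2) hd hs hu hK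
    hms (2 * d - 1)) (mono_E2 le_rfl (by norm_num) (by norm_num) (k_E2 d))
  refine ⟨C, fun m k hm hk => ?_⟩
  obtain ⟨h1, h2, h3, -, -⟩ := hp m k hm hk
  have hd8 : 0 < 8 * d := by omega
  have hq1 : 2 * (2 * d + m) ≤ 2 ^ (p m k).1 / (8 * d) := by
    rw [Nat.le_div_iff_mul_le hd8]
    refine le_trans (le_of_eq ?_) h1
    ring
  have hq3 : 2 ^ ((p m k).1 + 1) ≤ 32 * d * (2 ^ (p m k).1 / (8 * d)) := by
    have h4 := Nat.lt_mul_div_succ (2 ^ (p m k).1) hd8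
    have h5 : 8 * d * (2 ^ (p m k).1 / (8 * d) + 1) ≤ 16 * d * (2 ^ (p m k).1 / (8 * d)) := by
      have h6 : 1 ≤ 2 ^ (p m k).1 / (8 * d) := by omega
      nlinarith
    rw [pow_succ]
    have h7 : 32 * d * (2 ^ (p m k).1 / (8 * d)) = 2 * (16 * d * (2 ^ (p m k).1 / (8 * d))) := by
      ring
    omega
  refine ⟨(p m k).1, 2 ^ (p m k).1 / (8 * d), (p m k).2, C0 * LL m k, Tf d m, tf d m k, hq1,
    Nat.mul_div_le _ _, hq3, h2, h3, hl m k hm hk, T_le_E2 d m k hk, le_rfl, ?_⟩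
  have h4 := hC m k hm hk
  rw [pow_one, pow_one] at h4
  exact h4

end Pool.Agent.FanCross
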