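import Pool.Agent.FanCross.Main3

/-!
# The exponents for fans with a long central set

`expo3`: for fixed `d ≥ 2` the cost `Th3 d m k u (2 * d - 1)` is `O ((m * k ^ (d - 1)) ^ 2)`.
-/

set_option autoImplicit false

namespace Pool.Agent.FanCross

/-- The scale. -/
private def ZZ (d m k : ℕ) : ℕ := m * k ^ (d - 1)

/-- `g m k = O (ZZ d m k ^ e)`. -/
private def ZB (d e : ℕ) (g : ℕ → ℕ → ℕ) : Prop :=
  ∃ C, ∀ m k, 1 ≤ m → 1 ≤ k → g m k ≤ C * ZZ d m k ^ e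

private theorem pos_E3 {d m k : ℕ} (hm : 1 ≤ m) (hk : 1 ≤ k) : 1 ≤ ZZ d m k :=
  Nat.mul_pos hm (Nat.pow_pos hk)

private theorem mono_E3 {d e e' : ℕ} (h : e ≤ e') {g : ℕ → ℕ → ℕ} (hg : ZB d e g) :
    ZB d e' g := by
  obtain ⟨C, hC⟩ := hg
  exact ⟨C, fun m k hm hk => (hC m k hm hk).trans
    (Nat.mul_le_mul_left _ (Nat.pow_le_pow_right (pos_E3 hm hk) h))⟩

private theorem const_E3 (d e c : ℕ) : ZB d e fun _ _ => c :=
  ⟨c, fun _ _ hm hk => Nat.le_mul_of_pos_right _ (Nat.pow_pos (pos_E3 hm hk))⟩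

private theorem add_E3 {d e : ℕ} {g h : ℕ → ℕ → ℕ} (hg : ZB d e g) (hh : ZB d e h) :
    ZB d e fun m k => g m k + h m k := by
  obtain ⟨C, hC⟩ := hg
  obtain ⟨C', hC'⟩ := hh
  refine ⟨C + C', fun m k hm hk => ?_⟩
  rw [add_mul]
  exact add_le_add (hC m k hm hk) (hC' m k hm hk)

private theorem mul_E3 {d e e' : ℕ} {g h : ℕ → ℕ → ℕ} (hg : ZB d e g)
    (hh : ZB d e' h) : ZB d (e + e') fun m k => g m k * h m k := by
  obtain ⟨C, hC⟩ := hg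
  obtain ⟨C', hC'⟩ := hh
  refine ⟨C * C', fun m k hm hk => ?_⟩
  calc g m k * h m k ≤ (C * ZZ d m k ^ e) * (C' * ZZ d m k ^ e') :=
        Nat.mul_le_mul (hC m k hm hk) (hC' m k hm hk)
    _ = _ := by ring

private theorem smul_E3 {d e : ℕ} (c : ℕ) {g : ℕ → ℕ → ℕ} (hg : ZB d e g) :
    ZB d e fun m k => c * g m k := by
  have h := mul_E3 (const_E3 d 0 c) hg
  rw [Nat.zero_add] at h
  exact h

private theorem m_E3 (d : ℕ) : ZB d 1 fun m _ => m :=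
  ⟨1, fun m k hm hk => by
    change m ≤ 1 * ZZ d m k ^ 1
    rw [pow_one, one_mul]
    exact Nat.le_mul_of_pos_right _ (Nat.pow_pos hk)⟩

private theorem k_E3 (d : ℕ) (hd : 2 ≤ d) : ZB d 1 fun _ k => k :=
  ⟨1, fun m k hm hk => by
    change k ≤ 1 * ZZ d m k ^ 1
    rw [pow_one, one_mul]
    calc k ≤ k ^ (d - 1) := Nat.le_self_pow (by omega) k
      _ ≤ _ := Nat.le_mul_of_pos_left _ hm⟩

/-- The exponent `u`. -/
private def u_E3 (d k : ℕ) : ℕ := Nat.clog 2 (8 * d * (16 * d * k))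

private theorem le_E3 (d k : ℕ) : 8 * d * (16 * d * k) ≤ 2 ^ u_E3 d k :=
  Nat.le_pow_clog (by norm_num) _

private theorem pu_E3 (d : ℕ) (hd : 2 ≤ d) : ∃ C, ∀ k, 1 ≤ k → 2 ^ (u_E3 d k + 1) ≤ C * k := by
  refine ⟨2 * (2 * (8 * d * (16 * d))), fun k hk => ?_⟩
  have h1 : 1 < 8 * d * (16 * d * k) := by
    have h2 : 1 ≤ d * (d * k) := Nat.mul_pos (by omega) (Nat.mul_pos (by omega) hk)
    have h3 : 8 * d * (16 * d * k) = 128 * (d * (d * k)) := by ring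
    omega
  have h2 := Nat.pow_pred_clog_lt_self (b := 2) (by norm_num) h1
  have h3 : 0 < Nat.clog 2 (8 * d * (16 * d * k)) := Nat.clog_pos (by norm_num) h1
  have h4 : 2 ^ u_E3 d k = 2 * 2 ^ (Nat.clog 2 (8 * d * (16 * d * k))).pred := by
    unfold u_E3
    rw [← pow_succ']
    congr 1
    exact (Nat.succ_pred_eq_of_pos h3).symm
  calc 2 ^ (u_E3 d k + 1) = 2 * 2 ^ u_E3 d k := pow_succ' _ _
    _ = 2 * (2 * 2 ^ (Nat.clog 2 (8 * d * (16 * d * k))).pred) := by rw [h4]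
    _ ≤ 2 * (2 * (8 * d * (16 * d * k))) := by gcongr
    _ = _ := by ring

private theorem uu_E3 (d : ℕ) (hd : 2 ≤ d) : ZB d 1 fun _ k => u_E3 d k := by
  obtain ⟨C, hC⟩ := pu_E3 d hd
  obtain ⟨C', hC'⟩ := k_E3 d hd
  refine ⟨C * C', fun m k hm hk => ?_⟩
  have h1 : u_E3 d k ≤ C * k := by
    have h2 := hC k hk
    have h3 : u_E3 d k + 1 < 2 ^ (u_E3 d k + 1) := Nat.lt_two_pow_self
    omega
  exact h1.trans ((Nat.mul_le_mul_left _ (hC' m k hm hk)).trans (le_of_eq (by ring)))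

private theorem K0_E3 (d : ℕ) (hd : 2 ≤ d) : ZB d 1 fun m k => K0 d m k (u_E3 d k) := by
  obtain ⟨C, hC⟩ := pu_E3 d hd
  refine ⟨(C + 2) * C ^ (d - 2), fun m k hm hk => ?_⟩
  have h1 := hC k hk
  have h3 : k ^ (d - 1) = k * k ^ (d - 2) := by
    rw [← pow_succ']
    congr 1
    omega
  calc K0 d m k (u_E3 d k)
      = (m * 2 ^ (u_E3 d k + 1) + 2 * k) * (2 ^ (u_E3 d k + 1)) ^ (d - 2) := rfl
    _ ≤ (m * (C * k) + 2 * k) * (C * k) ^ (d - 2) := by gcongr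
    _ ≤ ((C + 2) * (m * k)) * (C * k) ^ (d - 2) := by
        refine Nat.mul_le_mul_right _ ?_
        have h2 : (C + 2) * (m * k) = m * (C * k) + 2 * (m * k) := by ring
        have h4 : k ≤ m * k := Nat.le_mul_of_pos_left _ hm
        omega
    _ = _ := by
        rw [pow_one, ZZ, mul_pow, h3]
        ring

private theorem PP_E3 (d : ℕ) (hd : 2 ≤ d) : ZB d 1 fun m k => PP d m k (u_E3 d k) :=
  add_E3 (const_E3 d 1 1) (smul_E3 (2 * d - 1) (K0_E3 d hd))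

private theorem c1_E3 (d : ℕ) (hd : 2 ≤ d) : ZB d 2 fun m k => c1 d m k (u_E3 d k) := by
  have h1 := smul_E3 2 (K0_E3 d hd)
  have h2 : ZB d 1 fun m k => PP d m k (u_E3 d k) + 1 :=
    add_E3 (PP_E3 d hd) (const_E3 d 1 1)
  exact add_E3 (mono_E3 (by norm_num) h2) (mul_E3 h1 (add_E3 h2 h1))

private theorem cost_E3 (d : ℕ) (hd : 2 ≤ d) :
    ZB d 2 fun m k => cost (u_E3 d k) k (K0 d m k (u_E3 d k)) := by
  have h1 : ZB d 1 fun m k => u_E3 d k + 2 + K0 d m k (u_E3 d k) :=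
    add_E3 (add_E3 (uu_E3 d hd) (const_E3 d 1 2)) (K0_E3 d hd)
  have h2 := smul_E3 2 (k_E3 d hd)
  exact add_E3 (mono_E3 (by norm_num) h1) (mul_E3 h2 (add_E3 h1 h2))

private theorem Th_E3 (d : ℕ) (hd : 2 ≤ d) (s : ℕ) :
    ZB d 2 fun m k => Th3 d m k (u_E3 d k) s := by
  induction s with
  | zero =>
    exact add_E3 (smul_E3 2 (mul_E3 (K0_E3 d hd) (m_E3 d))) (const_E3 d 2 2)
  | succ s ih =>
    exact add_E3 (c1_E3 d hd) (smul_E3 (d - 1) (add_E3 ih (cost_E3 d hd)))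

/-- The bound for the exponent. -/
theorem expo3 (d : ℕ) (hd : 2 ≤ d) : ∃ C, ∀ m k, 1 ≤ m → 1 ≤ k →
    ∃ u, 8 * d * (16 * d * k) ≤ 2 ^ u ∧
      Th3 d m k u (2 * d - 1) + k ≤ C * (m * k ^ (d - 1)) ^ 2 := by
  obtain ⟨C, hC⟩ := add_E3 (Th_E3 d hd (2 * d - 1)) (mono_E3 (by norm_num) (k_E3 d hd))
  exact ⟨C, fun m k hm hk => ⟨u_E3 d k, le_E3 d k, hC m k hm hk⟩⟩

end Pool.Agent.FanCross
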