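import Mathlib

/-!
# The exponents for the fans with long parts
-/

set_option autoImplicit false

namespace Pool.Agent.FanCross

private theorem expoG_u (d m : ℕ) (hm : 1 ≤ m) :
    2 ^ (Nat.clog 2 (4 * (2 * m + 1) * (2 * (2 * m + d))) + 2) ≤ 192 * (d + 2) * m ^ 2 := by
  set D := 4 * (2 * m + 1) * (2 * (2 * m + d)) with hD
  have h0 : 1 < D := by
    rw [hD]
    nlinarith
  have h1 := Nat.pow_pred_clog_lt_self (b := 2) (by norm_num) h0
  have h2 : 0 < Nat.clog 2 D := Nat.clog_pos (by norm_num) h0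
  have h3 : 2 ^ (Nat.clog 2 D + 2) = 8 * 2 ^ (Nat.clog 2 D).pred := by
    have h4 : Nat.clog 2 D + 2 = (Nat.clog 2 D).pred + 3 := by
      have := Nat.succ_pred_eq_of_pos h2
      omega
    rw [h4, pow_add]
    ring
  have h5 : D ≤ 24 * (d + 2) * m ^ 2 := by
    rw [hD]
    calc 4 * (2 * m + 1) * (2 * (2 * m + d)) ≤ 4 * (3 * m) * (2 * ((d + 2) * m)) := by
          gcongr
          · omega
          · nlinarith
      _ = 24 * (d + 2) * m ^ 2 := by ring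
  rw [h3]
  nlinarith

theorem expoG (d : ℕ) (hd : 2 ≤ d) : ∃ C, ∀ m k : ℕ, 1 ≤ m → 1 ≤ k → ∃ u q K D T : ℕ,
    0 < q ∧ 2 * (2 * m + d) ≤ q ∧ 4 * (2 * m + 1) * q ≤ D ∧ D ≤ 2 ^ u ∧
    K = m * (2 ^ (u + 2)) ^ (d - 1) ∧
    (d - 1) * ((k + 1) * (m * K + 4)) + (k + 1) * (u + 5 + K) +
      (2 + 2 * m * K + 2 * K * (2 + 2 * m * K + 2 * K)) ≤ T ∧
    2 * ((2 * m * (d - 1) + 1) * T + 2) ≤ C * (m ^ (4 * d) + m ^ (2 * d + 1) * k) := by
  obtain ⟨c, hc⟩ : ∃ c, c = 192 * (d + 2) := ⟨_, rfl⟩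
  obtain ⟨E, hE⟩ : ∃ E, E = c ^ (d - 1) := ⟨_, rfl⟩
  obtain ⟨a1, ha1⟩ : ∃ a1, a1 = 2 * d * (E + 4) + 2 * (c + 5 + E) := ⟨_, rfl⟩
  obtain ⟨a2, ha2⟩ : ∃ a2, a2 = 2 + 2 * E + 2 * E * (2 + 2 * E + 2 * E) := ⟨_, rfl⟩
  refine ⟨4 * d * a1 + 4 * d * a2 + 4, fun m k hm hk => ?_⟩
  obtain ⟨u, hu⟩ : ∃ u, u = Nat.clog 2 (4 * (2 * m + 1) * (2 * (2 * m + d))) := ⟨_, rfl⟩
  obtain ⟨K, hK⟩ : ∃ K, K = m * (2 ^ (u + 2)) ^ (d - 1) := ⟨_, rfl⟩
  have hu2 : 2 ^ (u + 2) ≤ c * m ^ 2 := by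
    rw [hu, hc]
    exact expoG_u d m hm
  obtain ⟨P, hP⟩ : ∃ P, P = m ^ (2 * d - 1) := ⟨_, rfl⟩
  obtain ⟨M1, hM1⟩ : ∃ M1, M1 = m ^ (2 * d) := ⟨_, rfl⟩
  obtain ⟨M2, hM2⟩ : ∃ M2, M2 = m ^ (4 * d - 1) := ⟨_, rfl⟩
  have e1 : m * P = M1 := by
    rw [hP, hM1, ← pow_succ']
    congr 1
    omega
  have e2 : P * M1 = M2 := by
    rw [hP, hM1, hM2, ← pow_add]
    congr 1
    omega
  have e3 : m * M2 = m ^ (4 * d) := by
    rw [hM2, ← pow_succ']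
    congr 1
    omega
  have e4 : m * M1 = m ^ (2 * d + 1) := by
    rw [hM1, ← pow_succ']
  have p1 : 1 ≤ P := by
    rw [hP]
    exact Nat.one_le_pow _ _ hm
  have p2 : P ≤ M1 := by
    rw [← e1]
    exact Nat.le_mul_of_pos_left _ hm
  have p3 : M1 ≤ M2 := by
    rw [← e2]
    exact Nat.le_mul_of_pos_left _ p1
  have p4 : 1 ≤ M1 := p1.trans p2
  have p5 : 1 ≤ M2 := p4.trans p3
  have hKP : K ≤ E * P := by
    rw [hK, hE, hP]
    calc m * (2 ^ (u + 2)) ^ (d - 1) ≤ m * (c * m ^ 2) ^ (d - 1) := by gcongr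
      _ = c ^ (d - 1) * (m * (m ^ 2) ^ (d - 1)) := by rw [mul_pow]; ring
      _ = c ^ (d - 1) * m ^ (2 * d - 1) := by
          congr 1
          rw [← pow_mul, ← pow_succ']
          congr 1
          omega
  have hmK : m * K ≤ E * M1 := by
    calc m * K ≤ m * (E * P) := Nat.mul_le_mul_left _ hKP
      _ = E * (m * P) := by ring
      _ = E * M1 := by rw [e1]
  have huM : u ≤ c * M1 := by
    have h1 : u < 2 ^ u := Nat.lt_two_pow_self
    have h2 : 2 ^ u ≤ 2 ^ (u + 2) := Nat.pow_le_pow_right (by norm_num) (by omega)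
    have h3 : m ^ 2 ≤ M1 := by
      rw [hM1]
      exact Nat.pow_le_pow_right hm (by omega)
    calc u ≤ 2 ^ (u + 2) := (h1.le).trans h2
      _ ≤ c * m ^ 2 := hu2
      _ ≤ c * M1 := Nat.mul_le_mul_left _ h3
  have hKM1 : K ≤ E * M1 := hKP.trans (Nat.mul_le_mul_left _ p2)
  have hT1 : (d - 1) * ((k + 1) * (m * K + 4)) ≤ 2 * d * (E + 4) * (k * M1) := by
    calc (d - 1) * ((k + 1) * (m * K + 4)) ≤ d * ((2 * k) * (E * M1 + 4 * M1)) := by
          gcongr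
          · omega
          · omega
          · omega
      _ = 2 * d * (E + 4) * (k * M1) := by ring
  have hT2 : (k + 1) * (u + 5 + K) ≤ 2 * (c + 5 + E) * (k * M1) := by
    calc (k + 1) * (u + 5 + K) ≤ (2 * k) * (c * M1 + 5 * M1 + E * M1) := by
          gcongr
          · omega
          · omega
      _ = 2 * (c + 5 + E) * (k * M1) := by ring
  have hT3 : 2 + 2 * m * K + 2 * K * (2 + 2 * m * K + 2 * K) ≤ a2 * M2 := by
    have h1 : 2 * m * K ≤ 2 * E * M1 := by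
      calc 2 * m * K = 2 * (m * K) := by ring
        _ ≤ 2 * (E * M1) := Nat.mul_le_mul_left _ hmK
        _ = 2 * E * M1 := by ring
    have h2 : 2 + 2 * m * K + 2 * K ≤ (2 + 2 * E + 2 * E) * M1 := by
      calc 2 + 2 * m * K + 2 * K ≤ 2 * M1 + 2 * E * M1 + 2 * (E * M1) := by omega
        _ = (2 + 2 * E + 2 * E) * M1 := by ring
    calc 2 + 2 * m * K + 2 * K * (2 + 2 * m * K + 2 * K)
        ≤ 2 * M2 + 2 * E * M2 + 2 * (E * P) * ((2 + 2 * E + 2 * E) * M1) :=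
          Nat.add_le_add (Nat.add_le_add (by omega) (h1.trans (Nat.mul_le_mul_left _ p3)))
            (Nat.mul_le_mul (Nat.mul_le_mul_left _ hKP) h2)
      _ = 2 * M2 + 2 * E * M2 + 2 * E * (2 + 2 * E + 2 * E) * (P * M1) := by ring
      _ = a2 * M2 := by rw [e2, ha2]; ring
  refine ⟨u, 2 * (2 * m + d), K, 4 * (2 * m + 1) * (2 * (2 * m + d)),
    a1 * (k * M1) + a2 * M2, by omega, le_rfl, le_rfl, ?_, hK, ?_, ?_⟩
  · rw [hu]
    exact Nat.le_pow_clog (by norm_num) _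
  · rw [ha1, add_mul (2 * d * (E + 4))]
    omega
  · have h1 : 2 * m * (d - 1) + 1 ≤ 2 * d * m := by
      have h2 : 2 * m * (d - 1) + 2 * m = 2 * d * m := by
        obtain ⟨j, rfl⟩ : ∃ j, d = j + 1 := ⟨d - 1, by omega⟩
        rw [Nat.add_sub_cancel]
        ring
      omega
    have h3 : 1 ≤ m ^ (4 * d) := Nat.one_le_pow _ _ hm
    calc 2 * ((2 * m * (d - 1) + 1) * (a1 * (k * M1) + a2 * M2) + 2)
        ≤ 2 * ((2 * d * m) * (a1 * (k * M1) + a2 * M2) + 2 * m ^ (4 * d)) := by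
          gcongr
          omega
      _ = 4 * d * a1 * (m * M1 * k) + 4 * d * a2 * (m * M2) + 4 * m ^ (4 * d) := by ring
      _ = 4 * d * a1 * (m ^ (2 * d + 1) * k) + 4 * d * a2 * m ^ (4 * d) + 4 * m ^ (4 * d) := by
          rw [e3, e4]
      _ ≤ (4 * d * a1 + 4 * d * a2 + 4) * (m ^ (4 * d) + m ^ (2 * d + 1) * k) := by
          nlinarith [Nat.zero_le (4 * d * a1 * m ^ (4 * d)),
            Nat.zero_le ((4 * d * a2 + 4) * (m ^ (2 * d + 1) * k))]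

end Pool.Agent.FanCross
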