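import Pool.Agent.FanCross.Emb

/-!
# Grids in graphs without large cliques

A 2-colouring of the pairs of a large set contains a `t × t` grid, that is `t²` points, the rows
cliques of the colour `true`, the columns cliques of the colour `false`, or a clique of size
`2 ^ ℓ` of one colour.
-/

set_option autoImplicit false
set_option linter.unusedSectionVars false

namespace Pool.Agent.FanCross

variable {S : Type*} [DecidableEq S]

/-- A grid: the rows have the colour `true`, the columns have the colour `false`. -/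
def IsGrid (g : S → S → Bool) (t : ℕ) (x : Fin t × Fin t → S) : Prop :=
  Function.Injective x ∧ (∀ i j j', j ≠ j' → g (x (i, j)) (x (i, j')) = true) ∧
    ∀ i i' j, i ≠ i' → g (x (i, j)) (x (i', j)) = false

/-- A clique of the colour `c`. -/
def IsCl (g : S → S → Bool) (c : Bool) (K : Finset S) : Prop :=
  ∀ x ∈ K, ∀ y ∈ K, x ≠ y → g x y = c

/-- The exponent. -/
def lam (t ℓ : ℕ) : ℕ := 2 * t * ℓ + 5 * t + 3

theorem sets_Grid {ι : Type*} [DecidableEq ι] (M : ℕ) :
    ∀ (J : Finset ι) (X : Finset S), J.card * M ≤ X.card →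
      ∃ C : ι → Finset S, (∀ j ∈ J, C j ⊆ X ∧ (C j).card = M) ∧
        ∀ i ∈ J, ∀ j ∈ J, i ≠ j → Disjoint (C i) (C j) := by
  intro J
  induction J using Finset.induction_on with
  | empty =>
    intro X _
    exact ⟨fun _ => ∅, by simp, by simp⟩
  | insert i J hi ih =>
    intro X hX
    rw [Finset.card_insert_of_notMem hi, add_mul, one_mul] at hX
    obtain ⟨A, hA, hAc⟩ := Finset.exists_subset_card_eq (show M ≤ X.card by omega)
    obtain ⟨C, hC, hd⟩ := ih (X \ A) (by rw [Finset.card_sdiff_of_subset hA]; omega)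
    have hCA : ∀ j ∈ J, Disjoint A (C j) := fun j hj =>
      Finset.disjoint_sdiff.mono_right (hC j hj).1
    refine ⟨fun j => if j = i then A else C j, ?_, ?_⟩
    · intro j hj
      beta_reduce
      by_cases h : j = i
      · rw [if_pos h]
        exact ⟨hA, hAc⟩
      · rw [if_neg h]
        obtain ⟨h1, h2⟩ := hC j (Finset.mem_of_mem_insert_of_ne hj h)
        exact ⟨h1.trans Finset.sdiff_subset, h2⟩
    · intro j hj l hl hjl
      beta_reduce
      by_cases h : j = i
      · by_cases h' : l = i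
        · exact absurd (h.trans h'.symm) hjl
        · rw [if_pos h, if_neg h']
          exact hCA l (Finset.mem_of_mem_insert_of_ne hl h')
      · by_cases h' : l = i
        · rw [if_neg h, if_pos h']
          exact (hCA j (Finset.mem_of_mem_insert_of_ne hj h)).symm
        · rw [if_neg h, if_neg h']
          exact hd j (Finset.mem_of_mem_insert_of_ne hj h) l
            (Finset.mem_of_mem_insert_of_ne hl h') hjl

/-- The prescribed colours of a grid. -/
private def kap_Grid (t : ℕ) (p q : Fin t × Fin t) : Option Bool :=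
  if p = q then none else if p.1 = q.1 then some true else if p.2 = q.2 then some false else none

private theorem kap_symm_Grid (t : ℕ) (p q : Fin t × Fin t) : kap_Grid t p q = kap_Grid t q p := by
  unfold kap_Grid
  simp only [eq_comm]

private theorem kap_deg_Grid (t : ℕ) (j : Fin t × Fin t) :
    ((Finset.univ : Finset (Fin t × Fin t)).filter fun i => kap_Grid t i j ≠ none).card ≤
      2 * t := by
  have h1 : ((Finset.univ : Finset (Fin t × Fin t)).filter fun i => kap_Grid t i j ≠ none) ⊆
      (Finset.univ.image fun a : Fin t => (j.1, a)) ∪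
        Finset.univ.image fun a : Fin t => (a, j.2) := by
    intro i hi
    have h2 := (Finset.mem_filter.mp hi).2
    rw [Finset.mem_union, Finset.mem_image, Finset.mem_image]
    unfold kap_Grid at h2
    by_cases h3 : i = j
    · rw [if_pos h3] at h2
      exact absurd rfl h2
    · rw [if_neg h3] at h2
      by_cases h4 : i.1 = j.1
      · left
        exact ⟨i.2, Finset.mem_univ _, Prod.ext h4.symm rfl⟩
      · rw [if_neg h4] at h2
        by_cases h5 : i.2 = j.2
        · right
          exact ⟨i.1, Finset.mem_univ _, Prod.ext rfl h5.symm⟩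
        · rw [if_neg h5] at h2
          exact absurd rfl h2
  refine (Finset.card_le_card h1).trans ((Finset.card_union_le _ _).trans ?_)
  have h2 : (Finset.univ.image fun a : Fin t => (j.1, a)).card ≤ t := by
    refine Finset.card_image_le.trans ?_
    rw [Finset.card_univ, Fintype.card_fin]
  have h3 : (Finset.univ.image fun a : Fin t => (a, j.2)).card ≤ t := by
    refine Finset.card_image_le.trans ?_
    rw [Finset.card_univ, Fintype.card_fin]
  omega

private theorem size_Grid (t ℓ j : ℕ) :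
    (t * t) * ((2 * (2 * t + 1) * 2 ^ (j * lam t ℓ)) * (2 ^ (ℓ + 1)) ^ (2 * t)) ≤
      2 ^ ((j + 1) * lam t ℓ) := by
  have h1 : t ≤ 2 ^ t := Nat.lt_two_pow_self.le
  have h2 : 2 * t + 1 ≤ 2 ^ (t + 2) := by
    rw [pow_add]
    have : 1 ≤ 2 ^ t := Nat.one_le_two_pow
    omega
  calc (t * t) * ((2 * (2 * t + 1) * 2 ^ (j * lam t ℓ)) * (2 ^ (ℓ + 1)) ^ (2 * t))
      ≤ (2 ^ t * 2 ^ t) * ((2 * 2 ^ (t + 2) * 2 ^ (j * lam t ℓ)) *
          (2 ^ (ℓ + 1)) ^ (2 * t)) := by gcongr
    _ = 2 ^ (t + t + (1 + (t + 2) + j * lam t ℓ + (ℓ + 1) * (2 * t))) := by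
        rw [← pow_mul, pow_add 2 (t + t), pow_add 2 t t, pow_add 2 (1 + (t + 2) + j * lam t ℓ),
          pow_add 2 (1 + (t + 2)), pow_add 2 1 (t + 2), pow_one]
    _ = 2 ^ ((j + 1) * lam t ℓ) := by
        congr 1
        unfold lam
        ring

private theorem prod_Grid (g : S → S → Bool) (hg : ∀ x y, g x y = g y x) (t ℓ : ℕ)
    (X0 : Finset S) (hgrid : ¬ ∃ x : Fin t × Fin t → S, (∀ p, x p ∈ X0) ∧ IsGrid g t x)
    (hcl : ¬ ∃ K ⊆ X0, ∃ c, K.card = 2 ^ ℓ ∧ IsCl g c K) :
    ∀ (j : ℕ) (X : Finset S), X ⊆ X0 → 2 ^ (j * lam t ℓ) ≤ X.card →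
      ∃ n : Bool → ℕ, (∀ c, 2 ^ j ≤ n c * n (!c)) ∧ ∀ c, ∃ K ⊆ X, K.card = n c ∧ IsCl g c K := by
  intro j
  induction j with
  | zero =>
    intro X hX hc
    rw [Nat.zero_mul, pow_zero] at hc
    obtain ⟨x, hx⟩ := Finset.card_pos.mp hc
    refine ⟨fun _ => 1, fun c => by simp, fun c => ⟨{x}, Finset.singleton_subset_iff.mpr hx,
      Finset.card_singleton x, ?_⟩⟩
    intro a ha b hb hab
    rw [Finset.mem_singleton] at ha hb
    exact absurd (ha.trans hb.symm) hab
  | succ j ih =>
    intro X hX hc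
    obtain ⟨T, hT⟩ : ∃ T, T = 2 ^ (j * lam t ℓ) := ⟨_, rfl⟩
    have hT1 : 1 ≤ T := by
      rw [hT]
      exact Nat.one_le_two_pow
    obtain ⟨θ, hθ⟩ : ∃ θ, θ = 2 * (2 * t + 1) * T := ⟨_, rfl⟩
    have hθ1 : 1 ≤ θ := by
      rw [hθ]
      exact Nat.mul_pos (by omega) hT1
    obtain ⟨C, hC, hdis⟩ := sets_Grid (θ * (2 ^ (ℓ + 1)) ^ (2 * t))
      (Finset.univ : Finset (Fin t × Fin t)) X (by
        rw [Finset.card_univ, Fintype.card_prod, Fintype.card_fin, hθ, hT]
        exact (size_Grid t ℓ j).trans hc)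
    have hXpos : 0 < X.card := lt_of_lt_of_le (by positivity) hc
    obtain ⟨s0, -⟩ := Finset.card_pos.mp hXpos
    have hne : Nonempty S := ⟨s0⟩
    rcases embed g hg (kap_Grid t) (kap_symm_Grid t) (fun i => if_pos rfl) (2 * t)
      (2 ^ (ℓ + 1)) θ Nat.one_le_two_pow hθ1 Finset.univ C (kap_deg_Grid t)
      (by
        intro p _
        rw [(hC p (Finset.mem_univ _)).2]
        exact Nat.mul_le_mul_left _ (Nat.pow_le_pow_right (by positivity) (kap_deg_Grid t p)))
      with ⟨x, hx, hxg⟩ | ⟨p, p', c, P, Q, -, -, hne, hP, hQ, hPc, hQc, hrare⟩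
    · exfalso
      refine hgrid ⟨x, fun p => hX ((hC p (Finset.mem_univ _)).1 (hx p (Finset.mem_univ _))),
        ?_, ?_, ?_⟩
      · intro p p' hpp
        by_contra hne
        have h1 := hdis p (Finset.mem_univ _) p' (Finset.mem_univ _) hne
        have h2 := hx p (Finset.mem_univ _)
        have h3 := hx p' (Finset.mem_univ _)
        rw [← hpp] at h3
        exact Finset.disjoint_left.mp h1 h2 h3
      · intro i a b hab
        refine hxg (i, a) (Finset.mem_univ _) (i, b) (Finset.mem_univ _) true ?_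
        unfold kap_Grid
        rw [if_neg (by intro h; exact hab (Prod.ext_iff.mp h).2), if_pos rfl]
      · intro a b i hab
        refine hxg (a, i) (Finset.mem_univ _) (b, i) (Finset.mem_univ _) false ?_
        unfold kap_Grid
        rw [if_neg (by intro h; exact hab (Prod.ext_iff.mp h).1), if_neg hab, if_pos rfl]
    · have hPX : P ⊆ X := hP.trans (hC p (Finset.mem_univ _)).1
      have hQX : Q ⊆ X := hQ.trans (hC p' (Finset.mem_univ _)).1
      have hPQ : Disjoint P Q :=
        ((hdis p (Finset.mem_univ _) p' (Finset.mem_univ _) hne).mono_left hP).mono_right hQ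
      classical
      -- a maximal clique of the colour `!c` in `P`
      obtain ⟨K, hK, hmax⟩ := Finset.exists_max_image
        (P.powerset.filter fun K => IsCl g (!c) K) Finset.card
        ⟨∅, Finset.mem_filter.mpr ⟨Finset.empty_mem_powerset _, by
          intro a ha
          exact absurd ha (Finset.notMem_empty a)⟩⟩
      obtain ⟨hKP, hKcl⟩ := Finset.mem_filter.mp hK
      rw [Finset.mem_powerset] at hKP
      have hKc : K.card ≤ 2 ^ ℓ := by
        by_contra h
        obtain ⟨K', hK', hK'c⟩ := Finset.exists_subset_card_eq (show 2 ^ ℓ ≤ K.card by omega)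
        exact hcl ⟨K', hK'.trans (hKP.trans (hPX.trans hX)), !c, hK'c,
          fun a ha b hb hab => hKcl a (hK' ha) b (hK' hb) hab⟩
      set Q' := Q.filter fun y => ∀ z ∈ K, g z y = !c with hQ'
      have hQ'Q : Q' ⊆ Q := Finset.filter_subset _ _
      have hQ'c : Q.card ≤ 2 * Q'.card := by
        have h1 : Q \ Q' ⊆ K.biUnion fun z => Q.filter fun y => g z y = c := by
          intro y hy
          obtain ⟨h2, h3⟩ := Finset.mem_sdiff.mp hy
          rw [hQ', Finset.mem_filter, not_and] at h3
          have h4 := h3 h2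
          push Not at h4
          obtain ⟨z, hz, hzc⟩ := h4
          refine Finset.mem_biUnion.mpr ⟨z, hz, Finset.mem_filter.mpr ⟨h2, ?_⟩⟩
          cases hcc : c <;> cases hgg : g z y <;> simp_all
        have h2 : 2 ^ (ℓ + 1) * (Q \ Q').card ≤ 2 ^ ℓ * Q.card := by
          calc 2 ^ (ℓ + 1) * (Q \ Q').card
              ≤ 2 ^ (ℓ + 1) * ∑ z ∈ K, (Q.filter fun y => g z y = c).card :=
                Nat.mul_le_mul_left _ ((Finset.card_le_card h1).trans Finset.card_biUnion_le)
            _ = ∑ z ∈ K, 2 ^ (ℓ + 1) * (Q.filter fun y => g z y = c).card := Finset.mul_sum _ _ _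
            _ ≤ ∑ _z ∈ K, Q.card := Finset.sum_le_sum fun z hz => (hrare z (hKP hz)).le
            _ = K.card * Q.card := by rw [Finset.sum_const, smul_eq_mul]
            _ ≤ 2 ^ ℓ * Q.card := Nat.mul_le_mul_right _ hKc
        have h3 : 2 ^ ℓ * (2 * (Q \ Q').card) ≤ 2 ^ ℓ * Q.card := by
          refine le_trans (le_of_eq ?_) h2
          rw [pow_succ]
          ring
        have h4 := Nat.le_of_mul_le_mul_left h3 (by positivity)
        have h5 := Finset.card_sdiff_add_card_eq_card hQ'Q
        omega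
      have hθT : 2 * T ≤ θ := by
        rw [hθ]
        nlinarith
      have hTQ : T ≤ Q'.card := by omega
      have hTP : T ≤ P.card := by
        have h1 : (2 * t + 1) * (2 * T) ≤ (2 * t + 1) * P.card := by
          refine le_trans (le_of_eq ?_) hPc
          rw [hθ]
          ring
        have h2 := Nat.le_of_mul_le_mul_left h1 (by omega)
        omega
      obtain ⟨nP, hnP, hKP'⟩ := ih P (hPX.trans hX) (by rw [← hT]; exact hTP)
      obtain ⟨nQ, hnQ, hKQ⟩ := ih Q' (hQ'Q.trans (hQX.trans hX)) (by rw [← hT]; exact hTQ)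
      have hPmax : nP (!c) ≤ K.card := by
        obtain ⟨K1, hK1, hK1c, hK1cl⟩ := hKP' (!c)
        rw [← hK1c]
        exact hmax K1 (Finset.mem_filter.mpr ⟨Finset.mem_powerset.mpr hK1, hK1cl⟩)
      have hkey : 2 ^ (j + 1) ≤ max (nP c) (nQ c) * (K.card + nQ (!c)) := by
        calc 2 ^ (j + 1) = 2 ^ j + 2 ^ j := by ring
          _ ≤ nP c * nP (!c) + nQ c * nQ (!c) := Nat.add_le_add (hnP c) (hnQ c)
          _ ≤ max (nP c) (nQ c) * K.card + max (nP c) (nQ c) * nQ (!c) :=
              Nat.add_le_add (Nat.mul_le_mul (le_max_left _ _) hPmax)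
                (Nat.mul_le_mul (le_max_right _ _) le_rfl)
          _ = _ := by ring
      refine ⟨fun c' => if c' = c then max (nP c) (nQ c) else K.card + nQ (!c), ?_, ?_⟩
      · intro c'
        beta_reduce
        by_cases hcc : c' = c
        · rw [if_pos hcc, if_neg (by rw [hcc]; cases c <;> simp)]
          exact hkey
        · rw [if_neg hcc, if_pos (by cases c <;> cases c' <;> simp_all), Nat.mul_comm]
          exact hkey
      · intro c'
        beta_reduce
        by_cases hcc : c' = c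
        · rw [if_pos hcc, hcc]
          rcases le_total (nP c) (nQ c) with h | h
          · rw [max_eq_right h]
            obtain ⟨K1, hK1, hK1c, hK1cl⟩ := hKQ c
            exact ⟨K1, hK1.trans (hQ'Q.trans hQX), hK1c, hK1cl⟩
          · rw [max_eq_left h]
            obtain ⟨K1, hK1, hK1c, hK1cl⟩ := hKP' c
            exact ⟨K1, hK1.trans hPX, hK1c, hK1cl⟩
        · rw [if_neg hcc]
          have hc' : c' = !c := by cases c <;> cases c' <;> simp_all
          rw [hc']
          obtain ⟨K1, hK1, hK1c, hK1cl⟩ := hKQ (!c)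
          have hKK1 : Disjoint K K1 := (hPQ.mono_left hKP).mono_right (hK1.trans hQ'Q)
          refine ⟨K ∪ K1, Finset.union_subset (hKP.trans hPX) (hK1.trans (hQ'Q.trans hQX)), ?_, ?_⟩
          · rw [Finset.card_union_of_disjoint hKK1, hK1c]
          · intro a ha b hb hab
            rcases Finset.mem_union.mp ha with ha | ha <;>
              rcases Finset.mem_union.mp hb with hb | hb
            · exact hKcl a ha b hb hab
            · exact (Finset.mem_filter.mp (hK1 hb)).2 a ha
            · rw [hg]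
              exact (Finset.mem_filter.mp (hK1 ha)).2 b hb
            · exact hK1cl a ha b hb hab

theorem grid_or (g : S → S → Bool) (hg : ∀ x y, g x y = g y x) (t ℓ : ℕ) (X : Finset S)
    (hX : 2 ^ (2 * ℓ * lam t ℓ) ≤ X.card) :
    (∃ x : Fin t × Fin t → S, (∀ p, x p ∈ X) ∧ IsGrid g t x) ∨
      ∃ K ⊆ X, ∃ c, K.card = 2 ^ ℓ ∧ IsCl g c K := by
  by_contra hcon
  rw [not_or] at hcon
  obtain ⟨n, hn, hK⟩ := prod_Grid g hg t ℓ X hcon.1 hcon.2 (2 * ℓ) X (Finset.Subset.refl _) hX
  have h1 : ∃ c, 2 ^ ℓ ≤ n c := by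
    by_contra h2
    push Not at h2
    have h3 := hn true
    have h4 : n true * n (!true) < 2 ^ ℓ * 2 ^ ℓ :=
      Nat.mul_lt_mul_of_lt_of_lt (h2 true) (h2 (!true))
    have h5 : 2 ^ (2 * ℓ) = 2 ^ ℓ * 2 ^ ℓ := by rw [two_mul, pow_add]
    omega
  obtain ⟨c, hc⟩ := h1
  obtain ⟨K, hKX, hKc, hKcl⟩ := hK c
  obtain ⟨K', hK', hK'c⟩ := Finset.exists_subset_card_eq (hc.trans_eq hKc.symm)
  exact hcon.2 ⟨K', hK'.trans hKX, c, hK'c, fun a ha b hb hab =>
    hKcl a (hK' ha) b (hK' hb) hab⟩

end Pool.Agent.FanCross
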