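import Pool.Agent.FanCross.Block

/-!
# Complete bipartite subgraphs of dense graphs
-/

set_option autoImplicit false
set_option linter.unusedSectionVars false

namespace Pool.Agent.FanCross

variable {S : Type*} [DecidableEq S]

private theorem kst_aux (U W : Finset S) (X : S → Finset S) (e : ℕ) (hW : W.Nonempty)
    (hX : ∀ w ∈ W, X w ⊆ U) (hc : ∀ w ∈ W, U.card ≤ 2 ^ e * (X w).card) :
    ∀ k : ℕ, 2 ^ (e + 1 + k) ≤ U.card → ∃ B W' : Finset S, B ⊆ U ∧ W' ⊆ W ∧ B.card = k ∧
      W.card ≤ 2 ^ (k * (e + 1)) * W'.card ∧ ∀ x ∈ B, ∀ w ∈ W', x ∈ X w := by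
  intro k
  induction k with
  | zero =>
    intro _
    exact ⟨∅, W, Finset.empty_subset _, Finset.Subset.refl _, rfl, by simp, by simp⟩
  | succ k ih =>
    intro hU
    obtain ⟨B, W1, hB, hW1, hBc, hW1c, hBX⟩ := ih
      (le_trans (Nat.pow_le_pow_right (by norm_num) (by omega)) hU)
    have hUpos : 0 < U.card := lt_of_lt_of_le (by positivity) hU
    have hsmall : ∀ w ∈ W1, U.card ≤ 2 ^ (e + 1) * (X w \ B).card := by
      intro w hw
      have h1 := hc w (hW1 hw)
      have h2 : (X w).card ≤ (X w \ B).card + k := by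
        have h3 := Finset.le_card_sdiff B (X w)
        omega
      have h4 : k < 2 ^ k := Nat.lt_two_pow_self
      have h5 : 2 ^ (e + 1) * k ≤ U.card := by
        calc 2 ^ (e + 1) * k ≤ 2 ^ (e + 1) * 2 ^ (k + 1) :=
              Nat.mul_le_mul_left _ (h4.le.trans (Nat.pow_le_pow_right (by norm_num) (by omega)))
          _ = 2 ^ (e + 1 + (k + 1)) := by rw [← pow_add]
          _ ≤ U.card := hU
      have h6 : 2 * U.card ≤ 2 ^ (e + 1) * (X w).card := by
        calc 2 * U.card ≤ 2 * (2 ^ e * (X w).card) := Nat.mul_le_mul_left _ h1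
          _ = 2 ^ (e + 1) * (X w).card := by rw [pow_succ]; ring
      have h7 : 2 ^ (e + 1) * (X w).card ≤ 2 ^ (e + 1) * (X w \ B).card + 2 ^ (e + 1) * k := by
        rw [← Nat.mul_add]
        exact Nat.mul_le_mul_left _ h2
      omega
    obtain ⟨x, hxU, hx⟩ := block_popular U W1 (fun w => X w \ B) (e + 1) hUpos
      (fun w hw => Finset.sdiff_subset.trans (hX w (hW1 hw))) hsmall
    set W2 := W1.filter fun w => x ∈ X w \ B with hW2
    have hWpos : 0 < W.card := Finset.card_pos.mpr hW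
    have hW1pos : 0 < W1.card := by
      rcases Nat.eq_zero_or_pos W1.card with h | h
      · rw [h, mul_zero] at hW1c
        omega
      · exact h
    have hW2pos : 0 < W2.card := by
      rcases Nat.eq_zero_or_pos W2.card with h | h
      · rw [h, mul_zero] at hx
        omega
      · exact h
    obtain ⟨w0, hw0⟩ := Finset.card_pos.mp hW2pos
    have hxB : x ∉ B := (Finset.mem_sdiff.mp (Finset.mem_filter.mp hw0).2).2
    refine ⟨insert x B, W2, ?_, (Finset.filter_subset _ _).trans hW1, ?_, ?_, ?_⟩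
    · exact Finset.insert_subset hxU hB
    · rw [Finset.card_insert_of_notMem hxB, hBc]
    · calc W.card ≤ 2 ^ (k * (e + 1)) * W1.card := hW1c
        _ ≤ 2 ^ (k * (e + 1)) * (2 ^ (e + 1) * W2.card) := Nat.mul_le_mul_left _ hx
        _ = 2 ^ ((k + 1) * (e + 1)) * W2.card := by
            rw [← mul_assoc, ← pow_add]
            congr 2
            ring
    · intro y hy w hw
      rcases Finset.mem_insert.mp hy with rfl | hy
      · exact (Finset.mem_sdiff.mp (Finset.mem_filter.mp hw).2).1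
      · exact hBX y hy w (Finset.mem_filter.mp hw).1

theorem kst (W : Finset S) (G : S → S → Prop) [DecidableRel G] (p k : ℕ)
    (hG : W.card ^ 2 ≤ 2 ^ p * ((W ×ˢ W).filter fun q => G q.1 q.2).card)
    (hW : 2 ^ (p + 2 + k) ≤ W.card) :
    ∃ B W' : Finset S, B ⊆ W ∧ W' ⊆ W ∧ B.card = k ∧
      W.card ≤ 2 ^ ((k + 1) * (p + 3)) * W'.card ∧ ∀ x ∈ B, ∀ w ∈ W', G x w := by
  have hW0 : 0 < W.card := lt_of_lt_of_le (by positivity) hW
  have hdeg := block_degree W G p hG hW0
  set W0 := W.filter fun w => W.card ≤ 2 ^ (p + 1) * (W.filter fun y => G y w).card with hW0def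
  have hW0pos : 0 < W0.card := by
    rcases Nat.eq_zero_or_pos W0.card with h | h
    · rw [h, mul_zero] at hdeg
      omega
    · exact h
  obtain ⟨B, W', hB, hW', hBc, hcard, hBX⟩ := kst_aux W W0 (fun w => W.filter fun y => G y w)
    (p + 1) (Finset.card_pos.mp hW0pos) (fun w _ => Finset.filter_subset _ _)
    (fun w hw => (Finset.mem_filter.mp hw).2) k
    (by rw [show p + 1 + 1 + k = p + 2 + k by ring]; exact hW)
  refine ⟨B, W', hB, hW'.trans (Finset.filter_subset _ _), hBc, ?_,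
    fun x hx w hw => (Finset.mem_filter.mp (hBX x hx w hw)).2⟩
  calc W.card ≤ 2 ^ (p + 1) * W0.card := hdeg
    _ ≤ 2 ^ (p + 1) * (2 ^ (k * (p + 1 + 1)) * W'.card) := Nat.mul_le_mul_left _ hcard
    _ = 2 ^ (p + 1 + k * (p + 1 + 1)) * W'.card := by rw [← mul_assoc, ← pow_add]
    _ ≤ 2 ^ ((k + 1) * (p + 3)) * W'.card :=
        Nat.mul_le_mul_right _ (Nat.pow_le_pow_right (by norm_num) (by nlinarith))

end Pool.Agent.FanCross
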