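import Pool.Agent.FanCross.Trial
import Pool.Agent.FanCross.Kst

/-!
# One trial, cost linear in the size of `B`
-/

set_option autoImplicit false
set_option linter.unusedSectionVars false

namespace Pool.Agent.FanCross

variable {S : Type*} [DecidableEq S]

theorem trial2 (f : S → S → S → Bool) (hs : ∀ x y z, f x y z = f y x z) (A W : Finset S)
    (c : Bool) (u b : ℕ) (hA : 0 < A.card)
    (hd : A.card * W.card ^ 2 ≤ 2 ^ u * (dens f A W c).card)
    (hW : 2 ^ (u + 4 + A.card + b) ≤ W.card) :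
    ∃ A' B W' : Finset S, A' ⊆ A ∧ B ⊆ W ∧ W' ⊆ W ∧ A.card ≤ 2 ^ (u + 1) * A'.card ∧
      B.card = b ∧ W.card ≤ 2 ^ ((b + 1) * (u + 5 + A.card)) * W'.card ∧
      Disjoint B W' ∧ ∀ a ∈ A', ∀ y ∈ B, ∀ w ∈ W', f a y w = c := by
  have hW0 : 0 < W.card := lt_of_lt_of_le (by positivity) hW
  have h1 := trial_pairs f A W c u hA hd
  set T : S × S → Finset S := fun q => A.filter fun a => q.1 ≠ q.2 ∧ f a q.1 q.2 = c with hT
  set P := (W ×ˢ W).filter fun q => A.card ≤ 2 ^ (u + 1) * (T q).card with hP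
  have hPne : P.Nonempty := by
    rw [← Finset.card_pos]
    by_contra h2
    have h3 : P.card = 0 := by omega
    rw [h3, mul_zero] at h1
    have h4 : 0 < W.card ^ 2 := by positivity
    omega
  obtain ⟨A', hA', hpop⟩ := trial_pigeon P A T (fun q _ => Finset.filter_subset _ _) hPne
  obtain ⟨q0, hq0, hq0A⟩ := Finset.mem_image.mp hA'
  have hA'sub : A' ⊆ A := by
    rw [← hq0A]
    exact Finset.filter_subset _ _
  have hA'card : A.card ≤ 2 ^ (u + 1) * A'.card := by
    rw [← hq0A]
    exact (Finset.mem_filter.mp hq0).2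
  have hA'pos : 0 < A'.card := by
    rcases Nat.eq_zero_or_pos A'.card with h | h
    · rw [h, mul_zero] at hA'card
      omega
    · exact h
  obtain ⟨a0, ha0⟩ := Finset.card_pos.mp hA'pos
  classical
  let G : S → S → Prop := fun x y => x ≠ y ∧ ∀ a ∈ A', f a x y = c
  have hG : W.card ^ 2 ≤ 2 ^ (u + 1 + A.card) * ((W ×ˢ W).filter fun q => G q.1 q.2).card := by
    have h2 : (P.filter fun q => T q = A').card ≤
        ((W ×ˢ W).filter fun q => G q.1 q.2).card := by
      refine Finset.card_le_card fun q hq => ?_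
      obtain ⟨h3, h4⟩ := Finset.mem_filter.mp hq
      refine Finset.mem_filter.mpr ⟨(Finset.mem_filter.mp h3).1, ?_, ?_⟩
      · have h5 : a0 ∈ T q := by rw [h4]; exact ha0
        exact (Finset.mem_filter.mp h5).2.1
      · intro a ha
        have h5 : a ∈ T q := by rw [h4]; exact ha
        exact (Finset.mem_filter.mp h5).2.2
    calc W.card ^ 2 ≤ 2 ^ (u + 1) * P.card := h1
      _ ≤ 2 ^ (u + 1) * (2 ^ A.card * (P.filter fun q => T q = A').card) :=
          Nat.mul_le_mul_left _ hpop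
      _ ≤ 2 ^ (u + 1) * (2 ^ A.card * ((W ×ˢ W).filter fun q => G q.1 q.2).card) := by gcongr
      _ = _ := by rw [← mul_assoc, ← pow_add]
  obtain ⟨B, W', hB, hW', hBb, hcard, hBG⟩ := kst W G (u + 1 + A.card) b hG
    (le_trans (Nat.pow_le_pow_right (by norm_num) (by omega)) hW)
  refine ⟨A', B, W', hA'sub, hB, hW', hA'card, hBb, ?_, ?_, ?_⟩
  · refine hcard.trans (Nat.mul_le_mul_right _ (Nat.pow_le_pow_right (by norm_num) ?_))
    exact Nat.mul_le_mul_left _ (by omega)
  · rw [Finset.disjoint_left]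
    intro x hx hx'
    exact (hBG x hx x hx').1 rfl
  · intro a ha y hy w hw
    exact (hBG y hy w hw).2 a ha

end Pool.Agent.FanCross
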