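import Pool.Agent.FanCross.Main
import Pool.Agent.FanCross.Block2
import Pool.Agent.FanCross.Trial2

/-!
# Fans from grids

`x` is a grid in the links of all `w ∈ W`. `grid_fan`: there is a fan whose set `A` is contained in
a row (colour `true`) or a column (colour `false`) of the grid; `a` sets `B` are needed for the
colour `true`, `b` sets for the colour `false`; `a + b = n + 1`. `Y` is the set of the points of the
grid which are still there.

PROOF. Induction on `n`. `a = 0` or `b = 0`: as `t * m ≤ Y.card` some row (if `a = 0`) or column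
(if `b = 0`) has at least `m` points of `Y`; no set `B` is needed, `W' = W`. Now `a, b ≥ 1`.
`n = 1`, so `a = b = 1`: for `w ≠ w'` in `W` one colour `c` has at least `Y.card / 2 ≥ t * m`
points `p ∈ Y` with `f (x p) w w' = c`, and a row (`c = true`) or a column (`c = false`)
has at least `m` of them; choose a set `A w w'` of exactly `m` of them. There are at most
`2 * (t * t) ^ m ≤ 2 ^ (1 + 2 * τ * m)` values `(c, A)`, so the graph `G` of a popular value
satisfies `W.card ^ 2 ≤ 2 ^ (2 + 2 * τ * m) * card G` (`W.card ≥ 2`, so `W.card ^ 2` is at most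
twice the number of the ordered pairs with `w ≠ w'`). `kst` gives `B` and `W'`, at the cost `cR`.
`n ≥ 2`: let `A₀ = Y.image x`. For one colour `c`, `W.card ≥ 2`,
`A₀.card * W.card ^ 2 ≤ 2 ^ 2 * (dens f A₀ W c).card`. `trial2` with `u = 2` gives `A' ⊆ A₀`, `B`,
`W₁` with `Y.card ≤ 8 * A'.card`; take `Y' = {p ∈ Y : x p ∈ A'}`, and use the induction hypothesis
for `n - 1`, `(a - 1, b)` if `c = true` and `(a, b - 1)` if `c = false`, `Y'` and `W₁`; if the
colour of the result is `c` add `B` to the list (the symmetry `hs'` of `f` is used for the pairs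
of `B`s). `x` is injective by `IsGrid` (`W` is not empty).
-/

set_option autoImplicit false
set_option linter.unusedSectionVars false

namespace Pool.Agent.FanCross

variable {S : Type*} [DecidableEq S]

/-- Cost of a trial in a grid. -/
def cG (k t : ℕ) : ℕ := (k + 1) * (7 + t * t)

/-- Cost of the last trial in a grid. -/
def cR (m k τ : ℕ) : ℕ := (k + 1) * (2 * τ * m + 5)

/-- The cost of a fan in a grid. -/
def gc (m k t τ : ℕ) : ℕ → ℕ
  | 0 => 0
  | 1 => cR m k τ
  | n + 2 => cG k t + gc m k t τ (n + 1)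

/-- All points of `Z` are in one row (`true`) or in one column (`false`). -/
private def Line_GF {t : ℕ} (c : Bool) (Z : Finset (Fin t × Fin t)) : Prop :=
  ∀ p ∈ Z, ∀ q ∈ Z, (if c = true then p.1 else p.2) = (if c = true then q.1 else q.2)

private theorem line_GF {t : ℕ} (c : Bool) (m : ℕ) (ht1 : 1 ≤ t) (Y : Finset (Fin t × Fin t))
    (hY : t * m ≤ Y.card) : ∃ Z ⊆ Y, Z.card = m ∧ Line_GF c Z := by
  have h1 : ∃ y ∈ (Finset.univ : Finset (Fin t)),
      m ≤ (Y.filter fun p => (if c = true then p.1 else p.2) = y).card := by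
    refine Finset.exists_le_card_fiber_of_mul_le_card_of_maps_to
      (fun _ _ => Finset.mem_univ _) ⟨⟨0, ht1⟩, Finset.mem_univ _⟩ ?_
    rw [Finset.card_univ, Fintype.card_fin]
    exact hY
  obtain ⟨y, -, hy⟩ := h1
  obtain ⟨Z, hZ, hZc⟩ := Finset.exists_subset_card_eq hy
  exact ⟨Z, hZ.trans (Finset.filter_subset _ _), hZc, fun p hp q hq =>
    (Finset.mem_filter.mp (hZ hp)).2.trans (Finset.mem_filter.mp (hZ hq)).2.symm⟩

private theorem line_grid_GF {g : S → S → Bool} {t : ℕ} {x : Fin t × Fin t → S}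
    (hx : IsGrid g t x) {c : Bool} {Z : Finset (Fin t × Fin t)} (hZ : Line_GF c Z) :
    ∀ p ∈ Z, ∀ q ∈ Z, p ≠ q → g (x p) (x q) = c := by
  rintro ⟨i, j⟩ hp ⟨i', j'⟩ hq hne
  have h1 := hZ _ hp _ hq
  cases c
  · have h2 : j = j' := h1
    subst h2
    exact hx.2.2 i i' j (fun h => hne (by rw [h]))
  · have h2 : i = i' := h1
    subst h2
    exact hx.2.1 i j j' (fun h => hne (by rw [h]))

private theorem popular_GF {α β : Type*} [DecidableEq β] (s : Finset α) (g : α → β) (N : ℕ)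
    (hs : s.Nonempty) (hN : (s.image g).card ≤ N) :
    ∃ a ∈ s, s.card ≤ N * (s.filter fun y => g y = g a).card := by
  obtain ⟨v, hv, hmax⟩ := Finset.exists_max_image (s.image g)
    (fun v => (s.filter fun y => g y = v).card) (hs.image g)
  obtain ⟨a, ha, rfl⟩ := Finset.mem_image.mp hv
  refine ⟨a, ha, ?_⟩
  calc s.card ≤ (s.filter fun y => g y = g a).card * (s.image g).card :=
        Finset.card_le_mul_card_image s _ hmax
    _ ≤ (s.filter fun y => g y = g a).card * N := Nat.mul_le_mul_left _ hN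
    _ = _ := Nat.mul_comm _ _

private theorem offDiag_GF (W : Finset S) (hW : 2 ≤ W.card) :
    W.card ^ 2 ≤ 2 * W.offDiag.card := by
  rw [Finset.offDiag_card]
  have h1 : W.card * 2 ≤ W.card * W.card := Nat.mul_le_mul_left _ hW
  rw [pow_two]
  omega

private theorem dens_GF (f : S → S → S → Bool) (A W : Finset S) (hW : 2 ≤ W.card) :
    ∃ c, A.card * W.card ^ 2 ≤ 2 ^ 2 * (dens f A W c).card := by
  have h1 : A ×ˢ W.offDiag ⊆ dens f A W true ∪ dens f A W false := by
    rintro ⟨a, y, z⟩ hq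
    obtain ⟨h2, h3⟩ := Finset.mem_product.mp hq
    obtain ⟨h4, h5, h6⟩ := Finset.mem_offDiag.mp h3
    unfold dens
    rw [← Finset.filter_or, Finset.mem_filter]
    refine ⟨Finset.mem_product.mpr ⟨h2, Finset.mem_product.mpr ⟨h4, h5⟩⟩, ?_⟩
    show (y ≠ z ∧ f a y z = true) ∨ (y ≠ z ∧ f a y z = false)
    cases f a y z
    · exact Or.inr ⟨h6, rfl⟩
    · exact Or.inl ⟨h6, rfl⟩
  have h2 := (Finset.card_le_card h1).trans (Finset.card_union_le _ _)
  rw [Finset.card_product] at h2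
  have h3 := Nat.mul_le_mul_left A.card (offDiag_GF W hW)
  rcases le_total (dens f A W true).card (dens f A W false).card with h | h
  · refine ⟨false, ?_⟩
    calc A.card * W.card ^ 2 ≤ A.card * (2 * W.offDiag.card) := h3
      _ = 2 * (A.card * W.offDiag.card) := by ring
      _ ≤ _ := by omega
  · refine ⟨true, ?_⟩
    calc A.card * W.card ^ 2 ≤ A.card * (2 * W.offDiag.card) := h3
      _ = 2 * (A.card * W.offDiag.card) := by ring
      _ ≤ _ := by omega

private theorem count_GF {t τ m : ℕ} (ht : t ≤ 2 ^ τ)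
    (V : Finset (Bool × Finset (Fin t × Fin t))) (hV : ∀ v ∈ V, v.2.card = m) :
    V.card ≤ 2 ^ (1 + 2 * τ * m) := by
  have h1 : V ⊆ (Finset.univ : Finset Bool) ×ˢ
      (Finset.univ : Finset (Fin t × Fin t)).powersetCard m := by
    intro v hv
    exact Finset.mem_product.mpr ⟨Finset.mem_univ _, Finset.mem_powersetCard.mpr
      ⟨Finset.subset_univ _, hV v hv⟩⟩
  have h2 := Finset.card_le_card h1
  rw [Finset.card_product, Finset.card_powersetCard, Finset.card_univ, Finset.card_univ,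
    Fintype.card_bool, Fintype.card_prod, Fintype.card_fin] at h2
  calc V.card ≤ 2 * (t * t).choose m := h2
    _ ≤ 2 * (t * t) ^ m := Nat.mul_le_mul_left _ (Nat.choose_le_pow _ _)
    _ ≤ 2 * (2 ^ τ * 2 ^ τ) ^ m := by gcongr
    _ = 2 ^ (1 + 2 * τ * m) := by
        rw [← pow_add, ← pow_mul, pow_add 2 1, pow_one]
        congr 2
        ring

private theorem last_GF (f : S → S → S → Bool) (m k t τ : ℕ) (ht1 : 1 ≤ t) (ht : t ≤ 2 ^ τ)
    (x : Fin t × Fin t → S) (Y : Finset (Fin t × Fin t)) (W : Finset S) (θ : ℕ) (hθ : 1 ≤ θ)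
    (hY : 2 * (t * m) ≤ Y.card) (hW : 2 ^ cR m k τ * θ ≤ W.card) :
    ∃ (c : Bool) (Z : Finset (Fin t × Fin t)) (B W' : Finset S), Z ⊆ Y ∧ Z.card = m ∧
      Line_GF c Z ∧ B ⊆ W ∧ W' ⊆ W ∧ B.card = k ∧ θ ≤ W'.card ∧ Disjoint B W' ∧
      ∀ p ∈ Z, ∀ z ∈ B, ∀ w ∈ W', f (x p) z w = c := by
  have h0 : 2 ^ cR m k τ ≤ W.card := le_trans (Nat.le_mul_of_pos_right _ hθ) hW
  have h5 : 5 ≤ cR m k τ := by
    unfold cR
    have h1 := Nat.le_mul_of_pos_left (2 * τ * m + 5) (Nat.succ_pos k)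
    have h2 : k.succ = k + 1 := rfl
    rw [h2] at h1
    omega
  have hW2 : 2 ≤ W.card := by
    refine le_trans ?_ h0
    calc 2 = 2 ^ 1 := rfl
      _ ≤ _ := Nat.pow_le_pow_right (by norm_num) (by omega)
  have hoff : W.offDiag.Nonempty := by
    rw [← Finset.card_pos]
    have h1 := offDiag_GF W hW2
    have h2 : 0 < W.card ^ 2 := by positivity
    omega
  have hpat : ∀ q : S × S, ∃ v : Bool × Finset (Fin t × Fin t), v.2 ⊆ Y ∧ v.2.card = m ∧
      Line_GF v.1 v.2 ∧ ∀ p ∈ v.2, f (x p) q.1 q.2 = v.1 := by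
    intro q
    have h1 : Y ⊆ (Y.filter fun p => f (x p) q.1 q.2 = true) ∪
        Y.filter fun p => f (x p) q.1 q.2 = false := by
      intro p hp
      rw [← Finset.filter_or, Finset.mem_filter]
      refine ⟨hp, ?_⟩
      cases f (x p) q.1 q.2 <;> simp
    have h2 := (Finset.card_le_card h1).trans (Finset.card_union_le _ _)
    have h3 : ∃ c, t * m ≤ (Y.filter fun p => f (x p) q.1 q.2 = c).card := by
      rcases le_total (Y.filter fun p => f (x p) q.1 q.2 = true).card
        (Y.filter fun p => f (x p) q.1 q.2 = false).card with h | h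
      · exact ⟨false, by omega⟩
      · exact ⟨true, by omega⟩
    obtain ⟨c, hc⟩ := h3
    obtain ⟨Z, hZ, hZc, hZl⟩ := line_GF c m ht1 _ hc
    exact ⟨(c, Z), hZ.trans (Finset.filter_subset _ _), hZc, hZl, fun p hp =>
      (Finset.mem_filter.mp (hZ hp)).2⟩
  choose v hv1 hv2 hv3 hv4 using hpat
  obtain ⟨q0, hq0, hpop⟩ := popular_GF W.offDiag v (2 ^ (1 + 2 * τ * m)) hoff
    (count_GF ht _ (by
      intro w hw
      obtain ⟨q, -, rfl⟩ := Finset.mem_image.mp hw
      exact hv2 q))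
  classical
  let G : S → S → Prop := fun y z => y ≠ z ∧ ∀ p ∈ (v q0).2, f (x p) y z = (v q0).1
  have hG : W.card ^ 2 ≤ 2 ^ (2 + 2 * τ * m) * ((W ×ˢ W).filter fun q => G q.1 q.2).card := by
    have h2 : (W.offDiag.filter fun q => v q = v q0).card ≤
        ((W ×ˢ W).filter fun q => G q.1 q.2).card := by
      refine Finset.card_le_card fun q hq => ?_
      obtain ⟨h3, h4⟩ := Finset.mem_filter.mp hq
      obtain ⟨h5, h6, h7⟩ := Finset.mem_offDiag.mp h3
      refine Finset.mem_filter.mpr ⟨Finset.mem_product.mpr ⟨h5, h6⟩, h7, fun p hp => ?_⟩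
      have h8 := hv4 q p (by rw [h4]; exact hp)
      rw [h8, h4]
    calc W.card ^ 2 ≤ 2 * W.offDiag.card := offDiag_GF W hW2
      _ ≤ 2 * (2 ^ (1 + 2 * τ * m) * (W.offDiag.filter fun q => v q = v q0).card) :=
          Nat.mul_le_mul_left _ hpop
      _ ≤ 2 * (2 ^ (1 + 2 * τ * m) * ((W ×ˢ W).filter fun q => G q.1 q.2).card) := by gcongr
      _ = _ := by
          rw [pow_add 2 2, pow_add 2 1]
          ring
  obtain ⟨B, W', hB, hW', hBk, hcard, hBG⟩ := kst W G (2 + 2 * τ * m) k hG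
    (le_trans (Nat.pow_le_pow_right (by norm_num) (by
      unfold cR
      have h1 := Nat.zero_le (k * (2 * τ * m))
      nlinarith)) h0)
  refine ⟨(v q0).1, (v q0).2, B, W', hv1 q0, hv2 q0, hv3 q0, hB, hW', hBk, ?_, ?_, ?_⟩
  · have h1 : 2 ^ cR m k τ * θ ≤ 2 ^ cR m k τ * W'.card := by
      refine hW.trans (hcard.trans (le_of_eq ?_))
      congr 2
      unfold cR
      ring
    exact Nat.le_of_mul_le_mul_left h1 (by positivity)
  · rw [Finset.disjoint_left]
    intro y hy hy'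
    exact (hBG y hy y hy').1 rfl
  · intro p hp z hz w hw
    exact (hBG z hz w hw).2 p hp

private theorem aux_GF (f : S → S → S → Bool) (hs : ∀ x y z, f x y z = f y x z)
    (m k t τ : ℕ) (hm : 1 ≤ m) (ht1 : 1 ≤ t) (ht : t ≤ 2 ^ τ) (x : Fin t × Fin t → S)
    (hx : Function.Injective x) : ∀ (n a b : ℕ), a + b = n + 1 →
    ∀ (Y : Finset (Fin t × Fin t)) (W : Finset S) (θ : ℕ), 1 ≤ θ →
      t * m * 8 ^ n ≤ Y.card → 2 ^ gc m k t τ n * θ ≤ W.card →
      ∃ (c : Bool) (Z : Finset (Fin t × Fin t)) (Bs : List (Finset S)) (W' : Finset S),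
        Z ⊆ Y ∧ Z.card = m ∧ Line_GF c Z ∧ W' ⊆ W ∧ θ ≤ W'.card ∧
        Bs.length = (if c = true then a else b) ∧
        (∀ B ∈ Bs, B ⊆ W ∧ B.card = k ∧ Disjoint B W' ∧
          ∀ p ∈ Z, ∀ z ∈ B, ∀ w ∈ W', f (x p) z w = c) ∧
        Bs.Pairwise fun B B' => Disjoint B B' ∧
          ∀ p ∈ Z, ∀ z ∈ B, ∀ z' ∈ B', f (x p) z z' = c := by
  -- no set `B` is needed
  have hzero : ∀ (c : Bool) (n a b : ℕ) (Y : Finset (Fin t × Fin t)) (W : Finset S) (θ : ℕ),
      (if c = true then a else b) = 0 → t * m * 8 ^ n ≤ Y.card →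
      2 ^ gc m k t τ n * θ ≤ W.card →
      ∃ (c : Bool) (Z : Finset (Fin t × Fin t)) (Bs : List (Finset S)) (W' : Finset S),
        Z ⊆ Y ∧ Z.card = m ∧ Line_GF c Z ∧ W' ⊆ W ∧ θ ≤ W'.card ∧
        Bs.length = (if c = true then a else b) ∧
        (∀ B ∈ Bs, B ⊆ W ∧ B.card = k ∧ Disjoint B W' ∧
          ∀ p ∈ Z, ∀ z ∈ B, ∀ w ∈ W', f (x p) z w = c) ∧
        Bs.Pairwise fun B B' => Disjoint B B' ∧
          ∀ p ∈ Z, ∀ z ∈ B, ∀ z' ∈ B', f (x p) z z' = c := by
    intro c n a b Y W θ h0 hY hW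
    obtain ⟨Z, hZ, hZc, hZl⟩ := line_GF c m ht1 Y
      (le_trans (Nat.le_mul_of_pos_right _ (by positivity)) hY)
    exact ⟨c, Z, [], W, hZ, hZc, hZl, Finset.Subset.refl _,
      le_trans (Nat.le_mul_of_pos_left _ (by positivity)) hW, h0.symm, by simp,
      List.Pairwise.nil⟩
  intro n
  induction n with
  | zero =>
    intro a b hab Y W θ hθ hY hW
    rcases Nat.eq_zero_or_pos a with ha | ha
    · exact hzero true 0 a b Y W θ ha hY hW
    · exact hzero false 0 a b Y W θ (show b = 0 by omega) hY hW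
  | succ n ih =>
    intro a b hab Y W θ hθ hY hW
    rcases Nat.eq_zero_or_pos a with ha | ha
    · exact hzero true _ a b Y W θ ha hY hW
    rcases Nat.eq_zero_or_pos b with hb | hb
    · exact hzero false _ a b Y W θ hb hY hW
    rcases Nat.eq_zero_or_pos n with hn | hn
    · subst hn
      have ha1 : a = 1 := by omega
      have hb1 : b = 1 := by omega
      subst ha1 hb1
      obtain ⟨c, Z, B, W', h1, h2, h3, h4, h5, h6, h7, h8, h9⟩ :=
        last_GF f m k t τ ht1 ht x Y W θ hθ (by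
          refine le_trans ?_ hY
          rw [Nat.mul_comm]
          exact Nat.mul_le_mul_left _ (by norm_num)) hW
      refine ⟨c, Z, [B], W', h1, h2, h3, h5, h7, by simp, ?_, List.pairwise_singleton _ _⟩
      intro B' hB'
      rw [List.mem_singleton.mp hB']
      exact ⟨h4, h6, h8, h9⟩
    · obtain ⟨n, rfl⟩ : ∃ n', n = n' + 1 := ⟨n - 1, by omega⟩
      have hgc : gc m k t τ (n + 1 + 1) = cG k t + gc m k t τ (n + 1) := rfl
      rw [hgc] at hW
      have hA0 : (Y.image x).card = Y.card := Finset.card_image_of_injective _ hx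
      have hYt : Y.card ≤ t * t := by
        refine (Finset.card_le_univ _).trans (le_of_eq ?_)
        rw [Fintype.card_prod, Fintype.card_fin]
      have hYpos : 0 < Y.card := lt_of_lt_of_le (by positivity) hY
      have hWbig : 2 ^ cG k t ≤ W.card := by
        refine le_trans ?_ hW
        rw [pow_add, mul_assoc]
        exact Nat.le_mul_of_pos_right _ (Nat.mul_pos (by positivity) hθ)
      have hW2 : 2 ≤ W.card := by
        refine le_trans ?_ hWbig
        calc 2 = 2 ^ 1 := rfl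
          _ ≤ _ := Nat.pow_le_pow_right (by norm_num) (by unfold cG; nlinarith)
      obtain ⟨c, hc⟩ := dens_GF f (Y.image x) W hW2
      obtain ⟨A', B, W1, hA', hB, hW1, hA'c, hBk, hW1c, hd1, hBW⟩ :=
        trial2 f hs (Y.image x) W c 2 k (by rw [hA0]; exact hYpos) hc
          (le_trans (Nat.pow_le_pow_right (by norm_num) (by
            rw [hA0]
            unfold cG
            nlinarith)) hWbig)
      rw [hA0] at hA'c hW1c
      set Y' := Y.filter fun p => x p ∈ A' with hY'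
      have hA'Y' : A'.card ≤ Y'.card := by
        have h1 : A' ⊆ Y'.image x := by
          intro y hy
          obtain ⟨p, hp, rfl⟩ := Finset.mem_image.mp (hA' hy)
          exact Finset.mem_image_of_mem _ (Finset.mem_filter.mpr ⟨hp, hy⟩)
        exact (Finset.card_le_card h1).trans Finset.card_image_le
      have hY'c : t * m * 8 ^ (n + 1) ≤ Y'.card := by
        have h1 : 8 * (t * m * 8 ^ (n + 1)) ≤ 8 * Y'.card := by
          calc 8 * (t * m * 8 ^ (n + 1)) = t * m * 8 ^ (n + 1 + 1) := by ring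
            _ ≤ Y.card := hY
            _ ≤ 2 ^ (2 + 1) * A'.card := hA'c
            _ ≤ 8 * Y'.card := Nat.mul_le_mul_left _ hA'Y'
        omega
      have hW1big : 2 ^ gc m k t τ (n + 1) * θ ≤ W1.card := by
        have h1 : 2 ^ cG k t * (2 ^ gc m k t τ (n + 1) * θ) ≤ 2 ^ cG k t * W1.card := by
          calc 2 ^ cG k t * (2 ^ gc m k t τ (n + 1) * θ)
              = 2 ^ (cG k t + gc m k t τ (n + 1)) * θ := by rw [pow_add, mul_assoc]
            _ ≤ W.card := hW
            _ ≤ 2 ^ ((k + 1) * (2 + 5 + Y.card)) * W1.card := hW1c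
            _ ≤ 2 ^ cG k t * W1.card := by
                refine Nat.mul_le_mul_right _ (Nat.pow_le_pow_right (by norm_num) ?_)
                unfold cG
                exact Nat.mul_le_mul_left _ (by omega)
        exact Nat.le_of_mul_le_mul_left h1 (by positivity)
      obtain ⟨a', b', hab', hcount⟩ : ∃ a' b' : ℕ, a' + b' = n + 1 + 1 ∧
          ∀ c' : Bool, (if c' = true then a else b) =
            (if c' = true then a' else b') + (if c' = c then 1 else 0) := by
        cases c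
        · refine ⟨a, b - 1, by omega, fun c' => ?_⟩
          cases c'
          · show b = b - 1 + 1
            omega
          · rfl
        · refine ⟨a - 1, b, by omega, fun c' => ?_⟩
          cases c'
          · rfl
          · show a = a - 1 + 1
            omega
      obtain ⟨c', Z, Bs, W', h1, h2, h3, h4, h5, h6, h7, h8⟩ :=
        ih a' b' hab' Y' W1 θ hθ hY'c hW1big
      have hZA' : ∀ p ∈ Z, x p ∈ A' := fun p hp => (Finset.mem_filter.mp (h1 hp)).2
      by_cases hcc : c' = c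
      · subst hcc
        refine ⟨c', Z, B :: Bs, W', h1.trans (Finset.filter_subset _ _), h2, h3, h4.trans hW1,
          h5, ?_, ?_, ?_⟩
        · rw [List.length_cons, h6, hcount, if_pos (rfl : c' = c')]
        · intro B' hB'
          rcases List.mem_cons.mp hB' with rfl | hB'
          · exact ⟨hB, hBk, hd1.mono_right h4, fun p hp z hz w hw =>
              hBW _ (hZA' p hp) z hz w (h4 hw)⟩
          · obtain ⟨e1, e2, e3, e4⟩ := h7 B' hB'
            exact ⟨e1.trans hW1, e2, e3, e4⟩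
        · rw [List.pairwise_cons]
          refine ⟨fun B' hB' => ?_, h8⟩
          obtain ⟨e1, -, -, -⟩ := h7 B' hB'
          exact ⟨hd1.mono_right e1, fun p hp z hz z' hz' =>
            hBW _ (hZA' p hp) z hz z' (e1 hz')⟩
      · refine ⟨c', Z, Bs, W', h1.trans (Finset.filter_subset _ _), h2, h3, h4.trans hW1,
          h5, ?_, ?_, h8⟩
        · rw [h6, hcount, if_neg hcc, Nat.add_zero]
        · intro B' hB'
          obtain ⟨e1, e2, e3, e4⟩ := h7 B' hB'
          exact ⟨e1.trans hW1, e2, e3, e4⟩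

theorem grid_fan (f : S → S → S → Bool) (hs : ∀ x y z, f x y z = f y x z)
    (hs' : ∀ x y z, f x y z = f x z y) (m k t τ : ℕ) (hm : 1 ≤ m) (ht1 : 1 ≤ t) (ht : t ≤ 2 ^ τ)
    (x : Fin t × Fin t → S) : ∀ (n a b : ℕ), a + b = n + 1 →
    ∀ (Y : Finset (Fin t × Fin t)) (W : Finset S) (θ : ℕ), 1 ≤ θ →
      (∀ w ∈ W, IsGrid (fun y z => f y z w) t x) → t * m * 8 ^ n ≤ Y.card →
      2 ^ gc m k t τ n * θ ≤ W.card →
      ∃ (c : Bool) (A : Finset S) (Bs : List (Finset S)) (W' : Finset S), A ⊆ Y.image x ∧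
        A.card = m ∧ W' ⊆ W ∧ θ ≤ W'.card ∧ Bs.length = (if c = true then a else b) ∧
        (∀ y ∈ A, ∀ y' ∈ A, y ≠ y' → ∀ w ∈ W, f y y' w = c) ∧
        (∀ B ∈ Bs, B ⊆ W ∧ B.card = k ∧ Disjoint B W' ∧
          ∀ y ∈ A, ∀ z ∈ B, ∀ w ∈ W', f y z w = c) ∧
        Bs.Pairwise fun B B' => Disjoint B B' ∧ ∀ y ∈ A, ∀ z ∈ B, ∀ z' ∈ B', f y z z' = c := by
  intro n a b hab Y W θ hθ hG hY hW
  have hWpos : 0 < W.card := lt_of_lt_of_le (Nat.mul_pos (by positivity) hθ) hW
  obtain ⟨w0, hw0⟩ := Finset.card_pos.mp hWpos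
  obtain ⟨c, Z, Bs, W', h1, h2, h3, h4, h5, h6, h7, h8⟩ :=
    aux_GF f hs m k t τ hm ht1 ht x (hG w0 hw0).1 n a b hab Y W θ hθ hY hW
  refine ⟨c, Z.image x, Bs, W', Finset.image_subset_image h1, ?_, h4, h5, h6, ?_, ?_, ?_⟩
  · rw [Finset.card_image_of_injective _ (hG w0 hw0).1, h2]
  · intro y hy y' hy' hne w hw
    obtain ⟨p, hp, rfl⟩ := Finset.mem_image.mp hy
    obtain ⟨q, hq, rfl⟩ := Finset.mem_image.mp hy'
    exact line_grid_GF (hG w hw) h3 p hp q hq (fun h => hne (by rw [h]))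
  · intro B hB
    obtain ⟨e1, e2, e3, e4⟩ := h7 B hB
    refine ⟨e1, e2, e3, fun y hy z hz w hw => ?_⟩
    obtain ⟨p, hp, rfl⟩ := Finset.mem_image.mp hy
    exact e4 p hp z hz w hw
  · refine h8.imp fun {B B'} h => ⟨h.1, fun y hy z hz z' hz' => ?_⟩
    obtain ⟨p, hp, rfl⟩ := Finset.mem_image.mp hy
    exact h.2 p hp z hz z' hz'

/-- A grid contains a fan. -/
theorem grid_hasFan (f : S → S → S → Bool) (hs : ∀ x y z, f x y z = f y x z)
    (hs' : ∀ x y z, f x y z = f x z y) (d m k t τ : ℕ) (hd : 2 ≤ d) (hm : 1 ≤ m) (hk : 1 ≤ k)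
    (ht : t ≤ 2 ^ τ) (htm : m * 8 ^ (2 * d - 3) ≤ t) (x : Fin t × Fin t → S) (W : Finset S)
    (hx : ∀ p, x p ∉ W) (hW : ∀ w ∈ W, IsGrid (fun y z => f y z w) t x)
    (hWc : 2 ^ gc m k t τ (2 * d - 3) * k ≤ W.card) : HasFan f m k d := by
  have ht1 : 1 ≤ t := le_trans (Nat.mul_pos hm (by positivity)) htm
  obtain ⟨c, A, Bs, W', hA, hAc, hW', hW'c, hlen, hAA, hB, hBB⟩ :=
    grid_fan f hs hs' m k t τ hm ht1 ht x (2 * d - 3) (d - 1) (d - 1) (by omega) Finset.univ W k
      hk hW (by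
        rw [Finset.card_univ, Fintype.card_prod, Fintype.card_fin, mul_assoc]
        exact Nat.mul_le_mul_left _ htm) hWc
  obtain ⟨B0, hB0, hB0c⟩ := Finset.exists_subset_card_eq hW'c
  have hdis : ∀ B ⊆ W, Disjoint A B := by
    intro B hBW
    rw [Finset.disjoint_left]
    intro y hy hy'
    obtain ⟨p, -, rfl⟩ := Finset.mem_image.mp (hA hy)
    exact hx p (hBW hy')
  refine ⟨c, A, B0 :: Bs, ?_, hAc, ?_, ?_⟩
  · rw [List.length_cons, hlen, ite_self]
    omega
  · intro B hB'
    rcases List.mem_cons.mp hB' with rfl | hB'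
    · exact ⟨hB0c, hdis _ (hB0.trans hW'), fun y hy y' hy' hne w hw =>
        hAA y hy y' hy' hne w (hW' (hB0 hw))⟩
    · obtain ⟨h1, h2, -, -⟩ := hB B hB'
      exact ⟨h2, hdis B h1, fun y hy y' hy' hne w hw => hAA y hy y' hy' hne w (h1 hw)⟩
  · rw [List.pairwise_cons]
    refine ⟨fun B hB' => ?_, hBB⟩
    obtain ⟨h1, -, h3, h4⟩ := hB B hB'
    refine ⟨(h3.mono_right hB0).symm, fun y hy z hz z' hz' => ?_⟩
    rw [hs']
    exact h4 y hy z' hz' z (hB0 hz)

end Pool.Agent.FanCross
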