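import Pool.Agent.FanCross.Main
import Pool.Agent.FanCross.Trial2

/-!
# Fans with long parts

`grow_exists`: in every large set there are a set `A` of size `m`, sets `B 1, ..., B e` of size `k`
and a large set `Z` such that all triples `a, a', b` and all triples `a, b, b'` (`b`, `b'` in two
different sets among `B i`, `Z`) have one colour. The cost is linear in `k`.
-/

set_option autoImplicit false
set_option linter.unusedSectionVars false

namespace Pool.Agent.FanCross

variable {S : Type*} [DecidableEq S]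

/-- A fan with a large last part. -/
def BigFan (f : S → S → S → Bool) (m k e n T : ℕ) : Prop :=
  ∃ (c : Bool) (A : Finset S) (Bs : List (Finset S)) (Z : Finset S), Bs.length = e ∧
    Fan f c m k A Bs ∧ Disjoint A Z ∧ (∀ x ∈ A, ∀ x' ∈ A, x ≠ x' → ∀ z ∈ Z, f x x' z = c) ∧
    (∀ B ∈ Bs, Disjoint B Z ∧ ∀ x ∈ A, ∀ y ∈ B, ∀ z ∈ Z, f x y z = c) ∧ n ≤ 2 ^ T * Z.card

theorem BigFan.mono {f : S → S → S → Bool} {m k e n n' T T' : ℕ} (h : BigFan f m k e n' T')
    {c : ℕ} (hn : n ≤ 2 ^ c * n') (hT : c + T' ≤ T) : BigFan f m k e n T := by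
  obtain ⟨c', A, Bs, Z, h1, h2, h3, h4, h5, h6⟩ := h
  refine ⟨c', A, Bs, Z, h1, h2, h3, h4, h5, ?_⟩
  calc n ≤ 2 ^ c * n' := hn
    _ ≤ 2 ^ c * (2 ^ T' * Z.card) := Nat.mul_le_mul_left _ h6
    _ = 2 ^ (c + T') * Z.card := by rw [pow_add]; ring
    _ ≤ 2 ^ T * Z.card := Nat.mul_le_mul_right _ (Nat.pow_le_pow_right (by norm_num) hT)

/-- A block with the sets attached to it. -/
structure Gbl (S : Type*) where
  V : Finset S
  N : ℕ
  c : Bool
  Bs : List (Finset S)

/-- The block without the attached sets. -/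
def Gbl.blk (b : Gbl S) : Blk S := ⟨b.V, b.N, b.c⟩

/-- The properties of a block and its attached sets. -/
structure GInv (f : S → S → S → Bool) (k : ℕ) (W : Finset S) (b : Gbl S) : Prop where
  clique : ∀ v ∈ b.V, ∀ v' ∈ b.V, v ≠ v' → ∀ w ∈ W, f v v' w = b.c
  disj : Disjoint b.V W
  card : ∀ B ∈ b.Bs, B.card = k
  disjW : ∀ B ∈ b.Bs, Disjoint B W
  disjV : ∀ B ∈ b.Bs, Disjoint b.V B
  vvB : ∀ B ∈ b.Bs, ∀ v ∈ b.V, ∀ v' ∈ b.V, v ≠ v' → ∀ y ∈ B, f v v' y = b.c
  vBW : ∀ B ∈ b.Bs, ∀ v ∈ b.V, ∀ y ∈ B, ∀ w ∈ W, f v y w = b.c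
  pair : b.Bs.Pairwise fun B B' => Disjoint B B' ∧
    ∀ v ∈ b.V, ∀ y ∈ B, ∀ y' ∈ B', f v y y' = b.c

theorem GInv.mono {f : S → S → S → Bool} {k : ℕ} {W W' : Finset S} {b : Gbl S}
    (h : GInv f k W b) (hW : W' ⊆ W) {V' : Finset S} (N' : ℕ) (hV : V' ⊆ b.V) :
    GInv f k W' ⟨V', N', b.c, b.Bs⟩ where
  clique v hv v' hv' hne w hw := h.clique v (hV hv) v' (hV hv') hne w (hW hw)
  disj := (h.disj.mono_left hV).mono_right hW
  card := h.card
  disjW B hB := (h.disjW B hB).mono_right hW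
  disjV B hB := (h.disjV B hB).mono_left hV
  vvB B hB v hv v' hv' hne y hy := h.vvB B hB v (hV hv) v' (hV hv') hne y hy
  vBW B hB v hv y hy w hw := h.vBW B hB v (hV hv) y hy w (hW hw)
  pair := h.pair.imp fun h' => ⟨h'.1, fun v hv => h'.2 v (hV hv)⟩

theorem GInv.attach {f : S → S → S → Bool} (hs' : ∀ x y z, f x y z = f x z y) {k : ℕ}
    {W W' : Finset S} {b : Gbl S} (h : GInv f k W b) (hW : W' ⊆ W) {V' B : Finset S} (N' : ℕ)
    (hV : V' ⊆ b.V) (hB : B ⊆ W) (hBc : B.card = k) (hBW : Disjoint B W')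
    (hcol : ∀ v ∈ V', ∀ y ∈ B, ∀ w ∈ W', f v y w = b.c) :
    GInv f k W' ⟨V', N', b.c, B :: b.Bs⟩ where
  clique v hv v' hv' hne w hw := h.clique v (hV hv) v' (hV hv') hne w (hW hw)
  disj := (h.disj.mono_left hV).mono_right hW
  card := by
    intro B' hB'
    rcases List.mem_cons.1 hB' with rfl | hB'
    · exact hBc
    · exact h.card B' hB'
  disjW := by
    intro B' hB'
    rcases List.mem_cons.1 hB' with rfl | hB'
    · exact hBW
    · exact (h.disjW B' hB').mono_right hW
  disjV := by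
    intro B' hB'
    rcases List.mem_cons.1 hB' with rfl | hB'
    · exact (h.disj.mono_left hV).mono_right hB
    · exact (h.disjV B' hB').mono_left hV
  vvB := by
    intro B' hB' v hv v' hv' hne y hy
    rcases List.mem_cons.1 hB' with rfl | hB'
    · exact h.clique v (hV hv) v' (hV hv') hne y (hB hy)
    · exact h.vvB B' hB' v (hV hv) v' (hV hv') hne y hy
  vBW := by
    intro B' hB' v hv y hy w hw
    rcases List.mem_cons.1 hB' with rfl | hB'
    · exact hcol v hv y hy w hw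
    · exact h.vBW B' hB' v (hV hv) y hy w (hW hw)
  pair := by
    refine List.pairwise_cons.2 ⟨fun B' hB' => ⟨?_, fun v hv y hy y' hy' => ?_⟩,
      h.pair.imp fun h' => ⟨h'.1, fun v hv => h'.2 v (hV hv)⟩⟩
    · exact ((h.disjW B' hB').mono_right hB).symm
    · rw [hs']
      exact h.vBW B' hB' v (hV hv) y' hy' y (hB hy)

theorem GInv.fan {f : S → S → S → Bool} {k m : ℕ} {W : Finset S} {b : Gbl S}
    (h : GInv f k W b) (hm : m ≤ b.V.card) : BigFan f m k b.Bs.length W.card 0 := by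
  obtain ⟨A, hA, hAc⟩ := Finset.exists_subset_card_eq hm
  refine ⟨b.c, A, b.Bs, W, rfl, ⟨hAc, fun B hB => ⟨h.card B hB, (h.disjV B hB).mono_left hA,
    fun x hx x' hx' hne y hy => h.vvB B hB x (hA hx) x' (hA hx') hne y hy⟩,
    h.pair.imp fun h' => ⟨h'.1, fun v hv => h'.2 v (hA hv)⟩⟩, h.disj.mono_left hA,
    fun x hx x' hx' hne z hz => h.clique x (hA hx) x' (hA hx') hne z hz,
    fun B hB => ⟨h.disjW B hB, fun x hx => h.vBW B hB x (hA hx)⟩, by simp⟩

/-- The sizes of a block after `t` refinements. -/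
structure GSize (m e d q K t : ℕ) (b : Gbl S) : Prop where
  lenB : b.Bs.length + 2 ≤ d
  big : m * (2 ^ e) ^ (d - 1 - b.Bs.length) ≤ b.N
  loss : q * b.N ≤ q * b.V.card + t * b.N
  leN : b.V.card ≤ b.N
  leK : b.V.card ≤ K

/-- The relation between a newer and an older block. -/
def GCross (f : S → S → S → Bool) (W : Finset S) (b' b : Gbl S) : Prop :=
  Disjoint b'.V b.V ∧ ∀ v ∈ b.V, ∀ v' ∈ b'.V, ∀ w ∈ W, f v v' w = !b.c

/-- A state of the process. -/
structure GSt (f : S → S → S → Bool) (k m e d q K : ℕ) (W : Finset S) (L : List (Gbl S)) :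
    Prop where
  inv : ∀ b ∈ L, GInv f k W b
  size : ∀ b ∈ L, GSize m e d q K L.length b
  cross : L.Pairwise (GCross f W)

/-- The number of steps made. -/
def meas (L : List (Gbl S)) : ℕ := (L.map fun b => b.Bs.length + 1).sum

theorem meas_le {m e d q K t : ℕ} : ∀ {L : List (Gbl S)}, (∀ b ∈ L, GSize m e d q K t b) →
    meas L ≤ L.length * (d - 1) := by
  intro L h
  have h1 := List.sum_le_card_nsmul (L.map fun b => b.Bs.length + 1) (d - 1) (by
    intro x hx
    obtain ⟨b, hb, rfl⟩ := List.mem_map.1 hx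
    have := (h b hb).lenB
    omega)
  rwa [List.length_map, smul_eq_mul] at h1

private theorem grow_sum {m e d q K t : ℕ} {L : List (Gbl S)}
    (h : ∀ b ∈ L, GSize m e d q K t b) :
    ((L.map Gbl.blk).map fun b => b.V.card).sum ≤ L.length * K := by
  have h1 := List.sum_le_card_nsmul ((L.map Gbl.blk).map fun b => b.V.card) K (by
    intro x hx
    obtain ⟨b', hb', rfl⟩ := List.mem_map.1 hx
    obtain ⟨b, hb, rfl⟩ := List.mem_map.1 hb'
    exact (h b hb).leK)
  rwa [List.length_map, List.length_map, smul_eq_mul] at h1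

/-- Adding a block. -/
theorem grow_add (f : S → S → S → Bool) (hs : ∀ x y z, f x y z = f y x z)
    (k m e d q K R D : ℕ) (hd : 2 ≤ d) (hq : 0 < q) (hD : 4 * (R + 1) * q ≤ D)
    (hK : K = m * (2 ^ e) ^ (d - 1)) {W : Finset S} {L : List (Gbl S)}
    (hst : GSt f k m e d q K W L) (hL : L.length < R)
    (hrare : ∀ b ∈ L, D * (dens f b.V W b.c).card ≤ b.N * W.card ^ 2)
    (hW : 2 ^ (2 + R * K + 4 * K) ≤ W.card) :
    ∃ (W' : Finset S) (L' : List (Gbl S)), GSt f k m e d q K W' L' ∧ L'.length = L.length + 1 ∧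
      meas L' = meas L + 1 ∧
      W.card ≤ 2 ^ (2 + R * K + 2 * K * (2 + R * K + 2 * K)) * W'.card := by
  have hsum : ((L.map Gbl.blk).map fun b => b.V.card).sum ≤ R * K :=
    (grow_sum hst.size).trans (Nat.mul_le_mul_right _ hL.le)
  obtain ⟨r, G, hdec, hr1, hr2, hGd, hG⟩ := refine f q D (L.map Gbl.blk) W hq
    (by rw [List.length_map]; exact (Nat.mul_le_mul_right _ (by omega)).trans hD)
    (by
      intro b hb
      obtain ⟨b', hb', rfl⟩ := List.mem_map.1 hb
      exact hrare b' hb')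
    (by
      refine le_trans ?_ hW
      calc 4 = 2 ^ 2 := by norm_num
        _ ≤ _ := Nat.pow_le_pow_right (by norm_num) (by omega))
  obtain ⟨A, W', c, hA, hW', hAc, hWc, hAW, hAA⟩ := block_in_graph f hs W G
    (1 + ((L.map Gbl.blk).map fun b => b.V.card).sum) K hGd
    (le_trans (Nat.pow_le_pow_right (by norm_num) (by omega)) hW)
  have hAW' : Disjoint A W' := by
    rw [Finset.disjoint_left]
    intro x hx hx'
    exact (hG x x (hAW x hx x hx')).1 rfl
  set upd : Gbl S → Gbl S := fun b => ⟨(r b.blk).V, b.N, b.c, b.Bs⟩ with hupd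
  have hV : ∀ b : Gbl S, (r b.blk).V ⊆ b.V := fun b => (hr1 b.blk).2.2
  refine ⟨W', ⟨A, K, c, []⟩ :: L.map upd, ⟨?_, ?_, ?_⟩, ?_, ?_, ?_⟩
  · intro b hb
    rcases List.mem_cons.1 hb with rfl | hb
    · refine ⟨hAA, hAW', ?_, ?_, ?_, ?_, ?_, List.Pairwise.nil⟩ <;>
        · intro B hB
          simp at hB
    · obtain ⟨b', hb', rfl⟩ := List.mem_map.1 hb
      exact (hst.inv b' hb').mono hW' _ (hV b')
  · intro b hb
    rw [List.length_cons, List.length_map]
    rcases List.mem_cons.1 hb with rfl | hb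
    · refine ⟨by simpa using hd, ?_, ?_, hAc.le, hAc.le⟩
      · simp only [List.length_nil, Nat.sub_zero]
        exact hK.ge
      · show q * K ≤ q * A.card + (L.length + 1) * K
        rw [hAc]
        exact Nat.le_add_right _ _
    · obtain ⟨b', hb', rfl⟩ := List.mem_map.1 hb
      obtain ⟨h1, h2, h3, h4, h6⟩ := hst.size b' hb'
      refine ⟨h1, h2, ?_, (Finset.card_le_card (hV b')).trans h4,
        (Finset.card_le_card (hV b')).trans h6⟩
      show q * b'.N ≤ q * (r b'.blk).V.card + (L.length + 1) * b'.N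
      have h5 : q * b'.V.card ≤ q * (r b'.blk).V.card + b'.N :=
        hr2 b'.blk (List.mem_map.2 ⟨b', hb', rfl⟩)
      rw [Nat.add_mul, Nat.one_mul]
      omega
  · refine List.pairwise_cons.2 ⟨?_, ?_⟩
    · intro b hb
      obtain ⟨b', hb', rfl⟩ := List.mem_map.1 hb
      refine ⟨?_, ?_⟩
      · exact (((hst.inv b' hb').disj.mono_left (hV b')).mono_right hA).symm
      · intro v hv v' hv' w hw
        exact (hG v' w (hAW v' hv' w hw)).2 b'.blk (List.mem_map.2 ⟨b', hb', rfl⟩) v hv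
    · refine List.pairwise_map.2 (hst.cross.imp fun {b1 b2} h => ⟨?_, ?_⟩)
      · exact (h.1.mono_left (hV b1)).mono_right (hV b2)
      · intro v hv v' hv' w hw
        exact h.2 v (hV b2 hv) v' (hV b1 hv') w (hW' hw)
  · rw [List.length_cons, List.length_map]
  · show ((⟨A, K, c, []⟩ :: L.map upd).map fun b : Gbl S => b.Bs.length + 1).sum = _
    rw [List.map_cons, List.sum_cons, List.map_map]
    show 0 + 1 + (L.map fun b => b.Bs.length + 1).sum = meas L + 1
    rw [meas, zero_add, add_comm]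
  · refine hWc.trans (Nat.mul_le_mul_right _ (Nat.pow_le_pow_right (by norm_num) ?_))
    have h1 : 1 + ((L.map Gbl.blk).map fun b => b.V.card).sum + 1 ≤ 2 + R * K := by omega
    have h2 : 2 * K * (1 + ((L.map Gbl.blk).map fun b => b.V.card).sum + 1 + 2 * K) ≤
        2 * K * (2 + R * K + 2 * K) := Nat.mul_le_mul_left _ (by omega)
    omega

/-- A block keeps at least half of its elements. -/
theorem GSize.half {m e d q K t : ℕ} {b : Gbl S} (h : GSize m e d q K t b) (hq : 0 < q)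
    (ht : 2 * t ≤ q) : b.N ≤ 2 * b.V.card := by
  have h1 := h.loss
  have h2 : 2 * t * b.N ≤ q * b.N := Nat.mul_le_mul_right _ ht
  have h3 : q * b.N ≤ q * (2 * b.V.card) := by nlinarith
  exact Nat.le_of_mul_le_mul_left h3 hq

/-- A trial for a block in which its colour is not rare. -/
theorem grow_up (f : S → S → S → Bool) (hs : ∀ x y z, f x y z = f y x z)
    (hs' : ∀ x y z, f x y z = f x z y) (k m u d q K R D : ℕ) (hm : 1 ≤ m) (hq : 0 < q)
    (hqR : 2 * R ≤ q) (hDu : D ≤ 2 ^ u) {W : Finset S} {L : List (Gbl S)}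
    (hst : GSt f k m (u + 2) d q K W L) (hL : L.length ≤ R) {b : Gbl S} (hb : b ∈ L)
    {W1 : Finset S} (hW1 : W1 ⊆ W)
    (hdens : b.N * W1.card ^ 2 < D * (dens f b.V W1 b.c).card)
    (hW : 2 ^ (u + 4 + K + k) ≤ W1.card) :
    BigFan f m k (d - 1) W1.card ((k + 1) * (u + 5 + K)) ∨
    ∃ (W' : Finset S) (L' : List (Gbl S)), GSt f k m (u + 2) d q K W' L' ∧
      L'.length = L.length ∧ meas L' = meas L + 1 ∧
      W1.card ≤ 2 ^ ((k + 1) * (u + 5 + K)) * W'.card := by
  have hsz := hst.size b hb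
  have hhalf : b.N ≤ 2 * b.V.card := hsz.half hq (le_trans (by omega) hqR)
  have hN : 1 ≤ b.N := le_trans (Nat.mul_pos hm (by positivity)) hsz.big
  obtain ⟨A', B, W', hA', hB, hW', hAc, hBc, hWc, hdis, hcol⟩ := trial2 f hs b.V W1 b.c u k
    (by omega)
    (by
      calc b.V.card * W1.card ^ 2 ≤ b.N * W1.card ^ 2 := Nat.mul_le_mul_right _ hsz.leN
        _ ≤ D * (dens f b.V W1 b.c).card := hdens.le
        _ ≤ 2 ^ u * (dens f b.V W1 b.c).card := Nat.mul_le_mul_right _ hDu)
    (le_trans (Nat.pow_le_pow_right (by norm_num) (by have := hsz.leK; omega)) hW)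
  have hWc' : W1.card ≤ 2 ^ ((k + 1) * (u + 5 + K)) * W'.card :=
    hWc.trans (Nat.mul_le_mul_right _ (Nat.pow_le_pow_right (by norm_num)
      (Nat.mul_le_mul_left _ (by have := hsz.leK; omega))))
  have hNA : b.N ≤ 2 ^ (u + 2) * A'.card := by
    calc b.N ≤ 2 * b.V.card := hhalf
      _ ≤ 2 * (2 ^ (u + 1) * A'.card) := Nat.mul_le_mul_left _ hAc
      _ = 2 ^ (u + 2) * A'.card := by ring
  have hinv : GInv f k W' ⟨A', A'.card, b.c, B :: b.Bs⟩ :=
    (hst.inv b hb).attach hs' (hW'.trans hW1) _ hA' (hB.trans hW1) hBc hdis hcol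
  have hpow : 0 < 2 ^ (u + 2) := by positivity
  have hbig : m * (2 ^ (u + 2)) ^ (d - 1 - (b.Bs.length + 1)) ≤ A'.card := by
    have h1 := hsz.big
    have h2 : d - 1 - b.Bs.length = (d - 1 - (b.Bs.length + 1)) + 1 := by
      have := hsz.lenB
      omega
    rw [h2, pow_succ] at h1
    have h3 : 2 ^ (u + 2) * (m * (2 ^ (u + 2)) ^ (d - 1 - (b.Bs.length + 1))) ≤
        2 ^ (u + 2) * A'.card := by
      refine le_trans (le_of_eq ?_) (h1.trans hNA)
      ring
    exact Nat.le_of_mul_le_mul_left h3 hpow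
  by_cases hlast : b.Bs.length + 2 = d
  · left
    have h1 := hinv.fan (m := m) (by
      have h2 : d - 1 - (b.Bs.length + 1) = 0 := by omega
      rw [h2, pow_zero, mul_one] at hbig
      exact hbig)
    have h3 : (B :: b.Bs).length = d - 1 := by
      rw [List.length_cons]
      omega
    have h4 : BigFan f m k (B :: b.Bs).length W'.card 0 := h1
    rw [h3] at h4
    exact h4.mono hWc' (by omega)
  · right
    obtain ⟨L1, L2, rfl⟩ := List.append_of_mem hb
    refine ⟨W', L1 ++ ⟨A', A'.card, b.c, B :: b.Bs⟩ :: L2, ⟨?_, ?_, ?_⟩, ?_, ?_, hWc'⟩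
    · intro b' hb'
      have hb'' : b' ∈ L1 ++ b :: L2 ∨ b' = ⟨A', A'.card, b.c, B :: b.Bs⟩ := by
        simp only [List.mem_append, List.mem_cons] at hb' ⊢
        tauto
      rcases hb'' with h | rfl
      · exact (hst.inv b' h).mono (hW'.trans hW1) b'.N (Finset.Subset.refl _)
      · exact hinv
    · intro b' hb'
      have hb'' : b' ∈ L1 ++ b :: L2 ∨ b' = ⟨A', A'.card, b.c, B :: b.Bs⟩ := by
        simp only [List.mem_append, List.mem_cons] at hb' ⊢
        tauto
      have hlen : (L1 ++ ⟨A', A'.card, b.c, B :: b.Bs⟩ :: L2).length =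
          (L1 ++ b :: L2).length := by
        simp only [List.length_append, List.length_cons]
      rw [hlen]
      rcases hb'' with h | rfl
      · exact hst.size b' h
      · refine ⟨?_, hbig, Nat.le_add_right _ _, le_rfl,
          (Finset.card_le_card hA').trans hsz.leK⟩
        show (B :: b.Bs).length + 2 ≤ d
        have := hsz.lenB
        rw [List.length_cons]
        omega
    · have hc := hst.cross
      rw [List.pairwise_append, List.pairwise_cons] at hc ⊢
      obtain ⟨h1, ⟨h2, h3⟩, h4⟩ := hc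
      have hmono : ∀ {b1 b2 : Gbl S}, GCross f W b1 b2 → GCross f W' b1 b2 :=
        fun h => ⟨h.1, fun v hv v' hv' w hw => h.2 v hv v' hv' w (hW1 (hW' hw))⟩
      refine ⟨h1.imp hmono, ⟨?_, h3.imp hmono⟩, ?_⟩
      · intro b' hb'
        have h5 := h2 b' hb'
        exact ⟨h5.1.mono_left hA', fun v hv v' hv' w hw =>
          h5.2 v hv v' (hA' hv') w (hW1 (hW' hw))⟩
      · intro b1 hb1 b2 hb2
        rcases List.mem_cons.1 hb2 with rfl | hb2
        · have h5 := h4 b1 hb1 b List.mem_cons_self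
          exact ⟨h5.1.mono_right hA', fun v hv v' hv' w hw =>
            h5.2 v (hA' hv) v' hv' w (hW1 (hW' hw))⟩
        · exact hmono (h4 b1 hb1 b2 (List.mem_cons_of_mem _ hb2))
    · simp only [List.length_append, List.length_cons]
    · unfold meas
      simp only [List.map_append, List.map_cons, List.sum_append, List.sum_cons,
        List.length_cons]
      ring

private theorem dens_mono_Grow (f : S → S → S → Bool) {V V' : Finset S} (h : V' ⊆ V)
    (W : Finset S) (c : Bool) : (dens f V' W c).card ≤ (dens f V W c).card := by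
  unfold dens
  exact Finset.card_le_card
    (Finset.filter_subset_filter _ (Finset.product_subset_product_left h))

/-- The steps of the final stage. -/
theorem grow_final (f : S → S → S → Bool) (q D k K n : ℕ) (hq : 0 < q)
    (hD : 4 * (n + 1) * q ≤ D) (c : Bool) :
    ∀ (e : ℕ) (L : List (Blk S)) (W : Finset S), L.length = n → (∀ b ∈ L, b.c = c) →
      (∀ b ∈ L, b.V.card ≤ K) →
      (∀ b ∈ L, ∀ W' ⊆ W, W.card ≤ 2 ^ (e * ((k + 1) * (n * K + 4))) * W'.card →
        D * (dens f b.V W' b.c).card ≤ b.N * W'.card ^ 2) →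
      2 ^ (e * ((k + 1) * (n * K + 4)) + 2) ≤ W.card →
      ∃ (r : Blk S → Blk S) (Bs : List (Finset S)) (Z : Finset S),
        (∀ b, (r b).N = b.N ∧ (r b).c = b.c ∧ (r b).V ⊆ b.V) ∧
        (∀ b ∈ L, q * b.V.card ≤ q * (r b).V.card + e * b.N) ∧ Bs.length = e ∧ Z ⊆ W ∧
        W.card ≤ 2 ^ (e * ((k + 1) * (n * K + 4))) * Z.card ∧
        (∀ B ∈ Bs, B ⊆ W ∧ B.card = k ∧ Disjoint B Z ∧
          ∀ b ∈ L, ∀ v ∈ (r b).V, ∀ y ∈ B, ∀ z ∈ Z, f v y z = !c) ∧
        Bs.Pairwise fun B B' => Disjoint B B' ∧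
          ∀ b ∈ L, ∀ v ∈ (r b).V, ∀ y ∈ B, ∀ y' ∈ B', f v y y' = !c := by
  intro e
  induction e with
  | zero =>
    intro L W _ _ _ _ _
    exact ⟨id, [], W, fun b => ⟨rfl, rfl, Finset.Subset.refl _⟩, fun b _ => by simp, rfl,
      Finset.Subset.refl _, by simp, by simp, List.Pairwise.nil⟩
  | succ e ih =>
    intro L W hn hc hK hrare hW
    set F := (k + 1) * (n * K + 4) with hF
    have hF1 : n * K + 4 + k ≤ F := by
      rw [hF]
      nlinarith [Nat.zero_le (k * (n * K))]
    have hsum : (L.map fun b => b.V.card).sum ≤ n * K := by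
      have h1 := List.sum_le_card_nsmul (L.map fun b => b.V.card) K (by
        intro x hx
        obtain ⟨b, hb, rfl⟩ := List.mem_map.1 hx
        exact hK b hb)
      rwa [List.length_map, smul_eq_mul, hn] at h1
    have hFe : (e + 1) * F = e * F + F := by ring
    obtain ⟨r1, G, hdec, hr1, hr2, hGd, hG⟩ := refine f q D L W hq (by rw [hn]; exact hD)
      (fun b hb => hrare b hb W (Finset.Subset.refl _) (Nat.le_mul_of_pos_left _ (by positivity)))
      (by
        refine le_trans ?_ hW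
        calc 4 = 2 ^ 2 := by norm_num
          _ ≤ _ := Nat.pow_le_pow_right (by norm_num) (by omega))
    obtain ⟨B, W1, hB, hW1, hBc, hW1c, hBG⟩ := kst W G (1 + (L.map fun b => b.V.card).sum) k hGd
      (le_trans (Nat.pow_le_pow_right (by norm_num) (by omega)) hW)
    have hW1c' : W.card ≤ 2 ^ F * W1.card :=
      hW1c.trans (Nat.mul_le_mul_right _ (Nat.pow_le_pow_right (by norm_num)
        (Nat.mul_le_mul_left _ (by omega))))
    have hBW1 : Disjoint B W1 := by
      rw [Finset.disjoint_left]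
      intro x hx hx'
      exact (hG x x (hBG x hx x hx')).1 rfl
    have hW1big : 2 ^ (e * F + 2) ≤ W1.card := by
      have h1 : 2 ^ F * 2 ^ (e * F + 2) ≤ 2 ^ F * W1.card := by
        rw [← pow_add]
        refine le_trans (Nat.pow_le_pow_right (by norm_num) (by omega)) (hW.trans hW1c')
      exact Nat.le_of_mul_le_mul_left h1 (by positivity)
    obtain ⟨r2, Bs, Z, h1, h2, h3, h4, h5, h6, h7⟩ := ih (L.map r1) W1
      (by rw [List.length_map, hn])
      (by
        intro b hb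
        obtain ⟨b', hb', rfl⟩ := List.mem_map.1 hb
        rw [(hr1 b').2.1]
        exact hc b' hb')
      (by
        intro b hb
        obtain ⟨b', hb', rfl⟩ := List.mem_map.1 hb
        exact (Finset.card_le_card (hr1 b').2.2).trans (hK b' hb'))
      (by
        intro b hb W' hW' hcard
        obtain ⟨b', hb', rfl⟩ := List.mem_map.1 hb
        rw [(hr1 b').1, (hr1 b').2.1]
        refine (Nat.mul_le_mul_left _ (dens_mono_Grow f (hr1 b').2.2 W' b'.c)).trans
          (hrare b' hb' W' (hW'.trans hW1) ?_)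
        calc W.card ≤ 2 ^ F * W1.card := hW1c'
          _ ≤ 2 ^ F * (2 ^ (e * F) * W'.card) := Nat.mul_le_mul_left _ hcard
          _ = 2 ^ ((e + 1) * F) * W'.card := by rw [hFe, pow_add]; ring)
      hW1big
    refine ⟨fun b => r2 (r1 b), B :: Bs, Z, ?_, ?_, ?_, h4.trans hW1, ?_, ?_, ?_⟩
    · intro b
      exact ⟨(h1 (r1 b)).1.trans (hr1 b).1, (h1 (r1 b)).2.1.trans (hr1 b).2.1,
        (h1 (r1 b)).2.2.trans (hr1 b).2.2⟩
    · intro b hb
      have h8 := hr2 b hb
      have h9 := h2 (r1 b) (List.mem_map.2 ⟨b, hb, rfl⟩)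
      rw [(hr1 b).1] at h9
      have h10 : (e + 1) * b.N = e * b.N + b.N := by ring
      show q * b.V.card ≤ q * (r2 (r1 b)).V.card + (e + 1) * b.N
      omega
    · rw [List.length_cons, h3]
    · calc W.card ≤ 2 ^ F * W1.card := hW1c'
        _ ≤ 2 ^ F * (2 ^ (e * F) * Z.card) := Nat.mul_le_mul_left _ h5
        _ = 2 ^ ((e + 1) * F) * Z.card := by rw [hFe, pow_add]; ring
    · intro B' hB'
      rcases List.mem_cons.1 hB' with rfl | hB'
      · refine ⟨hB, hBc, hBW1.mono_right h4, ?_⟩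
        intro b hb v hv y hy z hz
        rw [(hG y z (hBG y hy z (h4 hz))).2 b hb v ((h1 (r1 b)).2.2 hv), hc b hb]
      · obtain ⟨h8, h9, h10, h11⟩ := h6 B' hB'
        exact ⟨h8.trans hW1, h9, h10, fun b hb =>
          h11 (r1 b) (List.mem_map.2 ⟨b, hb, rfl⟩)⟩
    · refine List.pairwise_cons.2 ⟨?_, h7.imp fun h => ⟨h.1, fun b hb =>
        h.2 (r1 b) (List.mem_map.2 ⟨b, hb, rfl⟩)⟩⟩
      intro B' hB'
      refine ⟨hBW1.mono_right (h6 B' hB').1, ?_⟩
      intro b hb v hv y hy y' hy'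
      rw [(hG y y' (hBG y hy y' ((h6 B' hB').1 hy'))).2 b hb v ((h1 (r1 b)).2.2 hv), hc b hb]

/-- One vertex from each block. -/
theorem transversal (f : S → S → S → Bool) (hs : ∀ x y z, f x y z = f y x z) (c : Bool)
    (W : Finset S) : ∀ L : List (Blk S), (∀ b ∈ L, b.V.Nonempty) →
    L.Pairwise (fun b' b => Disjoint b'.V b.V ∧
      ∀ v ∈ b.V, ∀ v' ∈ b'.V, ∀ w ∈ W, f v v' w = !c) →
    ∃ A : Finset S, A.card = L.length ∧ (∀ x ∈ A, ∃ b ∈ L, x ∈ b.V) ∧
      ∀ x ∈ A, ∀ x' ∈ A, x ≠ x' → ∀ w ∈ W, f x x' w = !c := by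
  intro L
  induction L with
  | nil =>
    intro _ _
    exact ⟨∅, by simp, by simp, by simp⟩
  | cons b L ih =>
    intro hne hp
    rw [List.pairwise_cons] at hp
    obtain ⟨A, hA1, hA2, hA3⟩ := ih (fun b' hb' => hne b' (List.mem_cons_of_mem _ hb')) hp.2
    obtain ⟨a, ha⟩ := hne b List.mem_cons_self
    have haA : a ∉ A := by
      intro h
      obtain ⟨b', hb', h1⟩ := hA2 a h
      exact Finset.disjoint_left.1 (hp.1 b' hb').1 ha h1
    refine ⟨insert a A, ?_, ?_, ?_⟩
    · rw [Finset.card_insert_of_notMem haA, hA1, List.length_cons]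
    · intro x hx
      rcases Finset.mem_insert.1 hx with rfl | hx
      · exact ⟨b, List.mem_cons_self, ha⟩
      · obtain ⟨b', hb', h1⟩ := hA2 x hx
        exact ⟨b', List.mem_cons_of_mem _ hb', h1⟩
    · intro x hx x' hx' hne' w hw
      rcases Finset.mem_insert.1 hx with h1 | h1
      · rcases Finset.mem_insert.1 hx' with h2 | h2
        · exact absurd (h1.trans h2.symm) hne'
        · obtain ⟨b', hb', h3⟩ := hA2 x' h2
          rw [hs, h1]
          exact (hp.1 b' hb').2 x' h3 a ha w hw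
      · rcases Finset.mem_insert.1 hx' with h2 | h2
        · obtain ⟨b', hb', h3⟩ := hA2 x h1
          rw [h2]
          exact (hp.1 b' hb').2 x h3 a ha w hw
        · exact hA3 x h1 x' h2 hne' w hw

private theorem grow_filter (L : List (Gbl S)) :
    (L.filter fun b => b.c == true).length + (L.filter fun b => b.c == false).length =
      L.length := by
  induction L with
  | nil => rfl
  | cons b L ih =>
    cases h : b.c <;> simp only [List.filter_cons, h] <;> simp at ih ⊢ <;> omega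

/-- The end of the process. -/
theorem grow_end (f : S → S → S → Bool) (hs : ∀ x y z, f x y z = f y x z)
    (k m e d q K D : ℕ) (hm : 1 ≤ m) (hd : 2 ≤ d) (hq : 0 < q) (hqR : 2 * (2 * m + d) ≤ q)
    (hD : 4 * (m + 1) * q ≤ D) {W : Finset S} {L : List (Gbl S)}
    (hst : GSt f k m e d q K W L) (hL : L.length = 2 * m)
    (hrare : ∀ b ∈ L, ∀ W' ⊆ W, W.card ≤ 2 ^ ((d - 1) * ((k + 1) * (m * K + 4))) * W'.card →
      D * (dens f b.V W' b.c).card ≤ b.N * W'.card ^ 2)
    (hW : 2 ^ ((d - 1) * ((k + 1) * (m * K + 4)) + 2) ≤ W.card) :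
    BigFan f m k (d - 1) W.card ((d - 1) * ((k + 1) * (m * K + 4))) := by
  obtain ⟨c, hc⟩ : ∃ c, m ≤ (L.filter fun b => b.c == c).length := by
    have h1 := grow_filter L
    by_cases h2 : m ≤ (L.filter fun b => b.c == true).length
    · exact ⟨true, h2⟩
    · exact ⟨false, by omega⟩
  set L1 := (L.filter fun b => b.c == c).take m with hL1
  have hsub : L1.Sublist L := (List.take_sublist _ _).trans List.filter_sublist
  have hlen : L1.length = m := by
    rw [hL1, List.length_take, min_eq_left hc]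
  have hcol : ∀ b ∈ L1, b.c = c := by
    intro b hb
    have h1 := List.mem_filter.1 (List.mem_of_mem_take hb)
    simpa using h1.2
  obtain ⟨r, Bs, Z, h1, h2, h3, h4, h5, h6, h7⟩ := grow_final f q D k K m hq hD c (d - 1)
    (L1.map Gbl.blk) W (by rw [List.length_map, hlen])
    (by
      intro b hb
      obtain ⟨b', hb', rfl⟩ := List.mem_map.1 hb
      exact hcol b' hb')
    (by
      intro b hb
      obtain ⟨b', hb', rfl⟩ := List.mem_map.1 hb
      exact (hst.size b' (hsub.subset hb')).leK)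
    (by
      intro b hb
      obtain ⟨b', hb', rfl⟩ := List.mem_map.1 hb
      exact hrare b' (hsub.subset hb'))
    hW
  obtain ⟨A, hA1, hA2, hA3⟩ := transversal f hs c W ((L1.map Gbl.blk).map r)
    (by
      intro b hb
      obtain ⟨b1, hb1, rfl⟩ := List.mem_map.1 hb
      obtain ⟨b', hb', rfl⟩ := List.mem_map.1 hb1
      have h8 := h2 b'.blk hb1
      have h9 := (hst.size b' (hsub.subset hb')).loss
      have h10 := (hst.size b' (hsub.subset hb')).big
      have h11 : 1 ≤ b'.N := le_trans (Nat.mul_pos hm (by positivity)) h10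
      rw [hL] at h9
      by_contra h12
      rw [Finset.not_nonempty_iff_eq_empty] at h12
      rw [h12, Finset.card_empty, mul_zero, zero_add] at h8
      have h13 : q * b'.N ≤ (d - 1) * b'.N + 2 * m * b'.N := h9.trans (Nat.add_le_add_right h8 _)
      have h14 : (d - 1) * b'.N + 2 * m * b'.N = (d - 1 + 2 * m) * b'.N := by ring
      rw [h14] at h13
      have h15 := Nat.le_of_mul_le_mul_right h13 h11
      omega)
    (by
      refine List.pairwise_map.2 (List.pairwise_map.2
        ((List.Pairwise.sublist hsub hst.cross).imp_of_mem ?_))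
      intro b1 b2 hb1 hb2 h
      refine ⟨(h.1.mono_left (h1 _).2.2).mono_right (h1 _).2.2, ?_⟩
      intro v hv v' hv' w hw
      rw [← hcol b2 hb2]
      exact h.2 v ((h1 _).2.2 hv) v' ((h1 _).2.2 hv') w hw)
  rw [List.length_map, List.length_map, hlen] at hA1
  have hA : ∀ x ∈ A, ∃ b ∈ L1, x ∈ (r b.blk).V := by
    intro x hx
    obtain ⟨b, hb, hxb⟩ := hA2 x hx
    obtain ⟨b1, hb1, rfl⟩ := List.mem_map.1 hb
    obtain ⟨b', hb', rfl⟩ := List.mem_map.1 hb1
    exact ⟨b', hb', hxb⟩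
  have hAW : Disjoint A W := by
    rw [Finset.disjoint_left]
    intro x hx hxW
    obtain ⟨b, hb, hxb⟩ := hA x hx
    exact Finset.disjoint_left.1 (hst.inv b (hsub.subset hb)).disj ((h1 b.blk).2.2 hxb) hxW
  refine ⟨!c, A, Bs, Z, h3, ⟨hA1, ?_, ?_⟩, hAW.mono_right h4, ?_, ?_, h5⟩
  · intro B hB
    obtain ⟨h8, h9, h10, h11⟩ := h6 B hB
    exact ⟨h9, hAW.mono_right h8, fun x hx x' hx' hne y hy => hA3 x hx x' hx' hne y (h8 hy)⟩
  · refine h7.imp fun h => ⟨h.1, ?_⟩
    intro x hx y hy y' hy'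
    obtain ⟨b, hb, hxb⟩ := hA x hx
    exact h.2 b.blk (List.mem_map.2 ⟨b, hb, rfl⟩) x hxb y hy y' hy'
  · exact fun x hx x' hx' hne z hz => hA3 x hx x' hx' hne z (h4 hz)
  · intro B hB
    obtain ⟨h8, h9, h10, h11⟩ := h6 B hB
    refine ⟨h10, ?_⟩
    intro x hx y hy z hz
    obtain ⟨b, hb, hxb⟩ := hA x hx
    exact h11 b.blk (List.mem_map.2 ⟨b, hb, rfl⟩) x hxb y hy z hz

/-- One step of the process. -/
theorem grow_step (f : S → S → S → Bool) (hs : ∀ x y z, f x y z = f y x z)
    (hs' : ∀ x y z, f x y z = f x z y) (k m u d q K D T : ℕ) (hm : 1 ≤ m) (hd : 2 ≤ d)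
    (hq : 0 < q) (hqR : 2 * (2 * m + d) ≤ q) (hD : 4 * (2 * m + 1) * q ≤ D) (hDu : D ≤ 2 ^ u)
    (hK : K = m * (2 ^ (u + 2)) ^ (d - 1))
    (hT : (d - 1) * ((k + 1) * (m * K + 4)) + (k + 1) * (u + 5 + K) +
      (2 + 2 * m * K + 2 * K * (2 + 2 * m * K + 2 * K)) ≤ T)
    {W : Finset S} {L : List (Gbl S)} (hst : GSt f k m (u + 2) d q K W L)
    (hL : L.length ≤ 2 * m) (hW : 2 ^ (T + 2) ≤ W.card) :
    BigFan f m k (d - 1) W.card T ∨
      ∃ (W' : Finset S) (L' : List (Gbl S)), GSt f k m (u + 2) d q K W' L' ∧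
        L'.length ≤ 2 * m ∧ meas L' = meas L + 1 ∧ W.card ≤ 2 ^ T * W'.card := by
  set T0 := (d - 1) * ((k + 1) * (m * K + 4)) with hT0
  set c1 := (k + 1) * (u + 5 + K) with hc1
  set c2 := 2 + 2 * m * K + 2 * K * (2 + 2 * m * K + 2 * K) with hc2
  have hc1' : u + 4 + K + k ≤ c1 := by
    rw [hc1]
    nlinarith [Nat.zero_le (k * (u + K))]
  have hc2' : 2 + 2 * m * K + 4 * K ≤ c2 := by
    rw [hc2]
    nlinarith [Nat.zero_le (K * (2 * m * K + 2 * K))]
  by_cases hrare : ∀ b ∈ L, ∀ W' ⊆ W, W.card ≤ 2 ^ T0 * W'.card →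
      D * (dens f b.V W' b.c).card ≤ b.N * W'.card ^ 2
  · rcases hL.eq_or_lt with hL' | hL'
    · left
      refine (grow_end f hs k m (u + 2) d q K D hm hd hq hqR ?_ hst hL' hrare ?_).mono
        (c := 0) (by simp) (by omega)
      · exact (Nat.mul_le_mul_right _ (by omega)).trans hD
      · exact (Nat.pow_le_pow_right (by norm_num) (by omega)).trans hW
    · right
      obtain ⟨W', L', h1, h2, h3, h4⟩ := grow_add f hs k m (u + 2) d q K (2 * m) D hd hq hD hK
        hst hL' (fun b hb => hrare b hb W (Finset.Subset.refl _)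
          (Nat.le_mul_of_pos_left _ (by positivity)))
        ((Nat.pow_le_pow_right (by norm_num) (by omega)).trans hW)
      exact ⟨W', L', h1, by omega, h3, h4.trans (Nat.mul_le_mul_right _
        (Nat.pow_le_pow_right (by norm_num) (by omega)))⟩
  · push Not at hrare
    obtain ⟨b, hb, W1, hW1, hW1c, hdens⟩ := hrare
    have hW1big : 2 ^ (c1 + 2) ≤ W1.card := by
      have h1 : 2 ^ T0 * 2 ^ (c1 + 2) ≤ 2 ^ T0 * W1.card := by
        rw [← pow_add]
        exact le_trans (Nat.pow_le_pow_right (by norm_num) (by omega)) (hW.trans hW1c)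
      exact Nat.le_of_mul_le_mul_left h1 (by positivity)
    rcases grow_up f hs hs' k m u d q K (2 * m) D hm hq (by omega) hDu hst hL hb hW1 hdens
      ((Nat.pow_le_pow_right (by norm_num) (by omega)).trans hW1big) with h | h
    · left
      exact h.mono hW1c (by omega)
    · right
      obtain ⟨W', L', h1, h2, h3, h4⟩ := h
      refine ⟨W', L', h1, by omega, h3, ?_⟩
      calc W.card ≤ 2 ^ T0 * W1.card := hW1c
        _ ≤ 2 ^ T0 * (2 ^ c1 * W'.card) := Nat.mul_le_mul_left _ h4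
        _ = 2 ^ (T0 + c1) * W'.card := by rw [pow_add]; ring
        _ ≤ 2 ^ T * W'.card := Nat.mul_le_mul_right _
          (Nat.pow_le_pow_right (by norm_num) (by omega))

/-- The process ends with a fan. -/
theorem grow_main (f : S → S → S → Bool) (hs : ∀ x y z, f x y z = f y x z)
    (hs' : ∀ x y z, f x y z = f x z y) (k m u d q K D T : ℕ) (hm : 1 ≤ m) (hd : 2 ≤ d)
    (hq : 0 < q) (hqR : 2 * (2 * m + d) ≤ q) (hD : 4 * (2 * m + 1) * q ≤ D) (hDu : D ≤ 2 ^ u)
    (hK : K = m * (2 ^ (u + 2)) ^ (d - 1))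
    (hT : (d - 1) * ((k + 1) * (m * K + 4)) + (k + 1) * (u + 5 + K) +
      (2 + 2 * m * K + 2 * K * (2 + 2 * m * K + 2 * K)) ≤ T) :
    ∀ (μ : ℕ) (W : Finset S) (L : List (Gbl S)), GSt f k m (u + 2) d q K W L →
      L.length ≤ 2 * m → 2 * m * (d - 1) ≤ meas L + μ → 2 ^ ((μ + 1) * T + 2) ≤ W.card →
      BigFan f m k (d - 1) W.card ((μ + 1) * T) := by
  intro μ
  induction μ with
  | zero =>
    intro W L hst hL hμ hW
    rw [zero_add, one_mul] at hW ⊢
    rcases grow_step f hs hs' k m u d q K D T hm hd hq hqR hD hDu hK hT hst hL hW with h | h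
    · exact h
    · exfalso
      obtain ⟨W', L', h1, h2, h3, -⟩ := h
      have h4 := meas_le h1.size
      have h5 : L'.length * (d - 1) ≤ 2 * m * (d - 1) := Nat.mul_le_mul_right _ h2
      omega
  | succ μ ih =>
    intro W L hst hL hμ hW
    have hT1 : (μ + 1 + 1) * T = T + (μ + 1) * T := by ring
    rcases grow_step f hs hs' k m u d q K D T hm hd hq hqR hD hDu hK hT hst hL
      ((Nat.pow_le_pow_right (by norm_num) (by omega)).trans hW) with h | h
    · exact h.mono (c := 0) (by simp) (by omega)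
    · obtain ⟨W', L', h1, h2, h3, h4⟩ := h
      have h5 : 2 ^ ((μ + 1) * T + 2) ≤ W'.card := by
        have h6 : 2 ^ T * 2 ^ ((μ + 1) * T + 2) ≤ 2 ^ T * W'.card := by
          rw [← pow_add]
          exact le_trans (Nat.pow_le_pow_right (by norm_num) (by omega)) (hW.trans h4)
        exact Nat.le_of_mul_le_mul_left h6 (by positivity)
      exact (ih W' L' h1 h2 (by omega) h5).mono h4 (by omega)

/-- There is a fan with long parts. -/
theorem grow_exists (f : S → S → S → Bool) (hs : ∀ x y z, f x y z = f y x z)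
    (hs' : ∀ x y z, f x y z = f x z y) (k m u d q K D T : ℕ) (hm : 1 ≤ m) (hd : 2 ≤ d)
    (hq : 0 < q) (hqR : 2 * (2 * m + d) ≤ q) (hD : 4 * (2 * m + 1) * q ≤ D) (hDu : D ≤ 2 ^ u)
    (hK : K = m * (2 ^ (u + 2)) ^ (d - 1))
    (hT : (d - 1) * ((k + 1) * (m * K + 4)) + (k + 1) * (u + 5 + K) +
      (2 + 2 * m * K + 2 * K * (2 + 2 * m * K + 2 * K)) ≤ T) (W : Finset S)
    (hW : 2 ^ ((2 * m * (d - 1) + 1) * T + 2) ≤ W.card) :
    BigFan f m k (d - 1) W.card ((2 * m * (d - 1) + 1) * T) :=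
  grow_main f hs hs' k m u d q K D T hm hd hq hqR hD hDu hK hT (2 * m * (d - 1)) W []
    ⟨by simp, by simp, List.Pairwise.nil⟩ (by simp) (Nat.le_add_left _ _) hW

end Pool.Agent.FanCross
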