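import Pool.Agent.FanCross.Grow

/-!
# Fans with long parts, families indexed by `Fin d`
-/

set_option autoImplicit false
set_option linter.unusedSectionVars false

namespace Pool.Agent.FanCross

variable {S : Type*} [DecidableEq S]

/-- The parts of a fan as a family. -/
theorem BigFan.fin {f : S → S → S → Bool} (hs' : ∀ x y z, f x y z = f x z y) {m k e n T : ℕ}
    (h : BigFan f m k e n T) : ∃ (c : Bool) (A : Finset S) (B : Fin (e + 1) → Finset S),
    A.card = m ∧ (∀ i : Fin (e + 1), (i : ℕ) < e → (B i).card = k) ∧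
      (∀ i : Fin (e + 1), (i : ℕ) = e → n ≤ 2 ^ T * (B i).card) ∧ (∀ i, Disjoint A (B i)) ∧
      (∀ i j, i ≠ j → Disjoint (B i) (B j)) ∧
      (∀ i, ∀ x ∈ A, ∀ x' ∈ A, x ≠ x' → ∀ y ∈ B i, f x x' y = c) ∧
      ∀ i j, i ≠ j → ∀ x ∈ A, ∀ y ∈ B i, ∀ y' ∈ B j, f x y y' = c := by
  obtain ⟨c, A, Bs, Z, h1, ⟨h2, h3, h4⟩, h5, h6, h7, h8⟩ := h
  have hp : (Bs ++ [Z]).Pairwise fun B B' => Disjoint B B' ∧
      ∀ x ∈ A, ∀ y ∈ B, ∀ y' ∈ B', f x y y' = c := by
    rw [List.pairwise_append]
    refine ⟨h4, List.pairwise_singleton _ _, ?_⟩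
    intro B hB Z' hZ'
    rw [List.mem_singleton.1 hZ']
    exact h7 B hB
  have hlen : e + 1 = (Bs ++ [Z]).length := by
    rw [List.length_append, h1, List.length_singleton]
  rw [List.pairwise_iff_get] at hp
  obtain ⟨B, hB⟩ : ∃ B : Fin (e + 1) → Finset S,
      ∀ i, B i = (Bs ++ [Z]).get (Fin.cast hlen i) := ⟨_, fun _ => rfl⟩
  have hp' : ∀ i j, i < j → Disjoint (B i) (B j) ∧
      ∀ x ∈ A, ∀ y ∈ B i, ∀ y' ∈ B j, f x y y' = c := by
    intro i j hij
    rw [hB, hB]
    exact hp _ _ (by simpa using hij)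
  have hmem : ∀ i, B i ∈ Bs ∨ B i = Z := by
    intro i
    have h9 : B i ∈ Bs ++ [Z] := by
      rw [hB]
      exact List.get_mem _ _
    rcases List.mem_append.1 h9 with h | h
    · exact Or.inl h
    · exact Or.inr (List.mem_singleton.1 h)
  have hlt : ∀ i : Fin (e + 1), (i : ℕ) < e → B i ∈ Bs := by
    intro i hi
    rw [hB, List.get_eq_getElem, List.getElem_append_left (by simpa [h1] using hi)]
    exact List.getElem_mem _
  have hlast : ∀ i : Fin (e + 1), (i : ℕ) = e → B i = Z := by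
    intro i hi
    rw [hB, List.get_eq_getElem, List.getElem_append_right (by simp [h1, hi])]
    simp
  refine ⟨c, A, B, h2, fun i hi => (h3 _ (hlt i hi)).1, fun i hi => ?_, ?_, ?_, ?_, ?_⟩
  · rw [hlast i hi]
    exact h8
  · intro i
    rcases hmem i with h | h
    · exact (h3 _ h).2.1
    · rw [h]
      exact h5
  · intro i j hij
    rcases lt_or_gt_of_ne hij with h | h
    · exact (hp' i j h).1
    · exact (hp' j i h).1.symm
  · intro i
    rcases hmem i with h | h
    · exact (h3 _ h).2.2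
    · rw [h]
      exact h6
  · intro i j hij x hx y hy y' hy'
    rcases lt_or_gt_of_ne hij with h | h
    · exact (hp' i j h).2 x hx y hy y' hy'
    · rw [hs']
      exact (hp' j i h).2 x hx y' hy' y hy

end Pool.Agent.FanCross
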