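import Pool.Agent.FanCross.Refine
import Pool.Agent.FanCross.Expo

/-!
# Fans

`fan_exists`: in every large set there are a set `A` and sets `B 1, ..., B d` such that all triples
`a, a', b` and all triples `a, b, b'` (`b`, `b'` in two different sets `B i`) have one colour.
-/

set_option autoImplicit false
set_option linter.unusedSectionVars false

namespace Pool.Agent.FanCross

variable {S : Type*} [DecidableEq S]

/-- A fan: the list version. -/
def Fan (f : S → S → S → Bool) (c : Bool) (a b : ℕ) (A : Finset S) (Bs : List (Finset S)) : Prop :=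
  A.card = a ∧ (∀ B ∈ Bs, B.card = b ∧ Disjoint A B ∧
    ∀ x ∈ A, ∀ x' ∈ A, x ≠ x' → ∀ y ∈ B, f x x' y = c) ∧
  Bs.Pairwise fun B B' => Disjoint B B' ∧ ∀ x ∈ A, ∀ y ∈ B, ∀ y' ∈ B', f x y y' = c

/-- There is a fan. -/
def HasFan (f : S → S → S → Bool) (a b d : ℕ) : Prop :=
  ∃ (c : Bool) (A : Finset S) (Bs : List (Finset S)), Bs.length = d ∧ Fan f c a b A Bs

/-- The properties of a block after `t` refinements. -/
def Good (f : S → S → S → Bool) (q D θ K t : ℕ) (W : Finset S) (b : Blk S) : Prop :=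
  q * b.N ≤ q * b.V.card + t * b.N ∧ Disjoint b.V W ∧ b.V.card ≤ K ∧
    ∀ W' ⊆ W, θ ≤ W'.card → D * (dens f b.V W' b.c).card ≤ b.N * W'.card ^ 2

private theorem dens_mono_Main (f : S → S → S → Bool) {V V' : Finset S} (h : V' ⊆ V)
    (W : Finset S) (c : Bool) : (dens f V' W c).card ≤ (dens f V W c).card := by
  unfold dens
  exact Finset.card_le_card
    (Finset.filter_subset_filter _ (Finset.product_subset_product_left h))

theorem Good.refine_Main {f : S → S → S → Bool} {q D θ θ' K t : ℕ} {W W1 : Finset S}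
    {b b' : Blk S} (h : Good f q D θ K t W b) (hW : W1 ⊆ W) (hθ : θ ≤ θ') (hN : b'.N = b.N)
    (hc : b'.c = b.c) (hV : b'.V ⊆ b.V) (hcard : q * b.V.card ≤ q * b'.V.card + b.N) :
    Good f q D θ' K (t + 1) W1 b' := by
  obtain ⟨h1, h2, h3, h4⟩ := h
  refine ⟨?_, ?_, (Finset.card_le_card hV).trans h3, ?_⟩
  · rw [hN, Nat.add_mul, Nat.one_mul]
    omega
  · exact (h2.mono_left hV).mono_right hW
  · intro W' hW' hθ'
    rw [hN, hc]
    exact (Nat.mul_le_mul_left _ (dens_mono_Main f hV W' b.c)).trans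
      (h4 W' (hW'.trans hW) (hθ.trans hθ'))

theorem sum_le_Main {f : S → S → S → Bool} {q D θ K t : ℕ} {W : Finset S}
    {L : List (Blk S)} (h : ∀ b ∈ L, Good f q D θ K t W b) :
    (L.map fun b => b.V.card).sum ≤ L.length * K := by
  have h1 := List.sum_le_card_nsmul (L.map fun b => b.V.card) K (by
    intro x hx
    obtain ⟨b, hb, rfl⟩ := List.mem_map.1 hx
    exact (h b hb).2.2.1)
  rwa [List.length_map, smul_eq_mul] at h1

/-- One refinement followed by the choice of a block of size `k`. -/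
theorem step_Main (f : S → S → S → Bool) (hs : ∀ x y z, f x y z = f y x z)
    (q D θ K t P k : ℕ) (hq : 0 < q) (L : List (Blk S)) (W : Finset S)
    (hD : 4 * (L.length + 1) * q ≤ D) (hP : 1 + L.length * K ≤ P) (hθ : θ ≤ W.card)
    (hL : ∀ b ∈ L, Good f q D θ K t W b) (hW : 2 ^ (P + 1 + 4 * k) ≤ W.card) :
    ∃ (r : Blk S → Blk S) (A W' : Finset S) (c : Bool),
      (∀ b, (r b).N = b.N ∧ (r b).c = b.c ∧ (r b).V ⊆ b.V) ∧
      (∀ b ∈ L, q * b.V.card ≤ q * (r b).V.card + b.N) ∧ A ⊆ W ∧ W' ⊆ W ∧ A.card = k ∧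
      W.card ≤ 2 ^ (P + 1 + 2 * k * (P + 1 + 2 * k)) * W'.card ∧ Disjoint A W' ∧
      (∀ a ∈ A, ∀ a' ∈ A, a ≠ a' → ∀ w ∈ W', f a a' w = c) ∧
      ∀ b ∈ L, ∀ v ∈ (r b).V, ∀ a ∈ A, ∀ w ∈ W', f v a w = !b.c := by
  have hP1 : 1 ≤ P := by omega
  have h4 : 4 ≤ W.card := by
    refine le_trans ?_ hW
    calc 4 = 2 ^ 2 := by norm_num
      _ ≤ 2 ^ (P + 1 + 4 * k) := Nat.pow_le_pow_right (by norm_num) (by omega)
  obtain ⟨r, G, hGd, h1, h2, h3, h5⟩ := refine f q D L W hq hD
    (fun b hb => (hL b hb).2.2.2 W (Finset.Subset.refl _) hθ) h4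
  have hG : W.card ^ 2 ≤ 2 ^ P * ((W ×ˢ W).filter fun z => G z.1 z.2).card := by
    refine h3.trans (Nat.mul_le_mul_right _ (Nat.pow_le_pow_right (by norm_num) ?_))
    have := sum_le_Main hL
    omega
  obtain ⟨A, W', c, hA, hW', hk, hcard, hAG, hmono⟩ := block_in_graph f hs W G P k hG hW
  refine ⟨r, A, W', c, h1, h2, hA, hW', hk, hcard, ?_, hmono, ?_⟩
  · rw [Finset.disjoint_left]
    intro x hx hx'
    exact (h5 x x (hAG x hx x hx')).1 rfl
  · intro b hb v hv a ha w hw
    exact (h5 a w (hAG a ha w hw)).2 b hb v hv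

/-- The last step: a chain of single points. -/
private theorem chain_Main (f : S → S → S → Bool) (hs : ∀ x y z, f x y z = f y x z)
    (hs' : ∀ x y z, f x y z = f x z y) (q D θ K P : ℕ) (hq : 0 < q) (hθ : 1 ≤ θ) :
    ∀ (k t : ℕ) (L : List (Blk S)) (W : Finset S), 4 * (L.length + 1) * q ≤ D →
      1 + L.length * K ≤ P → (∀ b ∈ L, Good f q D θ K t W b) →
      2 ^ (k * (3 * P + 7)) * θ ≤ W.card →
      ∃ (U : Finset S) (r : Blk S → Blk S), U ⊆ W ∧ U.card = k ∧
        (∀ b, (r b).N = b.N ∧ (r b).c = b.c ∧ (r b).V ⊆ b.V) ∧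
        (∀ b ∈ L, q * b.N ≤ q * (r b).V.card + (t + k) * b.N) ∧
        ∀ b ∈ L, ∀ v ∈ (r b).V, ∀ x ∈ U, ∀ y ∈ U, x ≠ y → f v x y = !b.c := by
  intro k
  induction k with
  | zero =>
    intro t L W hD hP hL hW
    refine ⟨∅, id, Finset.empty_subset _, rfl, fun b => ⟨rfl, rfl, Finset.Subset.refl _⟩,
      fun b hb => ?_, ?_⟩
    · rw [Nat.add_zero]
      exact (hL b hb).1
    · intro b hb v hv x hx
      exact absurd hx (Finset.notMem_empty x)
  | succ k ih =>
    intro t L W hD hP hL hW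
    have hsplit : 2 ^ (3 * P + 7) * (2 ^ (k * (3 * P + 7)) * θ) ≤ W.card := by
      refine le_trans (le_of_eq ?_) hW
      rw [← mul_assoc, ← pow_add]
      congr 2
      ring
    have hbig : 2 ^ (3 * P + 7) ≤ W.card := by
      refine le_trans ?_ hsplit
      exact Nat.le_mul_of_pos_right _ (Nat.mul_pos (by positivity) hθ)
    have hθW : θ ≤ W.card := by
      refine le_trans ?_ hW
      exact Nat.le_mul_of_pos_left _ (by positivity)
    obtain ⟨r1, A, W', c, h1, h2, hA, hW', hk, hcard, hdis, -, hcol⟩ :=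
      step_Main f hs q D θ K t P 1 hq L W hD hP hθW hL
        (le_trans (Nat.pow_le_pow_right (by norm_num) (by omega)) hbig)
    obtain ⟨u, rfl⟩ := Finset.card_eq_one.1 hk
    have hu : u ∈ ({u} : Finset S) := Finset.mem_singleton_self u
    have hW'c : 2 ^ (k * (3 * P + 7)) * θ ≤ W'.card := by
      have h3 : P + 1 + 2 * 1 * (P + 1 + 2 * 1) = 3 * P + 7 := by ring
      rw [h3] at hcard
      exact Nat.le_of_mul_le_mul_left (hsplit.trans hcard) (by positivity)
    obtain ⟨U, r2, hU, hUk, h5, h6, h7⟩ := ih (t + 1) (L.map r1) W'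
      (by rw [List.length_map]; exact hD) (by rw [List.length_map]; exact hP)
      (by
        intro b' hb'
        obtain ⟨b, hb, rfl⟩ := List.mem_map.1 hb'
        obtain ⟨h8, h9, h10⟩ := h1 b
        exact (hL b hb).refine_Main hW' le_rfl h8 h9 h10 (h2 b hb)) hW'c
    have huU : u ∉ U := fun h => (Finset.disjoint_left.1 hdis hu) (hU h)
    refine ⟨insert u U, fun b => r2 (r1 b), ?_, ?_, ?_, ?_, ?_⟩
    · exact Finset.insert_subset (hA hu) (hU.trans hW')
    · rw [Finset.card_insert_of_notMem huU, hUk]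
    · intro b
      obtain ⟨h8, h9, h10⟩ := h1 b
      obtain ⟨h11, h12, h13⟩ := h5 (r1 b)
      exact ⟨h11.trans h8, h12.trans h9, h13.trans h10⟩
    · intro b hb
      have h8 := h6 (r1 b) (List.mem_map_of_mem hb)
      rw [(h1 b).1] at h8
      have h9 : t + 1 + k = t + (k + 1) := by ring
      rw [h9] at h8
      exact h8
    · intro b hb v hv x hx y hy hxy
      have hv1 : v ∈ (r1 b).V := (h5 (r1 b)).2.2 hv
      rcases Finset.mem_insert.1 hx with rfl | hxU
      · rcases Finset.mem_insert.1 hy with rfl | hyU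
        · exact absurd rfl hxy
        · exact hcol b hb v hv1 x hu y (hU hyU)
      · rcases Finset.mem_insert.1 hy with rfl | hyU
        · rw [hs']
          exact hcol b hb v hv1 y hu x (hU hxU)
        · have h8 := h7 (r1 b) (List.mem_map_of_mem hb) v hv x hxU y hyU hxy
          rwa [(h1 b).2.1] at h8

/-- The relation between a newer and an older block. -/
def Rel (f : S → S → S → Bool) (W : Finset S) (new old : Blk S) : Prop :=
  Disjoint old.V new.V ∧ ∀ v ∈ old.V, ∀ v' ∈ new.V, ∀ w ∈ W, f v v' w = !old.c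

theorem colour_Main (L : List (Blk S)) (d : ℕ) (h : 2 * d ≤ L.length + 1) :
    ∃ c : Bool, d ≤ (L.filter fun b => b.c = c).length := by
  have h1 : (L.filter fun b => b.c = true).length + (L.filter fun b => b.c = false).length =
      L.length := by
    clear h
    induction L with
    | nil => simp
    | cons a l ih =>
      rcases hc : a.c with _ | _
      · simp only [List.filter_cons, List.length_cons, hc]
        simp only [decide_true, decide_false, Bool.false_eq_true, if_true, if_false,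
          List.length_cons]
        omega
      · simp only [List.filter_cons, List.length_cons, hc]
        simp only [decide_true, decide_false, Bool.true_eq_false, Bool.false_eq_true, if_true,
          if_false, List.length_cons]
        omega
  by_cases h2 : d ≤ (L.filter fun b => b.c = true).length
  · exact ⟨true, h2⟩
  · exact ⟨false, by omega⟩

/-- The case of `2 * d - 1` blocks. -/
private theorem base_Main (f : S → S → S → Bool) (hs : ∀ x y z, f x y z = f y x z)
    (hs' : ∀ x y z, f x y z = f x z y) (q D θ K P d m k t : ℕ) (hq : 0 < q) (hθ : 1 ≤ θ)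
    (L : List (Blk S)) (W : Finset S) (hlen : 2 * d ≤ L.length + 1)
    (hD : 4 * (L.length + 1) * q ≤ D) (hP : 1 + L.length * K ≤ P)
    (hL : ∀ b ∈ L, Good f q D θ K t W b) (hN : ∀ b ∈ L, 2 * k ≤ b.N)
    (hR : L.Pairwise (Rel f W)) (htq : 2 * (t + m) ≤ q)
    (hW : 2 ^ (m * (3 * P + 7)) * θ ≤ W.card) : HasFan f m k d := by
  obtain ⟨c, hc⟩ := colour_Main L d hlen
  obtain ⟨L', hL'⟩ : ∃ L' : List (Blk S), L' = L.filter fun b => b.c = c := ⟨_, rfl⟩
  rw [← hL'] at hc
  have hmem : ∀ b ∈ L', b ∈ L ∧ b.c = c := by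
    intro b hb
    rw [hL'] at hb
    have h1 := List.mem_filter.1 hb
    exact ⟨h1.1, by simpa using h1.2⟩
  have hsub : L'.Sublist L := by
    rw [hL']
    exact List.filter_sublist
  have hle := hsub.length_le
  obtain ⟨U, r, hU, hUm, h1, h2, h3⟩ := chain_Main f hs hs' q D θ K P hq hθ m t L' W
    (le_trans (by gcongr) hD) (le_trans (by gcongr) hP) (fun b hb => hL b (hmem b hb).1) hW
  have hV : ∀ b ∈ L', k ≤ (r b).V.card := by
    intro b hb
    have h4 := h2 b hb
    have h5 := hN b (hmem b hb).1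
    have h6 : 2 * ((t + m) * b.N) ≤ q * b.N := by
      rw [← mul_assoc]
      exact Nat.mul_le_mul_right _ htq
    have h7 : q * b.N ≤ q * (2 * (r b).V.card) := by
      have h8 : q * (2 * (r b).V.card) = 2 * (q * (r b).V.card) := by ring
      rw [h8]
      omega
    have h9 := Nat.le_of_mul_le_mul_left h7 hq
    omega
  have hex : ∀ b : Blk S, ∃ B : Finset S, k ≤ (r b).V.card → B ⊆ (r b).V ∧
      B.card = k := by
    intro b
    by_cases hb : k ≤ (r b).V.card
    · obtain ⟨B, hB, hBc⟩ := Finset.exists_subset_card_eq hb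
      exact ⟨B, fun _ => ⟨hB, hBc⟩⟩
    · exact ⟨∅, fun h => absurd h hb⟩
  choose σ hσ using hex
  have hσ' : ∀ b ∈ L', σ b ⊆ b.V ∧ σ b ⊆ (r b).V ∧ (σ b).card = k := by
    intro b hb
    obtain ⟨h4, h5⟩ := hσ b (hV b hb)
    exact ⟨h4.trans (h1 b).2.2, h4, h5⟩
  refine ⟨!c, U, (L'.map σ).take d, ?_, hUm, ?_, ?_⟩
  · rw [List.length_take, List.length_map]
    omega
  · intro B hB
    obtain ⟨b, hb, rfl⟩ := List.mem_map.1 (List.mem_of_mem_take hB)
    obtain ⟨h4, h5, h6⟩ := hσ' b hb
    refine ⟨h6, ?_, ?_⟩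
    · exact (((hL b (hmem b hb).1).2.1.mono_left h4).mono_right hU).symm
    · intro x hx x' hx' hne y hy
      rw [hs' x x' y, hs x y x', h3 b hb y (h5 hy) x hx x' hx' hne, (hmem b hb).2]
  · refine List.Pairwise.sublist (List.take_sublist _ _) ?_
    rw [List.pairwise_map]
    refine List.Pairwise.imp_of_mem (fun {a b} ha hb hab => ?_) (hR.sublist hsub)
    obtain ⟨h4, h5, h6⟩ := hσ' a ha
    obtain ⟨h7, h8, h9⟩ := hσ' b hb
    refine ⟨((hab.1.mono_left h7).mono_right h4).symm, ?_⟩
    intro x hx y hy y' hy'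
    rw [hs' x y y', hs x y' y, hs' y' x y, hab.2 y' (h7 hy') y (h4 hy) x (hU hx), (hmem b hb).2]

/-- The main induction. -/
private theorem ind_Main (f : S → S → S → Bool) (hs : ∀ x y z, f x y z = f y x z)
    (hs' : ∀ x y z, f x y z = f x z y) (d m k u : ℕ) (hd : 2 ≤ d) (hm : 1 ≤ m)
    (hk1 : 1 ≤ k)
    (hu : 16 * d * (2 * d + m) ≤ 2 ^ u) :
    ∀ (s θ : ℕ) (L : List (Blk S)) (W : Finset S), L.length + s = 2 * d - 1 → k ≤ θ →
      (∀ b ∈ L, Good f (2 * (2 * d + m)) (2 ^ u) θ (K0 d m k u) L.length W b) →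
      (∀ b ∈ L, 2 * k ≤ b.N) → L.Pairwise (Rel f W) →
      2 ^ (Th d m k u s) * θ ≤ W.card → HasFan f m k d := by
  intro s
  induction s with
  | zero =>
    intro θ L W hlen hθ hL hN hR hW
    refine base_Main f hs hs' (2 * (2 * d + m)) (2 ^ u) θ (K0 d m k u) (PP d m k u) d m k L.length
      (by omega) (by omega) L W (by omega) ?_ ?_ hL hN hR (by omega) ?_
    · refine le_trans ?_ hu
      have h1 : L.length + 1 ≤ 2 * d := by omega
      calc 4 * (L.length + 1) * (2 * (2 * d + m)) ≤ 4 * (2 * d) * (2 * (2 * d + m)) := by gcongr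
        _ = 16 * d * (2 * d + m) := by ring
    · unfold PP
      have h1 : L.length ≤ 2 * d - 1 := by omega
      gcongr
    · rw [Th] at hW
      exact hW
  | succ s ih =>
    intro θ L W hlen hθ hL hN hR hW
    have hθ1 : 1 ≤ θ := by omega
    obtain ⟨K, hK⟩ : ∃ K, K = K0 d m k u := ⟨_, rfl⟩
    obtain ⟨P, hP⟩ : ∃ P, P = PP d m k u := ⟨_, rfl⟩
    obtain ⟨E, hE⟩ : ∃ E, E = Th d m k u s := ⟨_, rfl⟩
    have hTh : Th d m k u (s + 1) = P + 1 + 2 * K * (P + 1 + 2 * K) +
        (d - 1) * (E + cost u k K) := by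
      rw [Th, c1, hK, hP, hE]
    rw [← hK] at hL
    rw [hTh, pow_add, mul_assoc] at hW
    have hKpos : 0 < K := by
      rw [hK, K0]
      positivity
    have hWbig : 2 ^ (P + 1 + 2 * K * (P + 1 + 2 * K)) ≤ W.card := by
      refine le_trans ?_ hW
      exact Nat.le_mul_of_pos_right _ (Nat.mul_pos (by positivity) hθ1)
    have hθW : θ ≤ W.card := by
      refine le_trans ?_ hW
      rw [← mul_assoc]
      exact Nat.le_mul_of_pos_left _ (by positivity)
    obtain ⟨r, A, W', c, h1, h2, hA, hW', hk, hcard, hdis, hmono, hcol⟩ :=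
      step_Main f hs (2 * (2 * d + m)) (2 ^ u) θ K L.length P K (by omega) L W
        (by
          refine le_trans ?_ hu
          have h3 : L.length + 1 ≤ 2 * d := by omega
          calc 4 * (L.length + 1) * (2 * (2 * d + m)) ≤ 4 * (2 * d) * (2 * (2 * d + m)) := by
                gcongr
            _ = 16 * d * (2 * d + m) := by ring)
        (by
          rw [hP, PP, ← hK]
          have h3 : L.length ≤ 2 * d - 1 := by omega
          gcongr)
        hθW hL
        (by
          refine le_trans (Nat.pow_le_pow_right (by norm_num) ?_) hWbig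
          have h3 : 2 * K * 2 ≤ 2 * K * (P + 1 + 2 * K) := by
            refine Nat.mul_le_mul_left _ ?_
            omega
          omega)
    have hW'c : 2 ^ ((d - 1) * (E + cost u k K)) * θ ≤ W'.card :=
      Nat.le_of_mul_le_mul_left (hW.trans hcard) (by positivity)
    rcases trials f hs hs' c u k K E θ hk1 hθ1 (d - 1) A W' (by omega) (by omega) hW'c with
      ⟨A', B, W'', hA', hW'', hA'c, hW''c, hB, hBB⟩ |
        ⟨A', W'', θ', hA', hW'', hA'c, hθ', hE', hrare⟩
    · -- a fan of colour `c`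
      have hmA : m ≤ A'.card := by
        have hX : (2 ^ (u + 1)) ^ (d - 1) = 2 ^ (u + 1) * (2 ^ (u + 1)) ^ (d - 2) := by
          rw [← pow_succ']
          congr 1
          omega
        have h3 : (2 ^ (u + 1)) ^ (d - 1) * m ≤ K := by
          rw [hK, K0, hX]
          calc 2 ^ (u + 1) * (2 ^ (u + 1)) ^ (d - 2) * m
              = (m * 2 ^ (u + 1)) * (2 ^ (u + 1)) ^ (d - 2) := by ring
            _ ≤ _ := Nat.mul_le_mul_right _ (Nat.le_add_right _ _)
        rw [hk] at hA'c
        exact Nat.le_of_mul_le_mul_left (h3.trans hA'c) (by positivity)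
      obtain ⟨A0, hA0, hA0c⟩ := Finset.exists_subset_card_eq hmA
      obtain ⟨B0, hB0, hB0c⟩ := Finset.exists_subset_card_eq (hθ.trans hW''c)
      have hAA : ∀ B1 : Finset S, B1 ⊆ W' → B1.card = k → B1.card = k ∧ Disjoint A0 B1 ∧
          ∀ x ∈ A0, ∀ x' ∈ A0, x ≠ x' → ∀ y ∈ B1, f x x' y = c := by
        intro B1 hB1 hB1c
        refine ⟨hB1c, (hdis.mono_left (hA0.trans hA')).mono_right hB1, ?_⟩
        intro x hx x' hx' hne y hy
        exact hmono x (hA' (hA0 hx)) x' (hA' (hA0 hx')) hne y (hB1 hy)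
      refine ⟨c, A0, B0 :: (List.range (d - 1)).map B, ?_, hA0c, ?_, ?_⟩
      · rw [List.length_cons, List.length_map, List.length_range]
        omega
      · intro B1 hB1
        rcases List.mem_cons.1 hB1 with rfl | hB1
        · exact hAA _ (hB0.trans hW'') hB0c
        · obtain ⟨i, hi, rfl⟩ := List.mem_map.1 hB1
          obtain ⟨h3, h4, -, -⟩ := hB i (List.mem_range.1 hi)
          exact hAA _ h3 h4
      · rw [List.pairwise_cons]
        constructor
        · intro B1 hB1
          obtain ⟨i, hi, rfl⟩ := List.mem_map.1 hB1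
          obtain ⟨-, -, h5, h6⟩ := hB i (List.mem_range.1 hi)
          refine ⟨(h5.mono_right hB0).symm, fun x hx y hy y' hy' => ?_⟩
          rw [hs']
          exact h6 x (hA0 hx) y' hy' y (hB0 hy)
        · rw [List.pairwise_map]
          refine List.Pairwise.imp_of_mem (fun {i l} hi hl hil => ?_) List.pairwise_lt_range
          obtain ⟨h3, h4⟩ := hBB i (List.mem_range.1 hi) l (List.mem_range.1 hl) hil.ne
          exact ⟨h3, fun x hx y hy y' hy' => h4 x (hA0 hx) y hy y' hy'⟩
    · -- a new block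
      have hNA : 2 * k ≤ A'.card := by
        have hX : (2 ^ (u + 1)) ^ (d - 1) = (2 ^ (u + 1)) ^ (d - 2) * 2 ^ (u + 1) := by
          rw [← pow_succ]
          congr 1
          omega
        rw [hk, hK, K0] at hA'c
        have h3 : (2 ^ (u + 1)) ^ (d - 1) * (m * 2 ^ (u + 1) + 2 * k) ≤
            (2 ^ (u + 1)) ^ (d - 1) * A'.card := by
          refine le_trans (le_of_eq ?_) hA'c
          rw [hX]
          ring
        have h4 := Nat.le_of_mul_le_mul_left h3 (by positivity)
        omega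
      have hgr : ∀ b ∈ L, Good f (2 * (2 * d + m)) (2 ^ u) θ' K (L.length + 1) W'' (r b) := by
        intro b hb
        obtain ⟨h8, h9, h10⟩ := h1 b
        exact (hL b hb).refine_Main (hW''.trans hW') hθ' h8 h9 h10 (h2 b hb)
      refine ih θ' (⟨A', A'.card, c⟩ :: L.map r) W'' ?_ (hθ.trans hθ') ?_ ?_ ?_ ?_
      · rw [List.length_cons, List.length_map]
        omega
      · intro b' hb'
        rw [List.length_cons, List.length_map, ← hK]
        rcases List.mem_cons.1 hb' with rfl | hb'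
        · refine ⟨Nat.le_add_right _ _, ?_, ?_, hrare⟩
          · exact (hdis.mono_left hA').mono_right hW''
          · rw [← hk]
            exact Finset.card_le_card hA'
        · obtain ⟨b, hb, rfl⟩ := List.mem_map.1 hb'
          exact hgr b hb
      · intro b' hb'
        rcases List.mem_cons.1 hb' with rfl | hb'
        · exact hNA
        · obtain ⟨b, hb, rfl⟩ := List.mem_map.1 hb'
          rw [(h1 b).1]
          exact hN b hb
      · rw [List.pairwise_cons]
        constructor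
        · intro b' hb'
          obtain ⟨b, hb, rfl⟩ := List.mem_map.1 hb'
          obtain ⟨h8, h9, h10⟩ := h1 b
          refine ⟨?_, ?_⟩
          · exact ((hL b hb).2.1.mono_left h10).mono_right (hA'.trans hA)
          · intro v hv v' hv' w hw
            rw [h9]
            exact hcol b hb v hv v' (hA' hv') w (hW'' hw)
        · rw [List.pairwise_map]
          refine hR.imp fun {a b} hab => ?_
          obtain ⟨h8, h9, h10⟩ := h1 a
          obtain ⟨h11, h12, h13⟩ := h1 b
          refine ⟨(hab.1.mono_left h13).mono_right h10, ?_⟩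
          intro v hv v' hv' w hw
          rw [h12]
          exact hab.2 v (h13 hv) v' (h10 hv') w (hW' (hW'' hw))
      · rw [← hE]
        exact hE'

theorem fan_exists (f : S → S → S → Bool) (hs : ∀ x y z, f x y z = f y x z)
    (hs' : ∀ x y z, f x y z = f x z y) (d m k u : ℕ) (hd : 2 ≤ d) (hm : 1 ≤ m)
    (hk1 : 1 ≤ k)
    (hu : 16 * d * (2 * d + m) ≤ 2 ^ u) (W : Finset S)
    (hW : 2 ^ (Th d m k u (2 * d - 1)) * k ≤ W.card) :
    ∃ (c : Bool) (A : Finset S) (B : Fin d → Finset S), A.card = m ∧ (∀ i, (B i).card = k) ∧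
      (∀ i, Disjoint A (B i)) ∧ (∀ i j, i ≠ j → Disjoint (B i) (B j)) ∧
      (∀ i, ∀ x ∈ A, ∀ x' ∈ A, x ≠ x' → ∀ y ∈ B i, f x x' y = c) ∧
      ∀ i j, i ≠ j → ∀ x ∈ A, ∀ y ∈ B i, ∀ y' ∈ B j, f x y y' = c := by
  obtain ⟨c, A, Bs, hlen, hA, h1, h2⟩ := ind_Main f hs hs' d m k u hd hm hk1 hu
    (2 * d - 1) k [] W (by simp) le_rfl (fun b hb => absurd hb List.not_mem_nil)
    (fun b hb => absurd hb List.not_mem_nil) List.Pairwise.nil hW
  subst hlen
  rw [List.pairwise_iff_get] at h2
  refine ⟨c, A, fun i => Bs.get i, hA, fun i => (h1 _ (List.get_mem _ _)).1,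
    fun i => (h1 _ (List.get_mem _ _)).2.1, ?_, fun i => (h1 _ (List.get_mem _ _)).2.2, ?_⟩
  · intro i j hij
    rcases lt_or_gt_of_ne hij with h | h
    · exact (h2 i j h).1
    · exact (h2 j i h).1.symm
  · intro i j hij x hx y hy y' hy'
    rcases lt_or_gt_of_ne hij with h | h
    · exact (h2 i j h).2 x hx y hy y' hy'
    · rw [hs']
      exact (h2 j i h).2 x hx y' hy' y hy

end Pool.Agent.FanCross
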