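import Pool.Agent.FanCross.Refine

/-!
# Refinement with few patterns

`refine2`: as `refine`, but only the patterns with at most `s` deleted elements per block are
counted.

PROOF. Copy `refine` (make its private lemmas public in `Refine.lean`, or copy them here). The sets
`{v ∈ b.V : z.1 ≠ z.2 ∧ f v z.1 z.2 = b.c}` have at most `s` elements for `z ∈ T`
(`q * card ≤ b.N ≤ q * s`), so in the pigeonhole step for one block there are at most
`(b.V.card + 1) ^ s ≤ 2 ^ (ℓ * s)` values (the number of the subsets with at most `s` elements: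
`∑ i ≤ s, choose n i ≤ (n + 1) ^ s` by induction on `s`). Use these sets as patterns.
-/

set_option autoImplicit false
set_option linter.unusedSectionVars false

namespace Pool.Agent.FanCross

variable {S : Type*} [DecidableEq S]

private theorem refine2_sum (f : S → S → S → Bool) (A W : Finset S) (c : Bool) :
    (dens f A W c).card =
      ∑ q ∈ W ×ˢ W, (A.filter fun a => q.1 ≠ q.2 ∧ f a q.1 q.2 = c).card := by
  unfold dens
  rw [Finset.card_filter, Finset.sum_product_right]
  refine Finset.sum_congr rfl fun q _ => ?_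
  rw [Finset.card_filter]

/-- Few pairs are bad for one block. -/
private theorem refine2_one (f : S → S → S → Bool) (q D : ℕ) (b : Blk S) (W : Finset S)
    (h : D * (dens f b.V W b.c).card ≤ b.N * W.card ^ 2) :
    D * ((W ×ˢ W).filter fun z => b.N < q *
      (b.V.filter fun v => z.1 ≠ z.2 ∧ f v z.1 z.2 = b.c).card).card ≤ q * W.card ^ 2 := by
  set T : S × S → ℕ := fun z => (b.V.filter fun v => z.1 ≠ z.2 ∧ f v z.1 z.2 = b.c).card with hT
  set P := (W ×ˢ W).filter fun z => b.N < q * T z with hP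
  have h1 : (b.N + 1) * P.card ≤ q * (dens f b.V W b.c).card := by
    rw [refine2_sum, Finset.mul_sum]
    calc (b.N + 1) * P.card = ∑ _z ∈ P, (b.N + 1) := by
          rw [Finset.sum_const, smul_eq_mul, mul_comm]
      _ ≤ ∑ z ∈ P, q * T z := Finset.sum_le_sum fun z hz => (Finset.mem_filter.mp hz).2
      _ ≤ ∑ z ∈ W ×ˢ W, q * T z :=
          Finset.sum_le_sum_of_subset (Finset.filter_subset _ _)
  have h2 : (b.N + 1) * (D * P.card) ≤ (b.N + 1) * (q * W.card ^ 2) := by
    calc (b.N + 1) * (D * P.card) = D * ((b.N + 1) * P.card) := by ring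
      _ ≤ D * (q * (dens f b.V W b.c).card) := Nat.mul_le_mul_left _ h1
      _ = q * (D * (dens f b.V W b.c).card) := by ring
      _ ≤ q * (b.N * W.card ^ 2) := Nat.mul_le_mul_left _ h
      _ = b.N * (q * W.card ^ 2) := by ring
      _ ≤ _ := Nat.mul_le_mul_right _ (Nat.le_succ _)
  exact Nat.le_of_mul_le_mul_left h2 (Nat.succ_pos _)

/-- Few pairs are bad for some block. -/
private theorem refine2_bad (f : S → S → S → Bool) (q D : ℕ) (W : Finset S) : ∀ L : List (Blk S),
    (∀ b ∈ L, D * (dens f b.V W b.c).card ≤ b.N * W.card ^ 2) →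
    D * ((W ×ˢ W).filter fun z => ∃ b ∈ L, b.N < q *
      (b.V.filter fun v => z.1 ≠ z.2 ∧ f v z.1 z.2 = b.c).card).card ≤
        L.length * (q * W.card ^ 2) := by
  intro L
  induction L with
  | nil =>
    intro _
    simp
  | cons b L ih =>
    intro h
    have h1 := ih fun b' hb' => h b' (List.mem_cons_of_mem _ hb')
    have h2 := refine2_one f q D b W (h b List.mem_cons_self)
    have h3 : ((W ×ˢ W).filter fun z => ∃ b' ∈ b :: L, b'.N < q *
        (b'.V.filter fun v => z.1 ≠ z.2 ∧ f v z.1 z.2 = b'.c).card).card ≤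
        ((W ×ˢ W).filter fun z => b.N < q *
          (b.V.filter fun v => z.1 ≠ z.2 ∧ f v z.1 z.2 = b.c).card).card +
        ((W ×ˢ W).filter fun z => ∃ b' ∈ L, b'.N < q *
          (b'.V.filter fun v => z.1 ≠ z.2 ∧ f v z.1 z.2 = b'.c).card).card := by
      refine (Finset.card_le_card ?_).trans (Finset.card_union_le _ _)
      intro z hz
      obtain ⟨hz1, b', hb', hz2⟩ := Finset.mem_filter.mp hz
      rcases List.mem_cons.mp hb' with rfl | hb''
      · exact Finset.mem_union_left _ (Finset.mem_filter.mpr ⟨hz1, hz2⟩)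
      · exact Finset.mem_union_right _ (Finset.mem_filter.mpr ⟨hz1, b', hb'', hz2⟩)
    have h4 := Nat.mul_le_mul_left D h3
    rw [mul_add] at h4
    rw [List.length_cons, add_mul, one_mul]
    omega

/-- The number of subsets with at most `s` elements. -/
private theorem refine2_card (A : Finset S) : ∀ s : ℕ,
    (A.powerset.filter fun B => B.card ≤ s).card ≤ (A.card + 1) ^ s := by
  intro s
  induction s with
  | zero =>
    rw [pow_zero]
    refine Finset.card_le_one.2 fun B hB B' hB' => ?_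
    rw [Finset.mem_filter, Nat.le_zero, Finset.card_eq_zero] at hB hB'
    rw [hB.2, hB'.2]
  | succ s ih =>
    have h1 : (A.powerset.filter fun B => B.card ≤ s + 1) ⊆
        ((A.powerset.filter fun B => B.card ≤ s) ×ˢ (insert none (A.image some))).image
          fun z : Finset S × Option S => z.2.elim z.1 fun x => insert x z.1 := by
      intro B hB
      obtain ⟨hB1, hB2⟩ := Finset.mem_filter.mp hB
      have hBA := Finset.mem_powerset.mp hB1
      rw [Finset.mem_image]
      rcases Finset.eq_empty_or_nonempty B with rfl | ⟨x, hx⟩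
      · refine ⟨(∅, none), Finset.mem_product.mpr ⟨Finset.mem_filter.mpr ⟨hB1, by simp⟩,
          Finset.mem_insert_self _ _⟩, rfl⟩
      · refine ⟨(B.erase x, some x), Finset.mem_product.mpr ⟨Finset.mem_filter.mpr
          ⟨Finset.mem_powerset.mpr ((Finset.erase_subset _ _).trans hBA), ?_⟩,
          Finset.mem_insert_of_mem (Finset.mem_image_of_mem _ (hBA hx))⟩, ?_⟩
        · change (B.erase x).card ≤ s
          rw [Finset.card_erase_of_mem hx]
          omega
        · exact Finset.insert_erase hx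
    refine (Finset.card_le_card h1).trans (Finset.card_image_le.trans ?_)
    rw [Finset.card_product, pow_succ]
    refine Nat.mul_le_mul ih ((Finset.card_insert_le _ _).trans ?_)
    exact Nat.succ_le_succ Finset.card_image_le

/-- The popular pattern for one set. -/
private theorem refine2_pigeon {α : Type*} [DecidableEq α] (P : Finset α) (A : Finset S) (s : ℕ)
    (T : α → Finset S) (hT : ∀ q ∈ P, T q ⊆ A ∧ (T q).card ≤ s) (hP : P.Nonempty) :
    ∃ A' ∈ P.image T, P.card ≤ (A.card + 1) ^ s * (P.filter fun q => T q = A').card := by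
  by_contra hcon
  push Not at hcon
  have h1 : P.card = ∑ A' ∈ P.image T, (P.filter fun q => T q = A').card :=
    Finset.card_eq_sum_card_image T P
  have h2 : (P.image T).card ≤ (A.card + 1) ^ s := by
    refine (Finset.card_le_card fun A' hA' => ?_).trans (refine2_card A s)
    obtain ⟨q, hq, rfl⟩ := Finset.mem_image.mp hA'
    exact Finset.mem_filter.mpr ⟨Finset.mem_powerset.mpr (hT q hq).1, (hT q hq).2⟩
  have h3 : ∑ A' ∈ P.image T, (A.card + 1) ^ s * (P.filter fun q => T q = A').card <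
      ∑ _A' ∈ P.image T, P.card :=
    Finset.sum_lt_sum_of_nonempty (hP.image T) fun A' hA' => hcon A' hA'
  rw [← Finset.mul_sum, ← h1, Finset.sum_const, smul_eq_mul] at h3
  exact absurd h3 (not_lt.mpr (Nat.mul_le_mul_right _ h2))

/-- The popular pattern for all blocks. -/
private theorem refine2_patt (f : S → S → S → Bool) (s ℓ : ℕ) :
    ∀ (L : List (Blk S)) (T : Finset (S × S)), (∀ b ∈ L, b.V.card + 1 ≤ 2 ^ ℓ) →
    (∀ z ∈ T, z.1 ≠ z.2 ∧ ∀ b ∈ L,
      (b.V.filter fun v => z.1 ≠ z.2 ∧ f v z.1 z.2 = b.c).card ≤ s) →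
    T.Nonempty → ∃ T' ⊆ T, T'.Nonempty ∧
      T.card ≤ 2 ^ (L.length * (ℓ * s)) * T'.card ∧
      ∀ z ∈ T', ∀ z' ∈ T', ∀ b ∈ L, ∀ v ∈ b.V, f v z.1 z.2 = f v z'.1 z'.2 := by
  intro L
  induction L with
  | nil =>
    intro T _ _ hT
    exact ⟨T, Finset.Subset.refl _, hT, by simp, fun z _ z' _ b hb => by simp at hb⟩
  | cons b L ih =>
    intro T hV hs hT
    obtain ⟨A', hA', hpop⟩ := refine2_pigeon T b.V s
      (fun z => b.V.filter fun v => z.1 ≠ z.2 ∧ f v z.1 z.2 = b.c)
      (fun z hz => ⟨Finset.filter_subset _ _, (hs z hz).2 b List.mem_cons_self⟩) hT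
    obtain ⟨z0, hz0, hz0A⟩ := Finset.mem_image.mp hA'
    obtain ⟨T', hT', hne, hcard, hall⟩ := ih
      (T.filter fun z => (b.V.filter fun v => z.1 ≠ z.2 ∧ f v z.1 z.2 = b.c) = A')
      (fun b' hb' => hV b' (List.mem_cons_of_mem _ hb'))
      (fun z hz => ⟨(hs z (Finset.mem_filter.mp hz).1).1, fun b' hb' =>
        (hs z (Finset.mem_filter.mp hz).1).2 b' (List.mem_cons_of_mem _ hb')⟩)
      ⟨z0, Finset.mem_filter.mpr ⟨hz0, hz0A⟩⟩
    refine ⟨T', hT'.trans (Finset.filter_subset _ _), hne, ?_, ?_⟩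
    · have h1 : (b.V.card + 1) ^ s ≤ 2 ^ (ℓ * s) := by
        rw [pow_mul]
        exact Nat.pow_le_pow_left (hV b List.mem_cons_self) s
      rw [List.length_cons, add_mul, one_mul, add_comm, pow_add, mul_assoc]
      exact hpop.trans (Nat.mul_le_mul h1 hcard)
    · intro z hz z' hz' b' hb' v hv
      rcases List.mem_cons.mp hb' with rfl | hb''
      · obtain ⟨hm1, h1⟩ := Finset.mem_filter.mp (hT' hz)
        obtain ⟨hm2, h2⟩ := Finset.mem_filter.mp (hT' hz')
        have h3 : v ∈ b'.V.filter (fun v => z.1 ≠ z.2 ∧ f v z.1 z.2 = b'.c) ↔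
            v ∈ b'.V.filter (fun v => z'.1 ≠ z'.2 ∧ f v z'.1 z'.2 = b'.c) := by rw [h1, h2]
        rw [Finset.mem_filter, Finset.mem_filter] at h3
        have h4 : f v z.1 z.2 = b'.c ↔ f v z'.1 z'.2 = b'.c :=
          ⟨fun h => (h3.mp ⟨hv, (hs z hm1).1, h⟩).2.2,
            fun h => (h3.mpr ⟨hv, (hs z' hm2).1, h⟩).2.2⟩
        cases hf : f v z.1 z.2 <;> cases hf' : f v z'.1 z'.2 <;> cases hc : b'.c <;> simp_all
      · exact hall z hz z' hz' b' hb'' v hv

/-- Refinement with few patterns. -/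
theorem refine2 (f : S → S → S → Bool) (q D s ℓ : ℕ) (L : List (Blk S)) (W : Finset S)
    (hq : 0 < q) (hD : 4 * (L.length + 1) * q ≤ D)
    (h : ∀ b ∈ L, D * (dens f b.V W b.c).card ≤ b.N * W.card ^ 2) (hW : 4 ≤ W.card)
    (hN : ∀ b ∈ L, b.N ≤ q * s) (hV : ∀ b ∈ L, b.V.card + 1 ≤ 2 ^ ℓ) :
    ∃ (r : Blk S → Blk S) (G : S → S → Prop) (_ : DecidableRel G),
      (∀ b, (r b).N = b.N ∧ (r b).c = b.c ∧ (r b).V ⊆ b.V) ∧
      (∀ b ∈ L, q * b.V.card ≤ q * (r b).V.card + b.N) ∧
      W.card ^ 2 ≤ 2 ^ (1 + L.length * (ℓ * s)) *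
        ((W ×ˢ W).filter fun z => G z.1 z.2).card ∧
      ∀ x y, G x y → x ≠ y ∧ ∀ b ∈ L, ∀ v ∈ (r b).V, f v x y = !b.c := by
  classical
  set T := (W ×ˢ W).filter fun z => z.1 ≠ z.2 ∧ ∀ b ∈ L,
    q * (b.V.filter fun v => z.1 ≠ z.2 ∧ f v z.1 z.2 = b.c).card ≤ b.N with hT
  set Bad := (W ×ˢ W).filter fun z => ∃ b ∈ L, b.N < q *
    (b.V.filter fun v => z.1 ≠ z.2 ∧ f v z.1 z.2 = b.c).card with hBad
  have hbad : 4 * Bad.card ≤ W.card ^ 2 := by
    have h1 := refine2_bad f q D W L h
    have h2 : (4 * (L.length + 1) * q) * Bad.card ≤ L.length * (q * W.card ^ 2) :=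
      (Nat.mul_le_mul_right _ hD).trans h1
    have h3 : ((L.length + 1) * q) * (4 * Bad.card) ≤ ((L.length + 1) * q) * W.card ^ 2 := by
      calc ((L.length + 1) * q) * (4 * Bad.card) = (4 * (L.length + 1) * q) * Bad.card := by ring
        _ ≤ L.length * (q * W.card ^ 2) := h2
        _ ≤ (L.length + 1) * (q * W.card ^ 2) := Nat.mul_le_mul_right _ (Nat.le_succ _)
        _ = _ := by ring
    exact Nat.le_of_mul_le_mul_left h3 (Nat.mul_pos (Nat.succ_pos _) hq)
  have hcover : W.card ^ 2 ≤ T.card + Bad.card + W.card := by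
    have h1 : (W ×ˢ W).card ≤ (T ∪ Bad ∪ W.diag).card := by
      refine Finset.card_le_card fun z hz => ?_
      rw [Finset.mem_union, Finset.mem_union]
      by_cases h2 : z.1 = z.2
      · right
        exact Finset.mem_diag.mpr ⟨(Finset.mem_product.mp hz).1, h2⟩
      · left
        by_cases h3 : ∃ b ∈ L, b.N < q *
            (b.V.filter fun v => z.1 ≠ z.2 ∧ f v z.1 z.2 = b.c).card
        · right
          exact Finset.mem_filter.mpr ⟨hz, h3⟩
        · left
          refine Finset.mem_filter.mpr ⟨hz, h2, fun b hb => ?_⟩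
          by_contra h4
          exact h3 ⟨b, hb, by omega⟩
    have h2 := Finset.card_union_le (T ∪ Bad) W.diag
    have h3 := Finset.card_union_le T Bad
    have h4 : W.diag.card = W.card := Finset.diag_card W
    rw [Finset.card_product, ← pow_two] at h1
    omega
  have hTcard : W.card ^ 2 ≤ 2 * T.card := by
    have h1 : 4 * W.card ≤ W.card ^ 2 := by
      rw [pow_two]
      exact Nat.mul_le_mul_right _ hW
    omega
  have hTne : T.Nonempty := by
    rw [← Finset.card_pos]
    have h1 : 0 < W.card ^ 2 := by positivity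
    omega
  obtain ⟨T', hT', hne, hcard, hall⟩ := refine2_patt f s ℓ L T hV (fun z hz => by
    have h1 := (Finset.mem_filter.mp hz).2
    refine ⟨h1.1, fun b hb => ?_⟩
    exact Nat.le_of_mul_le_mul_left ((h1.2 b hb).trans (hN b hb)) hq) hTne
  obtain ⟨z0, hz0⟩ := hne
  have hz0T := (Finset.mem_filter.mp (hT' hz0)).2
  refine ⟨fun b => ⟨b.V.filter fun v => f v z0.1 z0.2 ≠ b.c, b.N, b.c⟩, fun x y => (x, y) ∈ T',
    fun x y => inferInstance, fun b => ⟨rfl, rfl, Finset.filter_subset _ _⟩, ?_, ?_, ?_⟩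
  · intro b hb
    have h1 := hz0T.2 b hb
    have h2 : b.V.card = (b.V.filter fun v => f v z0.1 z0.2 ≠ b.c).card +
        (b.V.filter fun v => z0.1 ≠ z0.2 ∧ f v z0.1 z0.2 = b.c).card := by
      rw [← Finset.card_filter_add_card_filter_not (s := b.V) (fun v => f v z0.1 z0.2 ≠ b.c)]
      congr 2
      ext v
      simp only [Finset.mem_filter, not_not]
      exact ⟨fun h => ⟨h.1, hz0T.1, h.2⟩, fun h => ⟨h.1, h.2.2⟩⟩
    change q * b.V.card ≤ q * (b.V.filter fun v => f v z0.1 z0.2 ≠ b.c).card + b.N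
    rw [h2, mul_add]
    omega
  · have h1 : T' ⊆ (W ×ˢ W).filter fun z => (z.1, z.2) ∈ T' := by
      intro z hz
      exact Finset.mem_filter.mpr ⟨(Finset.mem_filter.mp (hT' hz)).1, hz⟩
    calc W.card ^ 2 ≤ 2 * T.card := hTcard
      _ ≤ 2 * (2 ^ (L.length * (ℓ * s)) * T'.card) := Nat.mul_le_mul_left _ hcard
      _ = 2 ^ (1 + L.length * (ℓ * s)) * T'.card := by rw [pow_add, pow_one, mul_assoc]
      _ ≤ _ := Nat.mul_le_mul_left _ (Finset.card_le_card h1)
  · intro x y hxy
    have h1 := (Finset.mem_filter.mp (hT' hxy)).2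
    refine ⟨h1.1, fun b hb v hv => ?_⟩
    obtain ⟨hv1, hv2⟩ := Finset.mem_filter.mp hv
    have h2 := hall (x, y) hxy z0 hz0 b hb v hv1
    change f v x y = f v z0.1 z0.2 at h2
    rw [h2]
    cases hf : f v z0.1 z0.2 <;> cases hc : b.c <;> simp_all

end Pool.Agent.FanCross
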