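import Pool.Agent.FanCross.Trial2

/-!
# Trials with patterns of prescribed size

`trial3`: as `trial2`, but only `s` elements of `A` are kept, so that there are at most
`|A| ^ s ≤ 2 ^ (ℓ * s)` patterns. `trials3`: several trials one after the other.
-/

set_option autoImplicit false
set_option linter.unusedSectionVars false

namespace Pool.Agent.FanCross

variable {S : Type*} [DecidableEq S]

/-- Cost of one trial. -/
def cost3 (u b ℓ s : ℕ) : ℕ := (b + 1) * (u + 4 + ℓ * s)

private theorem pigeon_t3 {α : Type*} [DecidableEq α] (P : Finset α) (T : α → Finset S) (N : ℕ)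
    (hN : (P.image T).card ≤ N) (hP : P.Nonempty) :
    ∃ A' ∈ P.image T, P.card ≤ N * (P.filter fun q => T q = A').card := by
  by_contra hcon
  push Not at hcon
  have h1 : P.card = ∑ A' ∈ P.image T, (P.filter fun q => T q = A').card :=
    Finset.card_eq_sum_card_image T P
  have h3 : ∑ A' ∈ P.image T, N * (P.filter fun q => T q = A').card <
      ∑ _A' ∈ P.image T, P.card :=
    Finset.sum_lt_sum_of_nonempty (hP.image T) fun A' hA' => hcon A' hA'
  rw [← Finset.mul_sum, ← h1, Finset.sum_const, smul_eq_mul] at h3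
  exact absurd h3 (not_lt.mpr (Nat.mul_le_mul_right _ hN))

/-- One trial with patterns of prescribed size: as `trial2`. Let `s'` be the least number with
`A.card ≤ 2 ^ (u + 1) * s'`, so `s' ≤ s`. For the pairs `q` of `P` choose a subset `T' q` of `T q`
with exactly `s'` elements; it is an element of `A.powersetCard s'`, which has at most
`A.card ^ s' ≤ 2 ^ (ℓ * s)` elements. -/
theorem trial3 (f : S → S → S → Bool) (A W : Finset S) (c : Bool) (u b ℓ s : ℕ)
    (hA : 0 < A.card) (hAs : A.card ≤ 2 ^ (u + 1) * s) (hAl : A.card ≤ 2 ^ ℓ)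
    (hd : A.card * W.card ^ 2 ≤ 2 ^ u * (dens f A W c).card)
    (hW : 2 ^ cost3 u b ℓ s ≤ W.card) :
    ∃ A' B W' : Finset S, A' ⊆ A ∧ B ⊆ W ∧ W' ⊆ W ∧ A.card ≤ 2 ^ (u + 1) * A'.card ∧
      B.card = b ∧ W.card ≤ 2 ^ cost3 u b ℓ s * W'.card ∧
      Disjoint B W' ∧ ∀ a ∈ A', ∀ y ∈ B, ∀ w ∈ W', f a y w = c := by
  have hW0 : 0 < W.card := lt_of_lt_of_le (by positivity) hW
  have h1 := trial_pairs f A W c u hA hd
  set T : S × S → Finset S := fun q => A.filter fun a => q.1 ≠ q.2 ∧ f a q.1 q.2 = c with hT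
  set P := (W ×ˢ W).filter fun q => A.card ≤ 2 ^ (u + 1) * (T q).card with hP
  have hPne : P.Nonempty := by
    rw [← Finset.card_pos]
    by_contra h2
    have h3 : P.card = 0 := by omega
    rw [h3, mul_zero] at h1
    have h4 : 0 < W.card ^ 2 := by positivity
    omega
  classical
  have hex : ∃ t, A.card ≤ 2 ^ (u + 1) * t := ⟨s, hAs⟩
  set s' := Nat.find hex with hs'
  have hs'1 : A.card ≤ 2 ^ (u + 1) * s' := Nat.find_spec hex
  have hs's : s' ≤ s := Nat.find_min' hex hAs
  have hs'0 : 0 < s' := by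
    rcases Nat.eq_zero_or_pos s' with h | h
    · rw [h, mul_zero] at hs'1
      omega
    · exact h
  have hch : ∀ q, ∃ R : Finset S, q ∈ P → R ⊆ T q ∧ R.card = s' := by
    intro q
    by_cases hq : q ∈ P
    · have h2 : s' ≤ (T q).card := Nat.find_min' hex (Finset.mem_filter.mp hq).2
      obtain ⟨R, hR, hRc⟩ := Finset.exists_subset_card_eq h2
      exact ⟨R, fun _ => ⟨hR, hRc⟩⟩
    · exact ⟨∅, fun h => absurd h hq⟩
  choose T' hT' using hch
  have hN : (P.image T').card ≤ 2 ^ (ℓ * s) := by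
    have h2 : P.image T' ⊆ A.powersetCard s' := by
      intro R hR
      obtain ⟨q, hq, rfl⟩ := Finset.mem_image.mp hR
      rw [Finset.mem_powersetCard]
      exact ⟨(hT' q hq).1.trans (Finset.filter_subset _ _), (hT' q hq).2⟩
    calc (P.image T').card ≤ (A.powersetCard s').card := Finset.card_le_card h2
      _ = A.card.choose s' := Finset.card_powersetCard _ _
      _ ≤ A.card ^ s' := Nat.choose_le_pow _ _
      _ ≤ (2 ^ ℓ) ^ s' := Nat.pow_le_pow_left hAl _
      _ = 2 ^ (ℓ * s') := by rw [← pow_mul]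
      _ ≤ 2 ^ (ℓ * s) := Nat.pow_le_pow_right (by norm_num) (Nat.mul_le_mul_left _ hs's)
  obtain ⟨A', hA', hpop⟩ := pigeon_t3 P T' (2 ^ (ℓ * s)) hN hPne
  obtain ⟨q0, hq0, hq0A⟩ := Finset.mem_image.mp hA'
  have hA'sub : A' ⊆ A := by
    rw [← hq0A]
    exact (hT' q0 hq0).1.trans (Finset.filter_subset _ _)
  have hA'c : A'.card = s' := by
    rw [← hq0A]
    exact (hT' q0 hq0).2
  obtain ⟨a0, ha0⟩ := Finset.card_pos.mp (hA'c.symm ▸ hs'0)
  let G : S → S → Prop := fun x y => x ≠ y ∧ ∀ a ∈ A', f a x y = c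
  have hG : W.card ^ 2 ≤ 2 ^ (u + 1 + ℓ * s) * ((W ×ˢ W).filter fun q => G q.1 q.2).card := by
    have h2 : (P.filter fun q => T' q = A').card ≤
        ((W ×ˢ W).filter fun q => G q.1 q.2).card := by
      refine Finset.card_le_card fun q hq => ?_
      obtain ⟨h3, h4⟩ := Finset.mem_filter.mp hq
      refine Finset.mem_filter.mpr ⟨(Finset.mem_filter.mp h3).1, ?_, ?_⟩
      · have h5 : a0 ∈ T q := (hT' q h3).1 (by rw [h4]; exact ha0)
        exact (Finset.mem_filter.mp h5).2.1
      · intro a ha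
        have h5 : a ∈ T q := (hT' q h3).1 (by rw [h4]; exact ha)
        exact (Finset.mem_filter.mp h5).2.2
    calc W.card ^ 2 ≤ 2 ^ (u + 1) * P.card := h1
      _ ≤ 2 ^ (u + 1) * (2 ^ (ℓ * s) * (P.filter fun q => T' q = A').card) :=
          Nat.mul_le_mul_left _ hpop
      _ ≤ 2 ^ (u + 1) * (2 ^ (ℓ * s) * ((W ×ˢ W).filter fun q => G q.1 q.2).card) := by gcongr
      _ = _ := by rw [← mul_assoc, ← pow_add]
  have hcost : u + 1 + ℓ * s + 2 + b ≤ cost3 u b ℓ s := by
    unfold cost3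
    have h2 : (b + 1) * (u + 4 + ℓ * s) = b * (u + 4 + ℓ * s) + (u + 4 + ℓ * s) := by ring
    have h3 : b * 1 ≤ b * (u + 4 + ℓ * s) := Nat.mul_le_mul_left _ (by omega)
    omega
  obtain ⟨B, W', hB, hW', hBb, hcard, hBG⟩ := kst W G (u + 1 + ℓ * s) b hG
    (le_trans (Nat.pow_le_pow_right (by norm_num) hcost) hW)
  refine ⟨A', B, W', hA'sub, hB, hW', by rw [hA'c]; exact hs'1, hBb, ?_, ?_, ?_⟩
  · refine hcard.trans (Nat.mul_le_mul_right _ (Nat.pow_le_pow_right (by norm_num) ?_))
    exact Nat.mul_le_mul_left _ (by omega)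
  · rw [Finset.disjoint_left]
    intro x hx hx'
    exact (hBG x hx x hx').1 rfl
  · intro a ha y hy w hw
    exact (hBG y hy w hw).2 a ha

/-- Several trials one after the other. -/
theorem trials3 (f : S → S → S → Bool) (hs : ∀ x y z, f x y z = f y x z)
    (hs' : ∀ x y z, f x y z = f x z y) (c : Bool) (u b ℓ s E θ : ℕ) (hθ : 1 ≤ θ) :
    ∀ (j : ℕ) (A W : Finset S), 0 < A.card → A.card ≤ 2 ^ (u + 1) * s → A.card ≤ 2 ^ ℓ →
      2 ^ (j * (E + cost3 u b ℓ s)) * θ ≤ W.card →
      (∃ (A' : Finset S) (B : ℕ → Finset S) (W' : Finset S), A' ⊆ A ∧ W' ⊆ W ∧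
        A.card ≤ (2 ^ (u + 1)) ^ j * A'.card ∧ θ ≤ W'.card ∧
        (∀ i < j, B i ⊆ W ∧ (B i).card = b ∧ Disjoint (B i) W' ∧
          ∀ a ∈ A', ∀ y ∈ B i, ∀ w ∈ W', f a y w = c) ∧
        ∀ i < j, ∀ l < j, i ≠ l → Disjoint (B i) (B l) ∧
          ∀ a ∈ A', ∀ y ∈ B i, ∀ z ∈ B l, f a y z = c) ∨
      ∃ (A' W'' : Finset S) (θ' : ℕ), A' ⊆ A ∧ W'' ⊆ W ∧
        A.card * 2 ^ (u + 1) ≤ (2 ^ (u + 1)) ^ j * A'.card ∧ θ ≤ θ' ∧
        2 ^ E * θ' ≤ W''.card ∧ ∀ W' ⊆ W'', θ' ≤ W'.card →
          2 ^ u * (dens f A' W' c).card ≤ A'.card * W'.card ^ 2 := by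
  intro j
  induction j with
  | zero =>
    intro A W hA hAs hAl hW
    left
    refine ⟨A, fun _ => ∅, W, Finset.Subset.refl _, Finset.Subset.refl _, by simp, ?_, ?_, ?_⟩
    · simpa using hW
    · intro i hi
      omega
    · intro i hi
      omega
  | succ j ih =>
    intro A W hA hAs hAl hW
    have hle : 2 ^ E * (2 ^ (cost3 u b ℓ s + j * (E + cost3 u b ℓ s)) * θ) ≤ W.card := by
      refine le_trans (le_of_eq ?_) hW
      rw [← mul_assoc, ← pow_add]
      congr 2
      ring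
    by_cases hcase : ∀ W' ⊆ W, 2 ^ (cost3 u b ℓ s + j * (E + cost3 u b ℓ s)) * θ ≤ W'.card →
        2 ^ u * (dens f A W' c).card ≤ A.card * W'.card ^ 2
    · right
      refine ⟨A, W, 2 ^ (cost3 u b ℓ s + j * (E + cost3 u b ℓ s)) * θ, Finset.Subset.refl _,
        Finset.Subset.refl _, ?_, ?_, hle, hcase⟩
      · have h1 : A.card * 2 ^ (u + 1) ≤ (2 ^ (u + 1)) ^ j * (A.card * 2 ^ (u + 1)) :=
          Nat.le_mul_of_pos_left _ (by positivity)
        refine h1.trans (le_of_eq ?_)
        ring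
      · exact Nat.le_mul_of_pos_left _ (by positivity)
    · push Not at hcase
      obtain ⟨W1, hW1, hW1c, hdens⟩ := hcase
      have hcost : 2 ^ cost3 u b ℓ s ≤ W1.card := by
        refine le_trans ?_ hW1c
        calc 2 ^ cost3 u b ℓ s ≤ 2 ^ (cost3 u b ℓ s + j * (E + cost3 u b ℓ s)) :=
              Nat.pow_le_pow_right (by norm_num) (Nat.le_add_right _ _)
          _ ≤ _ := Nat.le_mul_of_pos_right _ hθ
      obtain ⟨A1, B0, W2, hA1, hB0, hW2, hA1c, hB0c, hW2c, hdis, hcol⟩ :=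
        trial3 f A W1 c u b ℓ s hA hAs hAl hdens.le hcost
      have hW2c' : 2 ^ (j * (E + cost3 u b ℓ s)) * θ ≤ W2.card := by
        have h2 : 2 ^ cost3 u b ℓ s * (2 ^ (j * (E + cost3 u b ℓ s)) * θ) ≤
            2 ^ cost3 u b ℓ s * W2.card := by
          calc 2 ^ cost3 u b ℓ s * (2 ^ (j * (E + cost3 u b ℓ s)) * θ)
              = 2 ^ (cost3 u b ℓ s + j * (E + cost3 u b ℓ s)) * θ := by
                rw [← mul_assoc, ← pow_add]
            _ ≤ W1.card := hW1c
            _ ≤ _ := hW2c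
        exact Nat.le_of_mul_le_mul_left h2 (by positivity)
      have hA1pos : 0 < A1.card := by
        rcases Nat.eq_zero_or_pos A1.card with h | h
        · rw [h, mul_zero] at hA1c
          omega
        · exact h
      have hA1A : A1.card ≤ A.card := Finset.card_le_card hA1
      rcases ih A1 W2 hA1pos (hA1A.trans hAs) (hA1A.trans hAl) hW2c' with
        ⟨A', B, W', hA', hW', hA'c, hW'c, hB, hBB⟩ | ⟨A', W'', θ', hA', hW'', hA'c, hθ', hE, hrare⟩
      · left
        refine ⟨A', fun i => if i = j then B0 else B i, W', hA'.trans hA1,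
          hW'.trans (hW2.trans hW1), ?_, hW'c, ?_, ?_⟩
        · calc A.card ≤ 2 ^ (u + 1) * A1.card := hA1c
            _ ≤ 2 ^ (u + 1) * ((2 ^ (u + 1)) ^ j * A'.card) := Nat.mul_le_mul_left _ hA'c
            _ = _ := by ring
        · intro i hi
          beta_reduce
          by_cases hij : i = j
          · rw [if_pos hij]
            refine ⟨hB0.trans hW1, hB0c, hdis.mono_right hW', fun a ha y hy w hw => ?_⟩
            exact hcol a (hA' ha) y hy w (hW' hw)
          · rw [if_neg hij]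
            obtain ⟨h1, h2, h3, h4⟩ := hB i (by omega)
            exact ⟨h1.trans (hW2.trans hW1), h2, h3, h4⟩
        · intro i hi l hl hil
          beta_reduce
          by_cases hij : i = j
          · rw [if_pos hij, if_neg (by omega)]
            obtain ⟨h1, -, -, -⟩ := hB l (by omega)
            exact ⟨hdis.mono_right h1, fun a ha y hy z hz => hcol a (hA' ha) y hy z (h1 hz)⟩
          · by_cases hlj : l = j
            · rw [if_neg hij, if_pos hlj]
              obtain ⟨h1, -, -, -⟩ := hB i (by omega)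
              refine ⟨(hdis.mono_right h1).symm, fun a ha y hy z hz => ?_⟩
              rw [hs']
              exact hcol a (hA' ha) z hz y (h1 hy)
            · rw [if_neg hij, if_neg hlj]
              exact hBB i (by omega) l (by omega) hil
      · right
        refine ⟨A', W'', θ', hA'.trans hA1, hW''.trans (hW2.trans hW1), ?_, hθ', hE, hrare⟩
        calc A.card * 2 ^ (u + 1) ≤ 2 ^ (u + 1) * A1.card * 2 ^ (u + 1) :=
              Nat.mul_le_mul_right _ hA1c
          _ = 2 ^ (u + 1) * (A1.card * 2 ^ (u + 1)) := by ring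
          _ ≤ 2 ^ (u + 1) * ((2 ^ (u + 1)) ^ j * A'.card) := Nat.mul_le_mul_left _ hA'c
          _ = _ := by ring

end Pool.Agent.FanCross
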