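import Pool.Agent.FanCross.Grid

/-!
# Many chains at the same time

`R i`, `i < J`, are symmetric relations such that in every large subset of `W` the average density
of the `R i` is at least `1 / 4`. `clique_pos`: `W` contains an `m`-element set which is a clique of
one of the `R i`, at the cost of two bits for each of `J m` steps.
-/

set_option autoImplicit false
set_option linter.unusedSectionVars false

namespace Pool.Agent.FanCross

variable {S : Type*} [DecidableEq S]

/-- One step: a popular index and a popular vertex. -/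
private theorem step_Pos (J : ℕ) (hJ : 0 < J) (R : ℕ → S → S → Prop) [∀ i, DecidableRel (R i)]
    (W : Finset S) (hW0 : 0 < W.card)
    (hd : J * W.card ^ 2 ≤ 4 * ∑ i ∈ Finset.range J,
      ((W ×ˢ W).filter fun z => z.1 ≠ z.2 ∧ R i z.1 z.2).card) :
    ∃ i < J, ∃ y ∈ W, W.card ≤ 4 * (W.filter fun w => y ≠ w ∧ R i y w).card := by
  by_contra hcon
  push Not at hcon
  have h2 : ∀ i, ((W ×ˢ W).filter fun z => z.1 ≠ z.2 ∧ R i z.1 z.2).card =
      ∑ y ∈ W, (W.filter fun w => y ≠ w ∧ R i y w).card := by
    intro i
    rw [Finset.card_filter, Finset.sum_product]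
    refine Finset.sum_congr rfl fun y _ => ?_
    rw [Finset.card_filter]
  simp only [h2] at hd
  have h3 : 4 * ∑ i ∈ Finset.range J, ∑ y ∈ W, (W.filter fun w => y ≠ w ∧ R i y w).card <
      J * (W.card * W.card) := by
    rw [Finset.mul_sum]
    calc ∑ i ∈ Finset.range J, 4 * ∑ y ∈ W, (W.filter fun w => y ≠ w ∧ R i y w).card
        < ∑ _i ∈ Finset.range J, W.card * W.card := by
          refine Finset.sum_lt_sum_of_nonempty (Finset.nonempty_range_iff.mpr (by omega))
            fun i hi => ?_
          rw [Finset.mul_sum]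
          calc ∑ y ∈ W, 4 * (W.filter fun w => y ≠ w ∧ R i y w).card < ∑ _y ∈ W, W.card :=
                Finset.sum_lt_sum_of_nonempty (Finset.card_pos.mp hW0)
                  fun y hy => hcon i (Finset.mem_range.mp hi) y hy
            _ = W.card * W.card := by rw [Finset.sum_const, smul_eq_mul]
      _ = J * (W.card * W.card) := by rw [Finset.sum_const, Finset.card_range, smul_eq_mul]
  rw [pow_two] at hd
  omega

private theorem chains_Pos (J : ℕ) (hJ : 0 < J) (R : ℕ → S → S → Prop)
    [∀ i, DecidableRel (R i)] (hR : ∀ i x y, R i x y → R i y x) (θ : ℕ) (hθ : 1 ≤ θ) :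
    ∀ (n : ℕ) (K : ℕ → Finset S) (W : Finset S),
      (∀ W' ⊆ W, θ ≤ W'.card → J * W'.card ^ 2 ≤ 4 * ∑ i ∈ Finset.range J,
        ((W' ×ˢ W').filter fun z => z.1 ≠ z.2 ∧ R i z.1 z.2).card) →
      4 ^ n * θ ≤ W.card → (∀ i < J, Disjoint (K i) W) →
      (∀ i < J, ∀ a ∈ K i, ∀ w ∈ W, R i a w) →
      (∀ i < J, ∀ a ∈ K i, ∀ a' ∈ K i, a ≠ a' → R i a a') →
      ∃ K' : ℕ → Finset S, (∀ i < J, K' i ⊆ K i ∪ W ∧
        ∀ a ∈ K' i, ∀ a' ∈ K' i, a ≠ a' → R i a a') ∧
        ∑ i ∈ Finset.range J, (K' i).card = ∑ i ∈ Finset.range J, (K i).card + n := by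
  intro n
  induction n with
  | zero =>
    intro K W _ _ _ _ h3
    exact ⟨K, fun i hi => ⟨Finset.subset_union_left, h3 i hi⟩, by simp⟩
  | succ n ih =>
    intro K W hd hW h1 h2 h3
    have hW0 : 0 < W.card := by
      refine lt_of_lt_of_le ?_ hW
      positivity
    have hθW : θ ≤ W.card := by
      refine le_trans ?_ hW
      exact Nat.le_mul_of_pos_left _ (by positivity)
    obtain ⟨i, hi, y, hy, hcard⟩ := step_Pos J hJ R W hW0 (hd W (Finset.Subset.refl _) hθW)
    obtain ⟨W', hW'⟩ : ∃ W', W' = W.filter fun w => y ≠ w ∧ R i y w := ⟨_, rfl⟩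
    have hsub : W' ⊆ W := by
      rw [hW']
      exact Finset.filter_subset _ _
    rw [← hW'] at hcard
    have hyW' : y ∉ W' := by
      rw [hW']
      intro h
      exact (Finset.mem_filter.mp h).2.1 rfl
    have hyR : ∀ w ∈ W', R i y w := by
      intro w hw
      rw [hW'] at hw
      exact (Finset.mem_filter.mp hw).2.2
    have hyK : y ∉ K i := fun h => Finset.disjoint_left.mp (h1 i hi) h hy
    obtain ⟨K', hK', hsum⟩ := ih (Function.update K i (insert y (K i))) W'
      (fun W'' hW'' hc => hd W'' (hW''.trans hsub) hc)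
      (by
        have h4 : 4 * (4 ^ n * θ) ≤ 4 * W'.card := by
          refine le_trans ?_ hcard
          refine le_trans (le_of_eq ?_) hW
          ring
        omega)
      (by
        intro l hl
        by_cases hli : l = i
        · subst hli
          rw [Function.update_self, Finset.disjoint_insert_left]
          exact ⟨hyW', (h1 l hl).mono_right hsub⟩
        · rw [Function.update_of_ne hli]
          exact (h1 l hl).mono_right hsub)
      (by
        intro l hl a ha w hw
        by_cases hli : l = i
        · subst hli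
          rw [Function.update_self] at ha
          rcases Finset.mem_insert.mp ha with rfl | hb
          · exact hyR w hw
          · exact h2 l hl a hb w (hsub hw)
        · rw [Function.update_of_ne hli] at ha
          exact h2 l hl a ha w (hsub hw))
      (by
        intro l hl a ha a' ha' hne
        by_cases hli : l = i
        · subst hli
          rw [Function.update_self] at ha ha'
          rcases Finset.mem_insert.mp ha with rfl | hb
          · rcases Finset.mem_insert.mp ha' with rfl | hb'
            · exact absurd rfl hne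
            · exact hR _ _ _ (h2 l hl a' hb' _ hy)
          · rcases Finset.mem_insert.mp ha' with rfl | hb'
            · exact h2 l hl a hb _ hy
            · exact h3 l hl a hb a' hb' hne
        · rw [Function.update_of_ne hli] at ha ha'
          exact h3 l hl a ha a' ha' hne)
    refine ⟨K', fun l hl => ⟨?_, (hK' l hl).2⟩, ?_⟩
    · refine (hK' l hl).1.trans ?_
      by_cases hli : l = i
      · subst hli
        rw [Function.update_self]
        refine Finset.union_subset (Finset.insert_subset (Finset.mem_union_right _ hy)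
          Finset.subset_union_left) (hsub.trans Finset.subset_union_right)
      · rw [Function.update_of_ne hli]
        exact Finset.union_subset_union_right hsub
    · rw [hsum]
      have h4 : ∑ l ∈ Finset.range J, (Function.update K i (insert y (K i)) l).card =
          ∑ l ∈ Finset.range J, (K l).card + 1 := by
        have h5 : ∀ l ∈ Finset.range J, (Function.update K i (insert y (K i)) l).card =
            (K l).card + if l = i then 1 else 0 := by
          intro l _
          by_cases hli : l = i
          · subst hli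
            rw [Function.update_self, Finset.card_insert_of_notMem hyK, if_pos rfl]
          · rw [Function.update_of_ne hli, if_neg hli, Nat.add_zero]
        rw [Finset.sum_congr rfl h5, Finset.sum_add_distrib, Finset.sum_ite_eq',
          if_pos (Finset.mem_range.mpr hi)]
      rw [h4]
      ring

theorem clique_pos (J m : ℕ) (hJ : 0 < J) (R : ℕ → S → S → Prop)
    [∀ i, DecidableRel (R i)] (hR : ∀ i x y, R i x y → R i y x) (θ : ℕ) (hθ : 1 ≤ θ)
    (W : Finset S)
    (hd : ∀ W' ⊆ W, θ ≤ W'.card → J * W'.card ^ 2 ≤ 4 * ∑ i ∈ Finset.range J,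
        ((W' ×ˢ W').filter fun z => z.1 ≠ z.2 ∧ R i z.1 z.2).card)
    (hW : 4 ^ (J * m) * θ ≤ W.card) :
    ∃ i < J, ∃ A ⊆ W, A.card = m ∧ ∀ a ∈ A, ∀ a' ∈ A, a ≠ a' → R i a a' := by
  obtain ⟨K', hK', hsum⟩ := chains_Pos J hJ R hR θ hθ (J * m) (fun _ => ∅) W hd hW
    (fun i _ => Finset.disjoint_empty_left _) (fun i _ a ha => absurd ha (Finset.notMem_empty a))
    (fun i _ a ha => absurd ha (Finset.notMem_empty a))
  have h1 : ∑ _i ∈ Finset.range J, m ≤ ∑ i ∈ Finset.range J, (K' i).card := by
    rw [hsum, Finset.sum_const, Finset.card_range, smul_eq_mul]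
    exact Nat.le_add_left _ _
  obtain ⟨i, hi, hm⟩ := Finset.exists_le_of_sum_le (Finset.nonempty_range_iff.mpr (by omega)) h1
  obtain ⟨A, hA, hAc⟩ := Finset.exists_subset_card_eq hm
  obtain ⟨h2, h3⟩ := hK' i (Finset.mem_range.mp hi)
  refine ⟨i, Finset.mem_range.mp hi, A, ?_, hAc, fun a ha a' ha' => h3 a (hA ha) a' (hA ha')⟩
  refine hA.trans (h2.trans ?_)
  rw [Finset.empty_union]

end Pool.Agent.FanCross
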