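import Pool.Agent.FanCross.Main
import Pool.Agent.FanCross.Pos

/-!
# Fans with a long central set

`fan_exists3`: the same conclusion as `fan_exists` for sets of size
`2 ^ (C * (m * k ^ (d - 1)) ^ 2)`, so that `m` can be much larger than `k`. New: if `2 * d - 1`
blocks have been found, we do not delete points of the blocks. The blocks are divided into parts of
size `k`; every good pair has its colour on most of the parts, and a clique of size `m` is built for
one of the choices of parts (`clique_pos`).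
-/

set_option autoImplicit false
set_option linter.unusedSectionVars false

namespace Pool.Agent.FanCross

variable {S : Type*} [DecidableEq S]

/-- Cost of the remaining part of the proof. -/
def Th3 (d m k u : ℕ) : ℕ → ℕ
  | 0 => 2 * (K0 d m k u * m) + 2
  | s + 1 => c1 d m k u + (d - 1) * (Th3 d m k u s + cost u k (K0 d m k u))

/-- Most pairs are good. -/
private theorem good_M3 (f : S → S → S → Bool) (q D : ℕ) (L : List (Blk S)) (W : Finset S)
    (hq : 0 < q) (hD : 4 * (L.length + 1) * q ≤ D)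
    (h : ∀ b ∈ L, D * (dens f b.V W b.c).card ≤ b.N * W.card ^ 2) (hW : 4 ≤ W.card) :
    W.card ^ 2 ≤ 2 * ((W ×ˢ W).filter fun z => z.1 ≠ z.2 ∧ ∀ b ∈ L,
      q * (b.V.filter fun v => z.1 ≠ z.2 ∧ f v z.1 z.2 = b.c).card ≤ b.N).card := by
  set T := (W ×ˢ W).filter fun z => z.1 ≠ z.2 ∧ ∀ b ∈ L,
    q * (b.V.filter fun v => z.1 ≠ z.2 ∧ f v z.1 z.2 = b.c).card ≤ b.N with hT
  set Bad := (W ×ˢ W).filter fun z => ∃ b ∈ L, b.N < q *
    (b.V.filter fun v => z.1 ≠ z.2 ∧ f v z.1 z.2 = b.c).card with hBad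
  have hbad : 4 * Bad.card ≤ W.card ^ 2 := by
    have h1 := refine_bad f q D W L h
    have h2 : (4 * (L.length + 1) * q) * Bad.card ≤ L.length * (q * W.card ^ 2) :=
      (Nat.mul_le_mul_right _ hD).trans h1
    have h3 : ((L.length + 1) * q) * (4 * Bad.card) ≤ ((L.length + 1) * q) * W.card ^ 2 := by
      calc ((L.length + 1) * q) * (4 * Bad.card) = (4 * (L.length + 1) * q) * Bad.card := by ring
        _ ≤ L.length * (q * W.card ^ 2) := h2
        _ ≤ (L.length + 1) * (q * W.card ^ 2) := Nat.mul_le_mul_right _ (Nat.le_succ _)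
        _ = _ := by ring
    exact Nat.le_of_mul_le_mul_left h3 (Nat.mul_pos (Nat.succ_pos _) hq)
  have hcover : W.card ^ 2 ≤ T.card + Bad.card + W.card := by
    have h1 : (W ×ˢ W).card ≤ (T ∪ Bad ∪ W.diag).card := by
      refine Finset.card_le_card fun z hz => ?_
      rw [Finset.mem_union, Finset.mem_union]
      by_cases h2 : z.1 = z.2
      · right
        exact Finset.mem_diag.mpr ⟨(Finset.mem_product.mp hz).1, h2⟩
      · left
        by_cases h3 : ∃ b ∈ L, b.N < q *
            (b.V.filter fun v => z.1 ≠ z.2 ∧ f v z.1 z.2 = b.c).card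
        · right
          exact Finset.mem_filter.mpr ⟨hz, h3⟩
        · left
          refine Finset.mem_filter.mpr ⟨hz, h2, fun b hb => ?_⟩
          by_contra h4
          exact h3 ⟨b, hb, by omega⟩
    have h2 := Finset.card_union_le (T ∪ Bad) W.diag
    have h3 := Finset.card_union_le T Bad
    have h4 : W.diag.card = W.card := Finset.diag_card W
    rw [Finset.card_product, ← pow_two] at h1
    omega
  have h1 : 4 * W.card ≤ W.card ^ 2 := by
    rw [pow_two]
    exact Nat.mul_le_mul_right _ hW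
  omega

/-- Double counting. -/
private theorem average_M3 (J : ℕ) (R : ℕ → S → S → Prop) [∀ i, DecidableRel (R i)]
    (W : Finset S) (T : Finset (S × S)) (hT : ∀ z ∈ T, z ∈ W ×ˢ W ∧ z.1 ≠ z.2)
    (hTc : W.card ^ 2 ≤ 2 * T.card)
    (h : ∀ z ∈ T, J ≤ 2 * ((Finset.range J).filter fun i => R i z.1 z.2).card) :
    J * W.card ^ 2 ≤ 4 * ∑ i ∈ Finset.range J,
      ((W ×ˢ W).filter fun z => z.1 ≠ z.2 ∧ R i z.1 z.2).card := by
  have h1 : ∑ z ∈ T, ((Finset.range J).filter fun i => R i z.1 z.2).card =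
      ∑ i ∈ Finset.range J, (T.filter fun z => R i z.1 z.2).card := by
    simp only [Finset.card_filter]
    exact Finset.sum_comm
  have h2 : ∑ i ∈ Finset.range J, (T.filter fun z => R i z.1 z.2).card ≤
      ∑ i ∈ Finset.range J, ((W ×ˢ W).filter fun z => z.1 ≠ z.2 ∧ R i z.1 z.2).card := by
    refine Finset.sum_le_sum fun i _ => Finset.card_le_card fun z hz => ?_
    obtain ⟨h3, h4⟩ := Finset.mem_filter.mp hz
    obtain ⟨h5, h6⟩ := hT z h3
    exact Finset.mem_filter.mpr ⟨h5, h6, h4⟩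
  have h3 : T.card * J ≤ 2 * ∑ z ∈ T, ((Finset.range J).filter fun i => R i z.1 z.2).card := by
    rw [Finset.mul_sum, ← smul_eq_mul, ← Finset.sum_const]
    exact Finset.sum_le_sum h
  calc J * W.card ^ 2 ≤ J * (2 * T.card) := Nat.mul_le_mul_left _ hTc
    _ = 2 * (T.card * J) := by ring
    _ ≤ 2 * (2 * ∑ z ∈ T, ((Finset.range J).filter fun i => R i z.1 z.2).card) :=
        Nat.mul_le_mul_left _ h3
    _ = 4 * ∑ i ∈ Finset.range J, (T.filter fun z => R i z.1 z.2).card := by
        rw [h1]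
        ring
    _ ≤ _ := Nat.mul_le_mul_left _ h2

/-- Few parts are hit by a small set. -/
private theorem hit_M3 (n : ℕ) (P : ℕ → Finset S) (T : Finset S)
    (hP : ∀ i ∈ Finset.range n, ∀ j ∈ Finset.range n, i ≠ j → Disjoint (P i) (P j)) :
    ((Finset.range n).filter fun i => ¬ Disjoint (P i) T).card ≤ T.card := by
  have h1 : ((Finset.range n).filter fun i => ¬ Disjoint (P i) T).card ≤
      ∑ i ∈ (Finset.range n).filter fun i => ¬ Disjoint (P i) T, (P i ∩ T).card := by
    rw [Finset.card_eq_sum_ones]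
    refine Finset.sum_le_sum fun i hi => ?_
    have h2 := (Finset.mem_filter.mp hi).2
    rw [Finset.not_disjoint_iff_nonempty_inter] at h2
    exact Finset.card_pos.mpr h2
  refine h1.trans ?_
  rw [← Finset.card_biUnion]
  · refine Finset.card_le_card fun v hv => ?_
    obtain ⟨i, -, hi⟩ := Finset.mem_biUnion.mp hv
    exact (Finset.mem_inter.mp hi).2
  · intro i hi j hj hij
    exact ((hP i (Finset.mem_filter.mp hi).1 j (Finset.mem_filter.mp hj).1 hij).mono_left
      Finset.inter_subset_left).mono_right Finset.inter_subset_left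

private theorem kill_M3 (E e : ℕ) (he : e ≤ E) (P : ℕ → Finset S) (T : Finset S)
    (hP : ∀ i ∈ Finset.range (2 ^ e), ∀ j ∈ Finset.range (2 ^ e), i ≠ j →
      Disjoint (P i) (P j)) :
    ((Finset.range (2 ^ E)).filter fun i => ¬ Disjoint (P (i % 2 ^ e)) T).card ≤
      2 ^ (E - e) * T.card := by
  have h0 : 0 < 2 ^ e := by positivity
  have h1 : ((Finset.range (2 ^ E)).filter fun i => ¬ Disjoint (P (i % 2 ^ e)) T).card ≤
      (Finset.range (2 ^ (E - e)) ×ˢ
        (Finset.range (2 ^ e)).filter fun i => ¬ Disjoint (P i) T).card := by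
    refine Finset.card_le_card_of_injOn (fun i => (i / 2 ^ e, i % 2 ^ e)) ?_ ?_
    · intro i hi
      obtain ⟨h2, h3⟩ := Finset.mem_filter.mp hi
      have h4 := Finset.mem_range.mp h2
      refine Finset.mem_product.mpr ⟨Finset.mem_range.mpr ?_,
        Finset.mem_filter.mpr ⟨Finset.mem_range.mpr (Nat.mod_lt _ h0), h3⟩⟩
      rw [Nat.div_lt_iff_lt_mul h0, ← pow_add, Nat.sub_add_cancel he]
      exact h4
    · intro i _ j _ hij
      have h2 := (Prod.mk.injEq _ _ _ _ ▸ hij : i / 2 ^ e = j / 2 ^ e ∧ i % 2 ^ e = j % 2 ^ e)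
      rw [← Nat.div_add_mod i (2 ^ e), ← Nat.div_add_mod j (2 ^ e), h2.1, h2.2]
  rw [Finset.card_product, Finset.card_range] at h1
  exact h1.trans (Nat.mul_le_mul_left _ (hit_M3 _ P T hP))

private theorem union_M3 {α : Type*} (X : Finset ℕ) (Q : α → ℕ → Prop)
    [∀ a, DecidablePred (Q a)] (n N : ℕ) : ∀ L : List α,
    (∀ b ∈ L, n * (X.filter (Q b)).card ≤ N) →
    n * (X.filter fun i => ∃ b ∈ L, Q b i).card ≤ L.length * N := by
  intro L
  induction L with
  | nil =>
    intro _
    simp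
  | cons a L ih =>
    intro h
    have h1 := ih fun b hb => h b (List.mem_cons_of_mem _ hb)
    have h2 := h a List.mem_cons_self
    have h3 : (X.filter fun i => ∃ b ∈ a :: L, Q b i).card ≤
        (X.filter (Q a)).card + (X.filter fun i => ∃ b ∈ L, Q b i).card := by
      refine (Finset.card_le_card ?_).trans (Finset.card_union_le _ _)
      intro i hi
      obtain ⟨h4, b, hb, h5⟩ := Finset.mem_filter.mp hi
      rcases List.mem_cons.mp hb with rfl | hb'
      · exact Finset.mem_union_left _ (Finset.mem_filter.mpr ⟨h4, h5⟩)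
      · exact Finset.mem_union_right _ (Finset.mem_filter.mpr ⟨h4, b, hb', h5⟩)
    have h4 := Nat.mul_le_mul_left n h3
    rw [mul_add] at h4
    rw [List.length_cons, add_mul, one_mul]
    omega

/-- The case of `2 * d - 1` blocks. -/
private theorem base_M3 (f : S → S → S → Bool) (hs : ∀ x y z, f x y z = f y x z)
    (hs' : ∀ x y z, f x y z = f x z y) (q D θ K d m k t : ℕ) (hd : 2 ≤ d) (hk1 : 1 ≤ k)
    (hq : 16 * d * k ≤ q) (hθ : 1 ≤ θ)
    (L : List (Blk S)) (W : Finset S) (hlen : L.length + 1 = 2 * d)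
    (hD : 4 * (L.length + 1) * q ≤ D)
    (hL : ∀ b ∈ L, Good f q D θ K t W b) (hN : ∀ b ∈ L, 2 * k ≤ b.N)
    (hR : L.Pairwise (Rel f W)) (htq : 2 * t ≤ q)
    (hW : 2 ^ (2 * (K * m) + 2) * θ ≤ W.card) : HasFan f m k d := by
  classical
  have hq0 : 0 < q := lt_of_lt_of_le (by positivity) hq
  obtain ⟨c, hc⟩ := colour_Main L d (by omega)
  obtain ⟨L', hL'⟩ : ∃ L' : List (Blk S), L' = L.filter fun b => b.c = c := ⟨_, rfl⟩
  rw [← hL'] at hc
  have hmem : ∀ b ∈ L', b ∈ L ∧ b.c = c := by
    intro b hb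
    rw [hL'] at hb
    have h1 := List.mem_filter.1 hb
    exact ⟨h1.1, by simpa using h1.2⟩
  have hsub : L'.Sublist L := by
    rw [hL']
    exact List.filter_sublist
  have hle := hsub.length_le
  -- the sizes of the blocks
  have hV : ∀ b ∈ L', b.N ≤ 2 * b.V.card ∧ k ≤ b.V.card := by
    intro b hb
    have h4 := (hL b (hmem b hb).1).1
    have h5 := hN b (hmem b hb).1
    have h6 : 2 * (t * b.N) ≤ q * b.N := by
      rw [← mul_assoc]
      exact Nat.mul_le_mul_right _ htq
    have h7 : q * b.N ≤ q * (2 * b.V.card) := by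
      have h8 : q * (2 * b.V.card) = 2 * (q * b.V.card) := by ring
      rw [h8]
      omega
    have h9 := Nat.le_of_mul_le_mul_left h7 hq0
    exact ⟨h9, by omega⟩
  obtain ⟨e, he⟩ : ∃ e : Blk S → ℕ, ∀ b, e b = Nat.log 2 (b.V.card / k) := ⟨_, fun _ => rfl⟩
  obtain ⟨E, hE⟩ : ∃ E, E = Nat.log 2 (K / k) := ⟨_, rfl⟩
  have he1 : ∀ b ∈ L', 2 ^ e b * k ≤ b.V.card ∧ b.V.card < 2 * 2 ^ e b * k ∧ e b ≤ E := by
    intro b hb
    have h1 : 1 ≤ b.V.card / k := (Nat.one_le_div_iff (by omega)).mpr (hV b hb).2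
    have h2 : 2 ^ e b ≤ b.V.card / k := by
      rw [he]
      exact Nat.pow_log_le_self 2 (by omega)
    have h3 : b.V.card / k < 2 ^ (e b + 1) := by
      rw [he]
      exact Nat.lt_pow_succ_log_self (by norm_num) _
    refine ⟨?_, ?_, ?_⟩
    · exact (Nat.le_div_iff_mul_le (by omega)).mp h2
    · rw [pow_succ, mul_comm (2 ^ e b) 2] at h3
      exact (Nat.div_lt_iff_lt_mul (by omega)).mp h3
    · rw [he, hE]
      exact Nat.log_mono_right (Nat.div_le_div_right (hL b (hmem b hb).1).2.2.1)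
  -- the parts
  have hex : ∀ b : Blk S, ∃ C : ℕ → Finset S, 2 ^ e b * k ≤ b.V.card →
      (∀ j ∈ Finset.range (2 ^ e b), C j ⊆ b.V ∧ (C j).card = k) ∧
        ∀ i ∈ Finset.range (2 ^ e b), ∀ j ∈ Finset.range (2 ^ e b), i ≠ j →
          Disjoint (C i) (C j) := by
    intro b
    by_cases hb : 2 ^ e b * k ≤ b.V.card
    · obtain ⟨C, hC⟩ := sets_Grid k (Finset.range (2 ^ e b)) b.V
        (by rw [Finset.card_range]; exact hb)
      exact ⟨C, fun _ => hC⟩
    · exact ⟨fun _ => ∅, fun h => absurd h hb⟩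
  choose C hC using hex
  -- the relations
  obtain ⟨R, hRdef⟩ : ∃ R : ℕ → S → S → Prop, ∀ i x y, R i x y ↔
      ∀ b ∈ L', ∀ v ∈ C b (i % 2 ^ e b), f v x y = !c := ⟨_, fun _ _ _ => Iff.rfl⟩
  have hkill : ∀ x y, x ≠ y → (∀ b ∈ L',
      q * (b.V.filter fun v => x ≠ y ∧ f v x y = b.c).card ≤ b.N) →
      2 ^ E ≤ 2 * ((Finset.range (2 ^ E)).filter fun i => R i x y).card := by
    intro x y hxy hgood
    have h1 := union_M3 (Finset.range (2 ^ E)) (fun (b : Blk S) (i : ℕ) =>
      ¬ Disjoint (C b (i % 2 ^ e b)) (b.V.filter fun v => x ≠ y ∧ f v x y = b.c))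
      (4 * d) (2 ^ E) L' (by
        intro b hb
        obtain ⟨h2, h3, h4⟩ := he1 b hb
        have h5 := kill_M3 E (e b) h4 (C b) (b.V.filter fun v => x ≠ y ∧ f v x y = b.c)
          (hC b h2).2
        set τ := (b.V.filter fun v => x ≠ y ∧ f v x y = b.c).card with hτ
        have h6 : (4 * k) * (4 * d * τ) ≤ (4 * k) * 2 ^ e b := by
          calc (4 * k) * (4 * d * τ) = (16 * d * k) * τ := by ring
            _ ≤ q * τ := Nat.mul_le_mul_right _ hq
            _ ≤ b.N := hgood b hb
            _ ≤ 2 * b.V.card := (hV b hb).1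
            _ ≤ 2 * (2 * 2 ^ e b * k) := Nat.mul_le_mul_left _ h3.le
            _ = _ := by ring
        have h7 := Nat.le_of_mul_le_mul_left h6 (by positivity)
        calc 4 * d * ((Finset.range (2 ^ E)).filter fun i => ¬ Disjoint (C b (i % 2 ^ e b))
              (b.V.filter fun v => x ≠ y ∧ f v x y = b.c)).card
            ≤ 4 * d * (2 ^ (E - e b) * τ) := Nat.mul_le_mul_left _ h5
          _ = 2 ^ (E - e b) * (4 * d * τ) := by ring
          _ ≤ 2 ^ (E - e b) * 2 ^ e b := Nat.mul_le_mul_left _ h7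
          _ = 2 ^ E := by rw [← pow_add, Nat.sub_add_cancel h4])
    have h2 : (Finset.range (2 ^ E)).card ≤
        ((Finset.range (2 ^ E)).filter fun i => R i x y).card +
        ((Finset.range (2 ^ E)).filter fun i => ∃ b ∈ L',
          ¬ Disjoint (C b (i % 2 ^ e b)) (b.V.filter fun v => x ≠ y ∧ f v x y = b.c)).card := by
      refine (Finset.card_le_card ?_).trans (Finset.card_union_le _ _)
      intro i hi
      rw [Finset.mem_union]
      by_cases h3 : R i x y
      · left
        exact Finset.mem_filter.mpr ⟨hi, h3⟩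
      · right
        rw [hRdef] at h3
        push Not at h3
        obtain ⟨b, hb, v, hv, hfv⟩ := h3
        refine Finset.mem_filter.mpr ⟨hi, b, hb, ?_⟩
        rw [Finset.not_disjoint_iff]
        have h4 := ((hC b (he1 b hb).1).1 (i % 2 ^ e b)
          (Finset.mem_range.mpr (Nat.mod_lt _ (by positivity)))).1
        refine ⟨v, hv, Finset.mem_filter.mpr ⟨h4 hv, hxy, ?_⟩⟩
        rw [(hmem b hb).2]
        cases hfc : f v x y <;> cases hcc : c <;> simp_all
    rw [Finset.card_range] at h2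
    have h3 : L'.length ≤ 2 * d := by omega
    have h4 : 4 * d * ((Finset.range (2 ^ E)).filter fun i => ∃ b ∈ L',
          ¬ Disjoint (C b (i % 2 ^ e b)) (b.V.filter fun v => x ≠ y ∧ f v x y = b.c)).card ≤
        2 * d * 2 ^ E := h1.trans (Nat.mul_le_mul_right _ h3)
    set β := ((Finset.range (2 ^ E)).filter fun i => ∃ b ∈ L',
          ¬ Disjoint (C b (i % 2 ^ e b)) (b.V.filter fun v => x ≠ y ∧ f v x y = b.c)).card
      with hβ
    have h5 : 2 * d * (2 * β) ≤ 2 * d * 2 ^ E := by
      refine le_trans (le_of_eq ?_) h4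
      ring
    have h6 := Nat.le_of_mul_le_mul_left h5 (by positivity)
    omega
  -- the clique
  have hEK : 2 ^ E ≤ K ∨ L' = [] := by
    rcases hL'' : L' with _ | ⟨b, l⟩
    · right
      rfl
    · left
      have hb : b ∈ L' := by
        rw [hL'']
        exact List.mem_cons_self
      have h1 : 1 ≤ K / k := (Nat.one_le_div_iff (by omega)).mpr
        ((hV b hb).2.trans (hL b (hmem b hb).1).2.2.1)
      rw [hE]
      exact (Nat.pow_log_le_self 2 (by omega)).trans (Nat.div_le_self _ _)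
  have hEK' : 2 ^ E ≤ K := by
    rcases hEK with h | h
    · exact h
    · rw [h, List.length_nil] at hc
      omega
  obtain ⟨i, hi, U, hU, hUm, hUR⟩ := clique_pos (2 ^ E) m (by positivity) R
    (by
      intro i x y h
      rw [hRdef] at h ⊢
      intro b hb v hv
      rw [hs']
      exact h b hb v hv) (4 * θ) (by omega) W
    (by
      intro W' hW' hθ'
      refine average_M3 (2 ^ E) R W' ((W' ×ˢ W').filter fun z => z.1 ≠ z.2 ∧ ∀ b ∈ L',
        q * (b.V.filter fun v => z.1 ≠ z.2 ∧ f v z.1 z.2 = b.c).card ≤ b.N) ?_ ?_ ?_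
      · intro z hz
        exact ⟨(Finset.mem_filter.mp hz).1, (Finset.mem_filter.mp hz).2.1⟩
      · refine good_M3 f q D L' W' hq0 ?_ ?_ (by omega)
        · refine le_trans ?_ hD
          gcongr
        · intro b hb
          exact (hL b (hmem b hb).1).2.2.2 W' hW' (by omega)
      · intro z hz
        obtain ⟨-, h1, h2⟩ := Finset.mem_filter.mp hz
        exact hkill z.1 z.2 h1 h2)
    (by
      refine le_trans ?_ hW
      have h1 : 2 ^ E * m ≤ K * m := Nat.mul_le_mul_right _ hEK'
      calc 4 ^ (2 ^ E * m) * (4 * θ) = 2 ^ (2 * (2 ^ E * m) + 2) * θ := by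
            rw [show (4 : ℕ) = 2 ^ 2 by norm_num, ← pow_mul, pow_add]
            ring
        _ ≤ 2 ^ (2 * (K * m) + 2) * θ :=
            Nat.mul_le_mul_right _ (Nat.pow_le_pow_right (by norm_num) (by omega)))
  obtain ⟨σ, hσd⟩ : ∃ σ : Blk S → Finset S, ∀ b, σ b = C b (i % 2 ^ e b) := ⟨_, fun _ => rfl⟩
  have hσ' : ∀ b ∈ L', σ b ⊆ b.V ∧ (σ b).card = k := by
    intro b hb
    rw [hσd]
    exact (hC b (he1 b hb).1).1 (i % 2 ^ e b)
      (Finset.mem_range.mpr (Nat.mod_lt _ (by positivity)))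
  refine ⟨!c, U, (L'.map σ).take d, ?_, hUm, ?_, ?_⟩
  · rw [List.length_take, List.length_map]
    omega
  · intro B hB
    obtain ⟨b, hb, rfl⟩ := List.mem_map.1 (List.mem_of_mem_take hB)
    obtain ⟨h4, h6⟩ := hσ' b hb
    refine ⟨h6, ?_, ?_⟩
    · exact (((hL b (hmem b hb).1).2.1.mono_left h4).mono_right hU).symm
    · intro x hx x' hx' hne y hy
      have h7 := hUR x hx x' hx' hne
      rw [hRdef] at h7
      rw [hσd] at hy
      rw [hs' x x' y, hs x y x', h7 b hb y hy]
  · refine List.Pairwise.sublist (List.take_sublist _ _) ?_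
    rw [List.pairwise_map]
    refine List.Pairwise.imp_of_mem (fun {a b} ha hb hab => ?_) (hR.sublist hsub)
    obtain ⟨h4, h6⟩ := hσ' a ha
    obtain ⟨h7, h9⟩ := hσ' b hb
    refine ⟨((hab.1.mono_left h7).mono_right h4).symm, ?_⟩
    intro x hx y hy y' hy'
    rw [hs' x y y', hs x y' y, hs' y' x y, hab.2 y' (h7 hy') y (h4 hy) x (hU hx), (hmem b hb).2]

/-- The main induction. -/
private theorem ind_M3 (f : S → S → S → Bool) (hs : ∀ x y z, f x y z = f y x z)
    (hs' : ∀ x y z, f x y z = f x z y) (d m k u q : ℕ) (hd : 2 ≤ d) (hm : 1 ≤ m)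
    (hk1 : 1 ≤ k) (hq : 16 * d * k ≤ q) (hu : 8 * d * q ≤ 2 ^ u) :
    ∀ (s θ : ℕ) (L : List (Blk S)) (W : Finset S), L.length + s = 2 * d - 1 → k ≤ θ →
      (∀ b ∈ L, Good f q (2 ^ u) θ (K0 d m k u) L.length W b) →
      (∀ b ∈ L, 2 * k ≤ b.N) → L.Pairwise (Rel f W) →
      2 ^ (Th3 d m k u s) * θ ≤ W.card → HasFan f m k d := by
  have hDq : ∀ n, n + 1 ≤ 2 * d → 4 * (n + 1) * q ≤ 2 ^ u := by
    intro n hn
    refine le_trans ?_ hu
    calc 4 * (n + 1) * q ≤ 4 * (2 * d) * q := by gcongr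
      _ = 8 * d * q := by ring
  have hq0 : 0 < q := lt_of_lt_of_le (by positivity) hq
  intro s
  induction s with
  | zero =>
    intro θ L W hlen hθ hL hN hR hW
    have hθ1 : 1 ≤ θ := by omega
    refine base_M3 f hs hs' q (2 ^ u) θ (K0 d m k u) d m k L.length
      hd hk1 hq hθ1 L W (by omega) (hDq _ (by omega)) hL hN hR ?_ ?_
    · refine le_trans ?_ hq
      have h1 : L.length ≤ 2 * d := by omega
      calc 2 * L.length ≤ 2 * (2 * d) := by gcongr
        _ ≤ 16 * d * 1 := by omega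
        _ ≤ 16 * d * k := by gcongr
    · rw [Th3] at hW
      exact hW
  | succ s ih =>
    intro θ L W hlen hθ hL hN hR hW
    have hθ1 : 1 ≤ θ := by omega
    obtain ⟨K, hK⟩ : ∃ K, K = K0 d m k u := ⟨_, rfl⟩
    obtain ⟨P, hP⟩ : ∃ P, P = PP d m k u := ⟨_, rfl⟩
    obtain ⟨E, hE⟩ : ∃ E, E = Th3 d m k u s := ⟨_, rfl⟩
    have hTh : Th3 d m k u (s + 1) = P + 1 + 2 * K * (P + 1 + 2 * K) +
        (d - 1) * (E + cost u k K) := by
      rw [Th3, c1, hK, hP, hE]
    rw [← hK] at hL
    rw [hTh, pow_add, mul_assoc] at hW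
    have hKpos : 0 < K := by
      rw [hK, K0]
      positivity
    have hWbig : 2 ^ (P + 1 + 2 * K * (P + 1 + 2 * K)) ≤ W.card := by
      refine le_trans ?_ hW
      exact Nat.le_mul_of_pos_right _ (Nat.mul_pos (by positivity) hθ1)
    have hθW : θ ≤ W.card := by
      refine le_trans ?_ hW
      rw [← mul_assoc]
      exact Nat.le_mul_of_pos_left _ (by positivity)
    obtain ⟨r, A, W', c, h1, h2, hA, hW', hk, hcard, hdis, hmono, hcol⟩ :=
      step_Main f hs q (2 ^ u) θ K L.length P K hq0 L W (hDq _ (by omega))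
        (by
          rw [hP, PP, ← hK]
          have h3 : L.length ≤ 2 * d - 1 := by omega
          gcongr)
        hθW hL
        (by
          refine le_trans (Nat.pow_le_pow_right (by norm_num) ?_) hWbig
          have h3 : 2 * K * 2 ≤ 2 * K * (P + 1 + 2 * K) := by
            refine Nat.mul_le_mul_left _ ?_
            omega
          omega)
    have hW'c : 2 ^ ((d - 1) * (E + cost u k K)) * θ ≤ W'.card :=
      Nat.le_of_mul_le_mul_left (hW.trans hcard) (by positivity)
    rcases trials f hs hs' c u k K E θ hk1 hθ1 (d - 1) A W' (by omega) (by omega) hW'c with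
      ⟨A', B, W'', hA', hW'', hA'c, hW''c, hB, hBB⟩ |
        ⟨A', W'', θ', hA', hW'', hA'c, hθ', hE', hrare⟩
    · -- a fan of colour `c`
      have hmA : m ≤ A'.card := by
        have hX : (2 ^ (u + 1)) ^ (d - 1) = 2 ^ (u + 1) * (2 ^ (u + 1)) ^ (d - 2) := by
          rw [← pow_succ']
          congr 1
          omega
        have h3 : (2 ^ (u + 1)) ^ (d - 1) * m ≤ K := by
          rw [hK, K0, hX]
          calc 2 ^ (u + 1) * (2 ^ (u + 1)) ^ (d - 2) * m
              = (m * 2 ^ (u + 1)) * (2 ^ (u + 1)) ^ (d - 2) := by ring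
            _ ≤ _ := Nat.mul_le_mul_right _ (Nat.le_add_right _ _)
        rw [hk] at hA'c
        exact Nat.le_of_mul_le_mul_left (h3.trans hA'c) (by positivity)
      obtain ⟨A0, hA0, hA0c⟩ := Finset.exists_subset_card_eq hmA
      obtain ⟨B0, hB0, hB0c⟩ := Finset.exists_subset_card_eq (hθ.trans hW''c)
      have hAA : ∀ B1 : Finset S, B1 ⊆ W' → B1.card = k → B1.card = k ∧ Disjoint A0 B1 ∧
          ∀ x ∈ A0, ∀ x' ∈ A0, x ≠ x' → ∀ y ∈ B1, f x x' y = c := by
        intro B1 hB1 hB1c
        refine ⟨hB1c, (hdis.mono_left (hA0.trans hA')).mono_right hB1, ?_⟩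
        intro x hx x' hx' hne y hy
        exact hmono x (hA' (hA0 hx)) x' (hA' (hA0 hx')) hne y (hB1 hy)
      refine ⟨c, A0, B0 :: (List.range (d - 1)).map B, ?_, hA0c, ?_, ?_⟩
      · rw [List.length_cons, List.length_map, List.length_range]
        omega
      · intro B1 hB1
        rcases List.mem_cons.1 hB1 with rfl | hB1
        · exact hAA _ (hB0.trans hW'') hB0c
        · obtain ⟨i, hi, rfl⟩ := List.mem_map.1 hB1
          obtain ⟨h3, h4, -, -⟩ := hB i (List.mem_range.1 hi)
          exact hAA _ h3 h4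
      · rw [List.pairwise_cons]
        constructor
        · intro B1 hB1
          obtain ⟨i, hi, rfl⟩ := List.mem_map.1 hB1
          obtain ⟨-, -, h5, h6⟩ := hB i (List.mem_range.1 hi)
          refine ⟨(h5.mono_right hB0).symm, fun x hx y hy y' hy' => ?_⟩
          rw [hs']
          exact h6 x (hA0 hx) y' hy' y (hB0 hy)
        · rw [List.pairwise_map]
          refine List.Pairwise.imp_of_mem (fun {i l} hi hl hil => ?_) List.pairwise_lt_range
          obtain ⟨h3, h4⟩ := hBB i (List.mem_range.1 hi) l (List.mem_range.1 hl) hil.ne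
          exact ⟨h3, fun x hx y hy y' hy' => h4 x (hA0 hx) y hy y' hy'⟩
    · -- a new block
      have hNA : 2 * k ≤ A'.card := by
        have hX : (2 ^ (u + 1)) ^ (d - 1) = (2 ^ (u + 1)) ^ (d - 2) * 2 ^ (u + 1) := by
          rw [← pow_succ]
          congr 1
          omega
        rw [hk, hK, K0] at hA'c
        have h3 : (2 ^ (u + 1)) ^ (d - 1) * (m * 2 ^ (u + 1) + 2 * k) ≤
            (2 ^ (u + 1)) ^ (d - 1) * A'.card := by
          refine le_trans (le_of_eq ?_) hA'c
          rw [hX]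
          ring
        have h4 := Nat.le_of_mul_le_mul_left h3 (by positivity)
        omega
      have hgr : ∀ b ∈ L, Good f q (2 ^ u) θ' K (L.length + 1) W'' (r b) := by
        intro b hb
        obtain ⟨h8, h9, h10⟩ := h1 b
        exact (hL b hb).refine_Main (hW''.trans hW') hθ' h8 h9 h10 (h2 b hb)
      refine ih θ' (⟨A', A'.card, c⟩ :: L.map r) W'' ?_ (hθ.trans hθ') ?_ ?_ ?_ ?_
      · rw [List.length_cons, List.length_map]
        omega
      · intro b' hb'
        rw [List.length_cons, List.length_map, ← hK]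
        rcases List.mem_cons.1 hb' with rfl | hb'
        · refine ⟨Nat.le_add_right _ _, ?_, ?_, hrare⟩
          · exact (hdis.mono_left hA').mono_right hW''
          · rw [← hk]
            exact Finset.card_le_card hA'
        · obtain ⟨b, hb, rfl⟩ := List.mem_map.1 hb'
          exact hgr b hb
      · intro b' hb'
        rcases List.mem_cons.1 hb' with rfl | hb'
        · exact hNA
        · obtain ⟨b, hb, rfl⟩ := List.mem_map.1 hb'
          rw [(h1 b).1]
          exact hN b hb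
      · rw [List.pairwise_cons]
        constructor
        · intro b' hb'
          obtain ⟨b, hb, rfl⟩ := List.mem_map.1 hb'
          obtain ⟨h8, h9, h10⟩ := h1 b
          refine ⟨?_, ?_⟩
          · exact ((hL b hb).2.1.mono_left h10).mono_right (hA'.trans hA)
          · intro v hv v' hv' w hw
            rw [h9]
            exact hcol b hb v hv v' (hA' hv') w (hW'' hw)
        · rw [List.pairwise_map]
          refine hR.imp fun {a b} hab => ?_
          obtain ⟨h8, h9, h10⟩ := h1 a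
          obtain ⟨h11, h12, h13⟩ := h1 b
          refine ⟨(hab.1.mono_left h13).mono_right h10, ?_⟩
          intro v hv v' hv' w hw
          rw [h12]
          exact hab.2 v (h13 hv) v' (h10 hv') w (hW' (hW'' hw))
      · rw [← hE]
        exact hE'

theorem fan_exists3 (f : S → S → S → Bool) (hs : ∀ x y z, f x y z = f y x z)
    (hs' : ∀ x y z, f x y z = f x z y) (d m k u q : ℕ) (hd : 2 ≤ d) (hm : 1 ≤ m)
    (hk1 : 1 ≤ k) (hq : 16 * d * k ≤ q) (hu : 8 * d * q ≤ 2 ^ u) (W : Finset S)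
    (hW : 2 ^ (Th3 d m k u (2 * d - 1)) * k ≤ W.card) :
    ∃ (c : Bool) (A : Finset S) (B : Fin d → Finset S), A.card = m ∧ (∀ i, (B i).card = k) ∧
      (∀ i, Disjoint A (B i)) ∧ (∀ i j, i ≠ j → Disjoint (B i) (B j)) ∧
      (∀ i, ∀ x ∈ A, ∀ x' ∈ A, x ≠ x' → ∀ y ∈ B i, f x x' y = c) ∧
      ∀ i j, i ≠ j → ∀ x ∈ A, ∀ y ∈ B i, ∀ y' ∈ B j, f x y y' = c := by
  obtain ⟨c, A, Bs, hlen, hA, h1, h2⟩ := ind_M3 f hs hs' d m k u q hd hm hk1 hq hu
    (2 * d - 1) k [] W (by simp) le_rfl (fun b hb => absurd hb List.not_mem_nil)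
    (fun b hb => absurd hb List.not_mem_nil) List.Pairwise.nil hW
  subst hlen
  rw [List.pairwise_iff_get] at h2
  refine ⟨c, A, fun i => Bs.get i, hA, fun i => (h1 _ (List.get_mem _ _)).1,
    fun i => (h1 _ (List.get_mem _ _)).2.1, ?_, fun i => (h1 _ (List.get_mem _ _)).2.2, ?_⟩
  · intro i j hij
    rcases lt_or_gt_of_ne hij with h | h
    · exact (h2 i j h).1
    · exact (h2 j i h).1.symm
  · intro i j hij x hx y hy y' hy'
    rcases lt_or_gt_of_ne hij with h | h
    · exact (h2 i j h).2 x hx y hy y' hy'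
    · rw [hs']
      exact (h2 j i h).2 x hx y' hy' y hy

end Pool.Agent.FanCross
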