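import Pool.Agent.FanCross.Block

/-!
# Trials

`dens f A W c`: the triples `(a, w, w')` with `a ∈ A`, `w ≠ w'` in `W` and colour `c`.

* `trial1`: if there are many triples of colour `c` then there are `A' ⊆ A`, a block `B` and a large
  `W'` such that all triples `a, y, w` have the colour `c`.
* `trials`: `j` trials one after the other; either all succeed or at some stage the colour `c` is
  rare in all large subsets.
-/

set_option autoImplicit false

namespace Pool.Agent.FanCross

variable {S : Type*} [DecidableEq S]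

/-- The triples `(a, w, w')` with `w ≠ w'` and colour `c`. -/
def dens (f : S → S → S → Bool) (A W : Finset S) (c : Bool) : Finset (S × S × S) :=
  (A ×ˢ W ×ˢ W).filter fun q => q.2.1 ≠ q.2.2 ∧ f q.1 q.2.1 q.2.2 = c

private theorem trial_sum (f : S → S → S → Bool) (A W : Finset S) (c : Bool) :
    (dens f A W c).card =
      ∑ q ∈ W ×ˢ W, (A.filter fun a => q.1 ≠ q.2 ∧ f a q.1 q.2 = c).card := by
  unfold dens
  rw [Finset.card_filter, Finset.sum_product_right]
  refine Finset.sum_congr rfl fun q _ => ?_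
  rw [Finset.card_filter]

theorem trial_pairs (f : S → S → S → Bool) (A W : Finset S) (c : Bool) (u : ℕ)
    (hA : 0 < A.card) (hd : A.card * W.card ^ 2 ≤ 2 ^ u * (dens f A W c).card) :
    W.card ^ 2 ≤ 2 ^ (u + 1) * ((W ×ˢ W).filter fun q => A.card ≤ 2 ^ (u + 1) *
      (A.filter fun a => q.1 ≠ q.2 ∧ f a q.1 q.2 = c).card).card := by
  set T : S × S → ℕ := fun q => (A.filter fun a => q.1 ≠ q.2 ∧ f a q.1 q.2 = c).card with hT
  set P := (W ×ˢ W).filter fun q => A.card ≤ 2 ^ (u + 1) * T q with hP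
  have h1 : (dens f A W c).card = ∑ q ∈ W ×ˢ W, T q := trial_sum f A W c
  have h2 : ∑ q ∈ W ×ˢ W, 2 ^ (u + 1) * T q ≤
      ∑ q ∈ W ×ˢ W, ((if q ∈ P then 2 ^ (u + 1) * A.card else 0) + A.card) := by
    refine Finset.sum_le_sum fun q hq => ?_
    by_cases h3 : q ∈ P
    · rw [if_pos h3]
      have h4 : T q ≤ A.card := Finset.card_filter_le _ _
      have h5 := Nat.mul_le_mul_left (2 ^ (u + 1)) h4
      omega
    · rw [if_neg h3]
      have h4 : ¬ A.card ≤ 2 ^ (u + 1) * T q := fun h5 => h3 (Finset.mem_filter.mpr ⟨hq, h5⟩)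
      omega
  rw [← Finset.mul_sum, ← h1, Finset.sum_add_distrib, Finset.sum_const, smul_eq_mul,
    Finset.card_product] at h2
  have h3 : ∑ q ∈ W ×ˢ W, (if q ∈ P then 2 ^ (u + 1) * A.card else 0) =
      P.card * (2 ^ (u + 1) * A.card) := by
    rw [← Finset.sum_filter]
    have h4 : ((W ×ˢ W).filter fun q => q ∈ P) = P := by
      ext q
      simp only [Finset.mem_filter]
      exact ⟨fun h => h.2, fun h => ⟨(Finset.mem_filter.mp h).1, h⟩⟩
    rw [h4, Finset.sum_const, smul_eq_mul]
  rw [h3] at h2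
  have h4 : 2 * (A.card * W.card ^ 2) ≤ 2 ^ (u + 1) * (dens f A W c).card := by
    calc 2 * (A.card * W.card ^ 2) ≤ 2 * (2 ^ u * (dens f A W c).card) :=
          Nat.mul_le_mul_left _ hd
      _ = _ := by rw [pow_succ]; ring
  have h5 : 2 * (A.card * W.card ^ 2) ≤
      P.card * (2 ^ (u + 1) * A.card) + W.card * W.card * A.card := h4.trans h2
  have h6 : A.card * W.card ^ 2 ≤ A.card * (2 ^ (u + 1) * P.card) := by
    have h7 : P.card * (2 ^ (u + 1) * A.card) = A.card * (2 ^ (u + 1) * P.card) := by ring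
    have h8 : W.card * W.card * A.card = A.card * W.card ^ 2 := by ring
    rw [h7, h8] at h5
    omega
  exact Nat.le_of_mul_le_mul_left h6 hA

/-- The popular pattern. -/
theorem trial_pigeon {α : Type*} [DecidableEq α] (P : Finset α) (A : Finset S)
    (T : α → Finset S) (hT : ∀ q ∈ P, T q ⊆ A) (hP : P.Nonempty) :
    ∃ A' ∈ P.image T, P.card ≤ 2 ^ A.card * (P.filter fun q => T q = A').card := by
  by_contra hcon
  push Not at hcon
  have h1 : P.card = ∑ A' ∈ P.image T, (P.filter fun q => T q = A').card :=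
    Finset.card_eq_sum_card_image T P
  have h2 : (P.image T).card ≤ 2 ^ A.card := by
    rw [← Finset.card_powerset]
    refine Finset.card_le_card fun A' hA' => ?_
    obtain ⟨q, hq, rfl⟩ := Finset.mem_image.mp hA'
    exact Finset.mem_powerset.mpr (hT q hq)
  have h3 : ∑ A' ∈ P.image T, 2 ^ A.card * (P.filter fun q => T q = A').card <
      ∑ _A' ∈ P.image T, P.card :=
    Finset.sum_lt_sum_of_nonempty (hP.image T) fun A' hA' => hcon A' hA'
  rw [← Finset.mul_sum, ← h1, Finset.sum_const, smul_eq_mul] at h3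
  exact absurd h3 (not_lt.mpr (Nat.mul_le_mul_right _ h2))

/-- One trial. -/
theorem trial1 (f : S → S → S → Bool) (hs : ∀ x y z, f x y z = f y x z) (A W : Finset S)
    (c : Bool) (u b : ℕ) (hA : 0 < A.card)
    (hd : A.card * W.card ^ 2 ≤ 2 ^ u * (dens f A W c).card)
    (hW : 2 ^ (u + 2 + A.card + 4 * b) ≤ W.card) :
    ∃ A' B W' : Finset S, A' ⊆ A ∧ B ⊆ W ∧ W' ⊆ W ∧ A.card ≤ 2 ^ (u + 1) * A'.card ∧
      B.card = b ∧ W.card ≤ 2 ^ (u + 2 + A.card + 2 * b * (u + 2 + A.card + 2 * b)) * W'.card ∧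
      Disjoint B W' ∧ ∀ a ∈ A', ∀ y ∈ B, ∀ w ∈ W', f a y w = c := by
  have hW0 : 0 < W.card := lt_of_lt_of_le (by positivity) hW
  have h1 := trial_pairs f A W c u hA hd
  set T : S × S → Finset S := fun q => A.filter fun a => q.1 ≠ q.2 ∧ f a q.1 q.2 = c with hT
  set P := (W ×ˢ W).filter fun q => A.card ≤ 2 ^ (u + 1) * (T q).card with hP
  have hPne : P.Nonempty := by
    rw [← Finset.card_pos]
    by_contra h2
    have h3 : P.card = 0 := by omega
    rw [h3, mul_zero] at h1
    have h4 : 0 < W.card ^ 2 := by positivity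
    omega
  obtain ⟨A', hA', hpop⟩ := trial_pigeon P A T (fun q _ => Finset.filter_subset _ _) hPne
  obtain ⟨q0, hq0, hq0A⟩ := Finset.mem_image.mp hA'
  have hA'sub : A' ⊆ A := by
    rw [← hq0A]
    exact Finset.filter_subset _ _
  have hA'card : A.card ≤ 2 ^ (u + 1) * A'.card := by
    rw [← hq0A]
    exact (Finset.mem_filter.mp hq0).2
  have hA'pos : 0 < A'.card := by
    rcases Nat.eq_zero_or_pos A'.card with h | h
    · rw [h, mul_zero] at hA'card
      omega
    · exact h
  obtain ⟨a0, ha0⟩ := Finset.card_pos.mp hA'pos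
  classical
  let G : S → S → Prop := fun x y => x ≠ y ∧ ∀ a ∈ A', f a x y = c
  have hG : W.card ^ 2 ≤ 2 ^ (u + 1 + A.card) * ((W ×ˢ W).filter fun q => G q.1 q.2).card := by
    have h2 : (P.filter fun q => T q = A').card ≤
        ((W ×ˢ W).filter fun q => G q.1 q.2).card := by
      refine Finset.card_le_card fun q hq => ?_
      obtain ⟨h3, h4⟩ := Finset.mem_filter.mp hq
      refine Finset.mem_filter.mpr ⟨(Finset.mem_filter.mp h3).1, ?_, ?_⟩
      · have h5 : a0 ∈ T q := by rw [h4]; exact ha0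
        exact (Finset.mem_filter.mp h5).2.1
      · intro a ha
        have h5 : a ∈ T q := by rw [h4]; exact ha
        exact (Finset.mem_filter.mp h5).2.2
    calc W.card ^ 2 ≤ 2 ^ (u + 1) * P.card := h1
      _ ≤ 2 ^ (u + 1) * (2 ^ A.card * (P.filter fun q => T q = A').card) :=
          Nat.mul_le_mul_left _ hpop
      _ ≤ 2 ^ (u + 1) * (2 ^ A.card * ((W ×ˢ W).filter fun q => G q.1 q.2).card) := by gcongr
      _ = _ := by rw [← mul_assoc, ← pow_add]
  obtain ⟨B, W', -, hB, hW', hBb, hcard, hBG, -⟩ := block_in_graph f hs W G (u + 1 + A.card) b hG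
    (by rw [show u + 1 + A.card + 1 + 4 * b = u + 2 + A.card + 4 * b by ring]; exact hW)
  refine ⟨A', B, W', hA'sub, hB, hW', hA'card, hBb, ?_, ?_, ?_⟩
  · rw [show u + 2 + A.card + 2 * b * (u + 2 + A.card + 2 * b) =
      u + 1 + A.card + 1 + 2 * b * (u + 1 + A.card + 1 + 2 * b) by ring]
    exact hcard
  · rw [Finset.disjoint_left]
    intro x hx hx'
    exact (hBG x hx x hx').1 rfl
  · intro a ha y hy w hw
    exact (hBG y hy w hw).2 a ha

end Pool.Agent.FanCross
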