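import Pool.Agent.FanCross.Trial

/-!
# Several trials

`trials`: for a finite set `A` and a large set `W`, either there are `A' ⊆ A`, sets
`B 0, ..., B (j-1)` and a large `W'` such that all triples `a, y, w` and `a, y, z` (`a ∈ A'`, `y`, `z` in two different
sets `B i`, `w ∈ W'`) have the colour `c`; or there are `A' ⊆ A` and `W''` such that the colour `c`
is rare in `A' × W' × W'` for all large `W' ⊆ W''`.
-/

set_option autoImplicit false

namespace Pool.Agent.FanCross

variable {S : Type*} [DecidableEq S]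

/-- Cost of one trial. -/
def cost (u b K : ℕ) : ℕ := u + 2 + K + 2 * b * (u + 2 + K + 2 * b)

/-- Several trials one after the other. -/
theorem trials (f : S → S → S → Bool) (hs : ∀ x y z, f x y z = f y x z)
    (hs' : ∀ x y z, f x y z = f x z y) (c : Bool) (u b K E θ : ℕ) (hb : 1 ≤ b) (hθ : 1 ≤ θ) :
    ∀ (j : ℕ) (A W : Finset S), 0 < A.card → A.card ≤ K →
      2 ^ (j * (E + cost u b K)) * θ ≤ W.card →
      (∃ (A' : Finset S) (B : ℕ → Finset S) (W' : Finset S), A' ⊆ A ∧ W' ⊆ W ∧
        A.card ≤ (2 ^ (u + 1)) ^ j * A'.card ∧ θ ≤ W'.card ∧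
        (∀ i < j, B i ⊆ W ∧ (B i).card = b ∧ Disjoint (B i) W' ∧
          ∀ a ∈ A', ∀ y ∈ B i, ∀ w ∈ W', f a y w = c) ∧
        ∀ i < j, ∀ l < j, i ≠ l → Disjoint (B i) (B l) ∧
          ∀ a ∈ A', ∀ y ∈ B i, ∀ z ∈ B l, f a y z = c) ∨
      ∃ (A' W'' : Finset S) (θ' : ℕ), A' ⊆ A ∧ W'' ⊆ W ∧
        A.card * 2 ^ (u + 1) ≤ (2 ^ (u + 1)) ^ j * A'.card ∧ θ ≤ θ' ∧
        2 ^ E * θ' ≤ W''.card ∧ ∀ W' ⊆ W'', θ' ≤ W'.card →
          2 ^ u * (dens f A' W' c).card ≤ A'.card * W'.card ^ 2 := by
  intro j
  induction j with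
  | zero =>
    intro A W hA hAK hW
    left
    refine ⟨A, fun _ => ∅, W, Finset.Subset.refl _, Finset.Subset.refl _, by simp, ?_, ?_, ?_⟩
    · simpa using hW
    · intro i hi
      omega
    · intro i hi
      omega
  | succ j ih =>
    intro A W hA hAK hW
    have hle : 2 ^ E * (2 ^ (cost u b K + j * (E + cost u b K)) * θ) ≤ W.card := by
      refine le_trans (le_of_eq ?_) hW
      rw [← mul_assoc, ← pow_add]
      congr 2
      ring
    by_cases hcase : ∀ W' ⊆ W, 2 ^ (cost u b K + j * (E + cost u b K)) * θ ≤ W'.card →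
        2 ^ u * (dens f A W' c).card ≤ A.card * W'.card ^ 2
    · right
      refine ⟨A, W, 2 ^ (cost u b K + j * (E + cost u b K)) * θ, Finset.Subset.refl _,
        Finset.Subset.refl _, ?_, ?_, hle, hcase⟩
      · have h1 : A.card * 2 ^ (u + 1) ≤ (2 ^ (u + 1)) ^ j * (A.card * 2 ^ (u + 1)) :=
          Nat.le_mul_of_pos_left _ (by positivity)
        refine h1.trans (le_of_eq ?_)
        ring
      · exact Nat.le_mul_of_pos_left _ (by positivity)
    · push Not at hcase
      obtain ⟨W1, hW1, hW1c, hdens⟩ := hcase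
      have hcost : 2 ^ (u + 2 + A.card + 4 * b) ≤ W1.card := by
        refine le_trans ?_ hW1c
        have h1 : u + 2 + A.card + 4 * b ≤ cost u b K + j * (E + cost u b K) := by
          have h2 : u + 2 + A.card + 4 * b ≤ cost u b K := by
            unfold cost
            have h3 : 2 * b * 2 ≤ 2 * b * (u + 2 + K + 2 * b) := by
              refine Nat.mul_le_mul_left _ ?_
              omega
            omega
          omega
        calc 2 ^ (u + 2 + A.card + 4 * b) ≤ 2 ^ (cost u b K + j * (E + cost u b K)) :=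
              Nat.pow_le_pow_right (by norm_num) h1
          _ ≤ _ := Nat.le_mul_of_pos_right _ hθ
      obtain ⟨A1, B0, W2, hA1, hB0, hW2, hA1c, hB0c, hW2c, hdis, hcol⟩ :=
        trial1 f hs A W1 c u b hA hdens.le hcost
      have hW2c' : 2 ^ (j * (E + cost u b K)) * θ ≤ W2.card := by
        have h1 : 2 ^ (u + 2 + A.card + 2 * b * (u + 2 + A.card + 2 * b)) ≤ 2 ^ cost u b K := by
          refine Nat.pow_le_pow_right (by norm_num) ?_
          unfold cost
          gcongr
        have h2 : 2 ^ cost u b K * (2 ^ (j * (E + cost u b K)) * θ) ≤ 2 ^ cost u b K * W2.card := by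
          calc 2 ^ cost u b K * (2 ^ (j * (E + cost u b K)) * θ)
              = 2 ^ (cost u b K + j * (E + cost u b K)) * θ := by
                rw [← mul_assoc, ← pow_add]
            _ ≤ W1.card := hW1c
            _ ≤ _ := hW2c
            _ ≤ _ := Nat.mul_le_mul_right _ h1
        exact Nat.le_of_mul_le_mul_left h2 (by positivity)
      have hA1pos : 0 < A1.card := by
        rcases Nat.eq_zero_or_pos A1.card with h | h
        · rw [h, mul_zero] at hA1c
          omega
        · exact h
      rcases ih A1 W2 hA1pos ((Finset.card_le_card hA1).trans hAK) hW2c' with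
        ⟨A', B, W', hA', hW', hA'c, hW'c, hB, hBB⟩ | ⟨A', W'', θ', hA', hW'', hA'c, hθ', hE, hrare⟩
      · left
        refine ⟨A', fun i => if i = j then B0 else B i, W', hA'.trans hA1,
          hW'.trans (hW2.trans hW1), ?_, hW'c, ?_, ?_⟩
        · calc A.card ≤ 2 ^ (u + 1) * A1.card := hA1c
            _ ≤ 2 ^ (u + 1) * ((2 ^ (u + 1)) ^ j * A'.card) := Nat.mul_le_mul_left _ hA'c
            _ = _ := by ring
        · intro i hi
          beta_reduce
          by_cases hij : i = j
          · rw [if_pos hij]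
            refine ⟨hB0.trans hW1, hB0c, hdis.mono_right hW', fun a ha y hy w hw => ?_⟩
            exact hcol a (hA' ha) y hy w (hW' hw)
          · rw [if_neg hij]
            obtain ⟨h1, h2, h3, h4⟩ := hB i (by omega)
            exact ⟨h1.trans (hW2.trans hW1), h2, h3, h4⟩
        · intro i hi l hl hil
          beta_reduce
          by_cases hij : i = j
          · rw [if_pos hij, if_neg (by omega)]
            obtain ⟨h1, -, -, -⟩ := hB l (by omega)
            exact ⟨hdis.mono_right h1, fun a ha y hy z hz => hcol a (hA' ha) y hy z (h1 hz)⟩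
          · by_cases hlj : l = j
            · rw [if_neg hij, if_pos hlj]
              obtain ⟨h1, -, -, -⟩ := hB i (by omega)
              refine ⟨(hdis.mono_right h1).symm, fun a ha y hy z hz => ?_⟩
              rw [hs']
              exact hcol a (hA' ha) z hz y (h1 hy)
            · rw [if_neg hij, if_neg hlj]
              exact hBB i (by omega) l (by omega) hil
      · right
        refine ⟨A', W'', θ', hA'.trans hA1, hW''.trans (hW2.trans hW1), ?_, hθ', hE, hrare⟩
        calc A.card * 2 ^ (u + 1) ≤ 2 ^ (u + 1) * A1.card * 2 ^ (u + 1) :=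
              Nat.mul_le_mul_right _ hA1c
          _ = 2 ^ (u + 1) * (A1.card * 2 ^ (u + 1)) := by ring
          _ ≤ 2 ^ (u + 1) * ((2 ^ (u + 1)) ^ j * A'.card) := Nat.mul_le_mul_left _ hA'c
          _ = _ := by ring

end Pool.Agent.FanCross
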